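import Pool.Agent.Lib_MP_32c225_ag.Lap

open scoped ComplexConjugate Topology ContDiff
open Laplacian Metric Set

namespace MP_32c225_ag

theorem ahlfors_normsq (w : ℂ) :
    HasFDerivAt (fun s : ℂ => ‖s‖ ^ 2) ((2 : ℝ) • (innerSL ℝ w)) w := by
  have h := (hasStrictFDerivAt_norm_sq w).hasFDerivAt
  have e : (2 • innerSL ℝ w : ℂ →L[ℝ] ℝ) = (2 : ℝ) • innerSL ℝ w := by
    rw [two_smul, two_smul]
  rw [← e]
  exact h

theorem ahlfors_sub (R : ℝ) (w : ℂ) :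
    HasFDerivAt (fun s : ℂ => R ^ 2 - ‖s‖ ^ 2) (-((2 : ℝ) • (innerSL ℝ w))) w :=
  (ahlfors_normsq w).const_sub (R ^ 2)

/-- the real derivative of `log (R² - |w|²)` -/
theorem ahlfors_hasFDerivAt {R : ℝ} {w : ℂ} (hw : ‖w‖ ^ 2 < R ^ 2) :
    HasFDerivAt (fun s : ℂ => Real.log (R ^ 2 - ‖s‖ ^ 2))
      ((R ^ 2 - ‖w‖ ^ 2)⁻¹ • (-((2 : ℝ) • (innerSL ℝ w)))) w := by
  have h2 := ahlfors_sub R w
  exact h2.log (by linarith)

theorem ahlfors_contDiffAt {R : ℝ} {w : ℂ} (hw : ‖w‖ ^ 2 < R ^ 2) :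
    ContDiffAt ℝ 2 (fun s : ℂ => Real.log (R ^ 2 - ‖s‖ ^ 2)) w := by
  apply ContDiffAt.log
  · exact contDiffAt_const.sub (contDiffAt_id.norm_sq ℝ)
  · have : R ^ 2 - ‖w‖ ^ 2 ≠ 0 := by linarith
    exact this

/-- second derivatives of `log (R² - |w|²)` in the direction `v` -/
theorem ahlfors_second {R : ℝ} {w : ℂ} (hw : ‖w‖ ^ 2 < R ^ 2) (v : ℂ) :
    iteratedFDeriv ℝ 2 (fun s : ℂ => Real.log (R ^ 2 - ‖s‖ ^ 2)) w ![v, v] =
      -(2 * ‖v‖ ^ 2) / (R ^ 2 - ‖w‖ ^ 2) -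
        4 * (inner ℝ w v) ^ 2 / (R ^ 2 - ‖w‖ ^ 2) ^ 2 := by
  set f : ℂ → ℝ := fun s => Real.log (R ^ 2 - ‖s‖ ^ 2) with hf
  have hc : R ^ 2 - ‖w‖ ^ 2 ≠ 0 := by linarith
  have hopen : ∀ᶠ s in 𝓝 w, ‖s‖ ^ 2 < R ^ 2 := by
    have hcont : Continuous fun s : ℂ => ‖s‖ ^ 2 := by fun_prop
    exact hcont.continuousAt.eventually_lt continuousAt_const hw
  rw [iteratedFDeriv_two_apply]
  simp only [Matrix.cons_val_zero, Matrix.cons_val_one]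
  have hd : DifferentiableAt ℝ (fderiv ℝ f) w := by
    have h2 : ContDiffAt ℝ 2 f w := ahlfors_contDiffAt hw
    have := h2.fderiv_right (m := 1) (by norm_num)
    exact this.differentiableAt (by norm_num)
  have h3 : (fderiv ℝ (fderiv ℝ f) w v) v = fderiv ℝ (fun s => fderiv ℝ f s v) w v := by
    rw [fderiv_clm_apply hd (differentiableAt_const v)]
    simp
  rw [h3]
  have h4 : (fun s => fderiv ℝ f s v) =ᶠ[𝓝 w]
      fun s => (R ^ 2 - ‖s‖ ^ 2)⁻¹ * (-(2 * inner ℝ s v)) := by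
    filter_upwards [hopen] with s hs
    rw [(ahlfors_hasFDerivAt hs).fderiv]
    simp
  rw [h4.fderiv_eq]
  have h2 := ahlfors_sub R w
  have h5 : HasFDerivAt (fun s : ℂ => (R ^ 2 - ‖s‖ ^ 2)⁻¹)
      (-((R ^ 2 - ‖w‖ ^ 2) ^ 2)⁻¹ • (-((2 : ℝ) • (innerSL ℝ w)))) w := by
    have := (hasDerivAt_inv hc).comp_hasFDerivAt w h2
    simpa [Function.comp_def] using this
  have h6 : HasFDerivAt (fun s : ℂ => -(2 * inner ℝ s v)) (-((2 : ℝ) • (innerSL ℝ v))) w := by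
    have h7 : HasFDerivAt (fun s : ℂ => (inner ℝ s v : ℝ)) (innerSL ℝ v) w := by
      have := (innerSL ℝ v).hasFDerivAt (x := w)
      convert this using 2 with s
      simp [real_inner_comm]
    exact (h7.const_mul (2 : ℝ)).neg
  have h9 : HasFDerivAt (fun s : ℂ => (R ^ 2 - ‖s‖ ^ 2)⁻¹ * (-(2 * inner ℝ s v))) _ w := h5.mul h6
  rw [h9.fderiv]
  simp only [add_apply, smul_apply,
    neg_apply, innerSL_apply_apply, smul_eq_mul, real_inner_self_eq_norm_sq]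
  field_simp
  ring

theorem ahlfors_lap {R : ℝ} {w : ℂ} (hw : ‖w‖ ^ 2 < R ^ 2) :
    Δ (fun s : ℂ => Real.log (R ^ 2 - ‖s‖ ^ 2)) w = -(4 * R ^ 2) / (R ^ 2 - ‖w‖ ^ 2) ^ 2 := by
  have hc : R ^ 2 - ‖w‖ ^ 2 ≠ 0 := by linarith
  rw [InnerProductSpace.laplacian_eq_iteratedFDeriv_complexPlane]
  simp only
  rw [ahlfors_second hw, ahlfors_second hw]
  have h1 : (inner ℝ w (1 : ℂ) : ℝ) = w.re := by simp [Complex.inner]
  have h2 : (inner ℝ w Complex.I : ℝ) = w.im := by simp [Complex.inner]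
  have h3 : ‖w‖ ^ 2 = w.re ^ 2 + w.im ^ 2 := by
    rw [← Complex.normSq_eq_norm_sq, Complex.normSq_apply]; ring
  rw [h1, h2, norm_one, Complex.norm_I]
  rw [h3] at hc ⊢
  field_simp
  ring

theorem ahlfors_aux {R R' : ℝ} (hR' : 0 < R') (hRR : R' < R) {ρ : ℂ → ℝ}
    (hpos : ∀ t ∈ ball (0 : ℂ) R, 0 < ρ t)
    (hs : ContDiffOn ℝ 2 ρ (ball 0 R))
    (h : ∀ t ∈ ball (0 : ℂ) R, (1 / 2) * Δ (fun s => Real.log (ρ s)) t = ρ t) :
    ρ 0 * R' ^ 2 ≤ 4 := by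
  have hsub : closedBall (0 : ℂ) R' ⊆ ball 0 R := closedBall_subset_ball hRR
  set g : ℂ → ℝ := fun z => ρ z * (R' ^ 2 - ‖z‖ ^ 2) ^ 2 with hg
  have hgc : ContinuousOn g (closedBall 0 R') := by
    apply ContinuousOn.mul (hs.continuousOn.mono hsub)
    fun_prop
  obtain ⟨z0, hz0, hmax⟩ := (isCompact_closedBall (0 : ℂ) R').exists_isMaxOn
    ⟨0, mem_closedBall_self hR'.le⟩ hgc
  have hρ0 : 0 < ρ 0 := hpos 0 (mem_ball_self (hR'.trans hRR))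
  have hg0 : g 0 = ρ 0 * R' ^ 4 := by
    simp only [hg, norm_zero]
    ring
  have hgz : ρ 0 * R' ^ 4 ≤ g z0 := by
    rw [← hg0]
    exact hmax (mem_closedBall_self hR'.le)
  have hgpos : 0 < g z0 := lt_of_lt_of_le (by positivity) hgz
  have hzle : ‖z0‖ ≤ R' := by simpa using hz0
  have hzlt : ‖z0‖ < R' := by
    rcases hzle.lt_or_eq with h1 | h1
    · exact h1
    · exfalso
      simp only [hg, h1] at hgpos
      simp at hgpos
  have hzball : z0 ∈ ball (0 : ℂ) R' := by simpa using hzlt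
  have hzR : z0 ∈ ball (0 : ℂ) R := hsub hz0
  have hsq : ∀ z : ℂ, z ∈ ball (0 : ℂ) R' → ‖z‖ ^ 2 < R' ^ 2 := by
    intro z hz
    have h1 : ‖z‖ < R' := by simpa using hz
    exact pow_lt_pow_left₀ h1 (norm_nonneg _) (by norm_num)
  have hρz : 0 < ρ z0 := hpos z0 hzR
  have hρat : ContDiffAt ℝ 2 ρ z0 := hs.contDiffAt (isOpen_ball.mem_nhds hzR)
  have hlogρ : ContDiffAt ℝ 2 (fun s => Real.log (ρ s)) z0 := hρat.log hρz.ne'
  have hlog2 := ahlfors_contDiffAt (hsq z0 hzball)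
  -- the function `-(log ρ + 2 log (R'² - |z|²))` has a local minimum at `z0`
  set F : ℂ → ℝ := fun s => Real.log (ρ s) + (2 : ℝ) • Real.log (R' ^ 2 - ‖s‖ ^ 2) with hF
  have hFc : ContDiffAt ℝ 2 F z0 := hlogρ.add (hlog2.const_smul (2 : ℝ))
  have hmin : IsLocalMin (-F) z0 := by
    have hnb : ball (0 : ℂ) R' ∈ 𝓝 z0 := isOpen_ball.mem_nhds hzball
    filter_upwards [hnb] with z hz
    have hzc : z ∈ closedBall (0 : ℂ) R' := ball_subset_closedBall hz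
    have h1 : g z ≤ g z0 := hmax hzc
    have hρ1 : 0 < ρ z := hpos z (hsub hzc)
    have e : ∀ y : ℂ, 0 < ρ y → ‖y‖ ^ 2 < R' ^ 2 → F y = Real.log (g y) := by
      intro y hy hy2
      have h3 : R' ^ 2 - ‖y‖ ^ 2 ≠ 0 := by linarith
      simp only [hF, hg, smul_eq_mul]
      rw [Real.log_mul hy.ne' (pow_ne_zero 2 h3), Real.log_pow]
      norm_num
    simp only [Pi.neg_apply]
    rw [e z hρ1 (hsq z hz), e z0 hρz (hsq z0 hzball), neg_le_neg_iff]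
    apply Real.log_le_log _ h1
    have h3 : 0 < R' ^ 2 - ‖z‖ ^ 2 := by linarith [hsq z hz]
    simp only [hg]
    positivity
  have hlap : 0 ≤ Δ (-F) z0 := lap_nonneg_of_isLocalMin hFc.neg hmin
  rw [InnerProductSpace.laplacian_neg] at hlap
  have hFadd : F = (fun s => Real.log (ρ s)) +
      (2 : ℝ) • (fun s : ℂ => Real.log (R' ^ 2 - ‖s‖ ^ 2)) := rfl
  have hc2 : ContDiffAt ℝ 2 ((2 : ℝ) • (fun s : ℂ => Real.log (R' ^ 2 - ‖s‖ ^ 2))) z0 :=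
    hlog2.const_smul (2 : ℝ)
  rw [hFadd, Pi.neg_apply, ContDiffAt.laplacian_add hlogρ hc2,
    InnerProductSpace.laplacian_smul _ hlog2, ahlfors_lap (hsq z0 hzball)] at hlap
  have h5 := h z0 hzR
  have h6 : Δ (fun s => Real.log (ρ s)) z0 = 2 * ρ z0 := by linarith
  rw [h6, smul_eq_mul] at hlap
  have hc : 0 < R' ^ 2 - ‖z0‖ ^ 2 := by linarith [hsq z0 hzball]
  have h7 : g z0 ≤ 4 * R' ^ 2 := by
    have h8 : ρ z0 ≤ 4 * R' ^ 2 / (R' ^ 2 - ‖z0‖ ^ 2) ^ 2 := by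
      have h9 : -(4 * R' ^ 2) / (R' ^ 2 - ‖z0‖ ^ 2) ^ 2 =
        -(4 * R' ^ 2 / (R' ^ 2 - ‖z0‖ ^ 2) ^ 2) := by ring
      rw [h9] at hlap
      linarith
    rw [le_div_iff₀ (by positivity)] at h8
    exact h8
  have h10 : ρ 0 * R' ^ 4 ≤ 4 * R' ^ 2 := hgz.trans h7
  have h11 : (ρ 0 * R' ^ 2) * R' ^ 2 ≤ 4 * R' ^ 2 := by
    calc (ρ 0 * R' ^ 2) * R' ^ 2 = ρ 0 * R' ^ 4 := by ring
      _ ≤ _ := h10
  exact le_of_mul_le_mul_right h11 (by positivity)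

/-- Ahlfors-Schwarz: a metric of curvature `-1` on a disc of radius `R` is at most `4 / R²` at the
centre -/
theorem ahlfors {R : ℝ} (hR : 0 < R) {ρ : ℂ → ℝ} (hpos : ∀ t ∈ ball (0 : ℂ) R, 0 < ρ t)
    (hs : ContDiffOn ℝ 2 ρ (ball 0 R))
    (h : ∀ t ∈ ball (0 : ℂ) R, (1 / 2) * Δ (fun s => Real.log (ρ s)) t = ρ t) :
    ρ 0 ≤ 4 / R ^ 2 := by
  have hρ0 : 0 < ρ 0 := hpos 0 (mem_ball_self hR)
  rw [le_div_iff₀ (by positivity)]
  have hlim : Filter.Tendsto (fun r : ℝ => ρ 0 * r ^ 2) (𝓝[<] R) (𝓝 (ρ 0 * R ^ 2)) := by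
    have hcont : Continuous fun r : ℝ => ρ 0 * r ^ 2 := by fun_prop
    exact (hcont.tendsto R).mono_left nhdsWithin_le_nhds
  refine le_of_tendsto hlim ?_
  filter_upwards [Ioo_mem_nhdsLT hR] with r hr
  exact ahlfors_aux hr.1 hr.2 hpos hs h

end MP_32c225_ag
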