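import Pool.Agent.Lib_MP_32c225_ag.Side

open scoped ComplexConjugate Topology ContDiff LinearAlgebra.Projectivization ENNReal
open Laplacian Metric Set

noncomputable section

namespace MP_32c225_ag

/-- the primitive cube root of unity `(-1 + i √3) / 2` -/
def om : ℂ := ⟨-1 / 2, Real.sqrt 3 / 2⟩

/-- the parameters `λ, λ ω, λ ω²` with `λ = μ⁴` -/
def zP (μ : ℝ) : ℂ × ℂ × ℂ := ((μ : ℂ) ^ 4, (μ : ℂ) ^ 4 * om, (μ : ℂ) ^ 4 * om ^ 2)

lemma bridge_om_sum : om ^ 2 + om + 1 = 0 := by
  have h3 : Real.sqrt 3 * Real.sqrt 3 = 3 := Real.mul_self_sqrt (by norm_num)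
  apply Complex.ext
  · simp only [om, sq, Complex.add_re, Complex.mul_re, Complex.one_re, Complex.zero_re]
    nlinarith [h3]
  · simp only [om, sq, Complex.add_im, Complex.mul_im, Complex.one_im, Complex.zero_im]
    ring

lemma bridge_om_cube : om ^ 3 = 1 := by
  linear_combination (om - 1) * bridge_om_sum

lemma bridge_om_ne_zero : om ≠ 0 := by
  intro h
  have := bridge_om_cube
  rw [h] at this
  norm_num at this

lemma bridge_om_ne_one : om ≠ 1 := by
  intro h
  have := bridge_om_sum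
  rw [h] at this
  norm_num at this

lemma bridge_norm_om : ‖om‖ = 1 := by
  have h := congrArg norm bridge_om_cube
  rw [norm_pow, norm_one] at h
  exact (pow_eq_one_iff_of_nonneg (norm_nonneg _) (by norm_num)).1 h

theorem zP_mem {μ : ℝ} (hμ : 1 < μ) : zP μ ∈ Base := by
  have h4 : 1 < μ ^ 4 := one_lt_pow₀ hμ (by norm_num)
  have hn : ‖(μ : ℂ) ^ 4‖ = μ ^ 4 := by
    rw [norm_pow, Complex.norm_real, Real.norm_eq_abs, abs_of_pos (by linarith)]
  have hL0 : (μ : ℂ) ^ 4 ≠ 0 := by
    intro h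
    rw [h, norm_zero] at hn
    linarith
  have h1 : ∀ w : ℂ, ‖w‖ = μ ^ 4 → w ≠ 1 := by
    intro w hw h
    rw [h, norm_one] at hw
    linarith
  have hom0 := bridge_om_ne_zero
  have hom1 := bridge_om_ne_one
  have homn := bridge_norm_om
  refine ⟨hL0, h1 _ hn, mul_ne_zero hL0 hom0, h1 ((μ : ℂ) ^ 4 * om) (by rw [norm_mul, hn, homn, mul_one]),
    mul_ne_zero hL0 (pow_ne_zero _ hom0),
    h1 ((μ : ℂ) ^ 4 * om ^ 2) (by rw [norm_mul, norm_pow om, hn, homn]; simp),
    ?_, ?_, ?_⟩
  · intro h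
    simp only [zP] at h
    apply hom1
    have : (μ : ℂ) ^ 4 * om = (μ : ℂ) ^ 4 * 1 := by rw [← h, mul_one]
    exact mul_left_cancel₀ hL0 this
  · intro h
    simp only [zP] at h
    have h2 : om ^ 2 = 1 := by
      have : (μ : ℂ) ^ 4 * om ^ 2 = (μ : ℂ) ^ 4 * 1 := by rw [← h, mul_one]
      exact mul_left_cancel₀ hL0 this
    apply hom1
    have h3 := bridge_om_cube
    calc om = om ^ 3 := by rw [pow_succ, h2, one_mul]
      _ = 1 := h3
  · intro h
    simp only [zP] at h
    have h2 : om = om ^ 2 := mul_left_cancel₀ hL0 h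
    apply hom1
    have h3 : om * om = om * 1 := by rw [mul_one, ← sq, ← h2]
    exact mul_left_cancel₀ hom0 h3

theorem sextic_zP_one (μ : ℝ) : sextic (zP μ) 1 = fP μ := by
  funext x
  simp only [sextic, zP, fP]
  linear_combination (x * (x - 1)) * ((-(μ : ℂ) ^ 4 * x ^ 2 + (μ : ℂ) ^ 8 * x * om) *
    bridge_om_sum - (μ : ℂ) ^ 12 * bridge_om_cube)

theorem sextic_zP_g (μ : ℝ) (ξ : ℂ) : sextic (zP μ) ξ 1 = gP μ ξ := by
  simp only [sextic, zP, gP]
  linear_combination (ξ * (1 - ξ)) * ((-(μ : ℂ) ^ 4 * ξ + (μ : ℂ) ^ 8 * ξ ^ 2 * om) *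
    bridge_om_sum - (μ : ℂ) ^ 12 * ξ ^ 3 * bridge_om_cube)

lemma bridge_vec_two_ne (x y : ℂ) : vec x 1 y ≠ 0 := by
  intro h
  have := congrFun h 3
  simp [vec] at this

lemma bridge_sqNorm_one (x y : ℂ) : sqNorm (vec 1 x y) = phi x y := by
  simp only [sqNorm, vec, phi, Fin.sum_univ_five]
  simp [norm_pow]
  ring

lemma bridge_sqNorm_two (x y : ℂ) : sqNorm (vec x 1 y) = phi x y := by
  simp only [sqNorm, vec, phi, Fin.sum_univ_five]
  simp [norm_pow]
  ring

lemma bridge_pow_two {X : ℂ → ℂ} {t : ℂ} (h : HasDerivAt X (deriv X t) t) :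
    HasDerivAt (fun s => X s ^ 2) (2 * X t * deriv X t) t := by
  have := h.fun_pow 2
  simpa using this

lemma bridge_pow_three {X : ℂ → ℂ} {t : ℂ} (h : HasDerivAt X (deriv X t) t) :
    HasDerivAt (fun s => X s ^ 3) (3 * X t ^ 2 * deriv X t) t := by
  have := h.fun_pow 3
  simpa using this

lemma bridge_hasDeriv_one {X Y : ℂ → ℂ} {t : ℂ} (hX : DifferentiableAt ℂ X t)
    (hY : DifferentiableAt ℂ Y t) :
    HasDerivAt (fun s => vec 1 (X s) (Y s))
      ![0, deriv X t, 2 * X t * deriv X t, 3 * X t ^ 2 * deriv X t, deriv Y t] t := by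
  rw [hasDerivAt_pi]
  have h1 := hX.hasDerivAt
  have h2 := hY.hasDerivAt
  intro i
  fin_cases i
  · simpa [vec] using hasDerivAt_const t (1 : ℂ)
  · simpa [vec] using h1
  · simpa [vec] using bridge_pow_two h1
  · simpa [vec] using bridge_pow_three h1
  · simpa [vec] using h2

lemma bridge_hasDeriv_two {X Y : ℂ → ℂ} {t : ℂ} (hX : DifferentiableAt ℂ X t)
    (hY : DifferentiableAt ℂ Y t) :
    HasDerivAt (fun s => vec (X s) 1 (Y s))
      ![3 * X t ^ 2 * deriv X t, 2 * X t * deriv X t, deriv X t, 0, deriv Y t] t := by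
  rw [hasDerivAt_pi]
  have h1 := hX.hasDerivAt
  have h2 := hY.hasDerivAt
  intro i
  fin_cases i
  · simpa [vec] using bridge_pow_three h1
  · simpa [vec] using bridge_pow_two h1
  · simpa [vec] using h1
  · simpa [vec] using hasDerivAt_const t (1 : ℂ)
  · simpa [vec] using h2

lemma bridge_param_one {μ : ℝ} {O : Set ℂ} {X Y : ℂ → ℂ} (h : IsCurve (fP μ) O X Y) :
    IsParam (zP μ) O (fun t => vec 1 (X t) (Y t)) where
  isOpen := h.isOpen
  holo := fun t ht => ((bridge_hasDeriv_one ((h.hX t ht).differentiableAt (h.isOpen.mem_nhds ht))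
    ((h.hY t ht).differentiableAt (h.isOpen.mem_nhds ht))).differentiableAt).differentiableWithinAt
  mem := fun t ht => ⟨vec_one_ne _ _, 1, X t, Y t, vec_one_ne _ _, by
    rw [h.eqn t ht, ← sextic_zP_one], rfl⟩
  immersive := by
    intro t ht
    have hd := (bridge_hasDeriv_one ((h.hX t ht).differentiableAt (h.isOpen.mem_nhds ht))
      ((h.hY t ht).differentiableAt (h.isOpen.mem_nhds ht))).deriv
    rw [hd, LinearIndependent.pair_iff]
    intro a b hab
    have h0 := congrFun hab 0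
    have h1 := congrFun hab 1
    have h4 := congrFun hab 4
    simp [vec] at h0 h1 h4
    subst h0
    refine ⟨rfl, ?_⟩
    rcases h.imm t ht with hi | hi
    · simpa [hi] using h1
    · simpa [hi] using h4

lemma bridge_param_two {μ : ℝ} {O : Set ℂ} {X Y : ℂ → ℂ} (h : IsCurve (gP μ) O X Y) :
    IsParam (zP μ) O (fun t => vec (X t) 1 (Y t)) where
  isOpen := h.isOpen
  holo := fun t ht => ((bridge_hasDeriv_two ((h.hX t ht).differentiableAt (h.isOpen.mem_nhds ht))
    ((h.hY t ht).differentiableAt (h.isOpen.mem_nhds ht))).differentiableAt).differentiableWithinAt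
  mem := fun t ht => ⟨bridge_vec_two_ne _ _, X t, 1, Y t, bridge_vec_two_ne _ _, by
    rw [h.eqn t ht, ← sextic_zP_g], rfl⟩
  immersive := by
    intro t ht
    have hd := (bridge_hasDeriv_two ((h.hX t ht).differentiableAt (h.isOpen.mem_nhds ht))
      ((h.hY t ht).differentiableAt (h.isOpen.mem_nhds ht))).deriv
    rw [hd, LinearIndependent.pair_iff]
    intro a b hab
    have h3 := congrFun hab 3
    have h2 := congrFun hab 2
    have h4 := congrFun hab 4
    simp [vec] at h3 h2 h4
    subst h3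
    refine ⟨rfl, ?_⟩
    rcases h.imm t ht with hi | hi
    · simpa [hi] using h2
    · simpa [hi] using h4

lemma bridge_density_one (u : ℙ ℂ (Fin 5 → ℂ) → ℝ) (X Y : ℂ → ℂ) :
    density u (fun t => vec 1 (X t) (Y t)) = rhoC (fun x y => onLift u (vec 1 x y)) X Y := by
  funext t
  simp only [density, rhoC, bridge_sqNorm_one]

lemma bridge_density_two (u : ℙ ℂ (Fin 5 → ℂ) → ℝ) (X Y : ℂ → ℂ) :
    density u (fun t => vec (X t) 1 (Y t)) = rhoC (fun x y => onLift u (vec x 1 y)) X Y := by
  funext t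
  simp only [density, rhoC, bridge_sqNorm_two]

lemma bridge_onLift_smul (u : ℙ ℂ (Fin 5 → ℂ) → ℝ) {v w : Fin 5 → ℂ} {c : ℂ} (hc : c ≠ 0)
    (hw : w ≠ 0) (h : v = c • w) : onLift u v = onLift u w := by
  have hv : v ≠ 0 := by rw [h]; exact smul_ne_zero hc hw
  unfold onLift
  rw [dif_neg hv, dif_neg hw]
  congr 1
  rw [Projectivization.mk_eq_mk_iff']
  exact ⟨c, h.symm⟩

lemma bridge_cne {μ : ℝ} (hμ : 1 < μ) : (μ : ℂ) ^ 12 ≠ 1 ∧ (μ : ℂ) ^ 12 ≠ 0 := by
  have h : 1 < μ ^ 12 := one_lt_pow₀ hμ (by norm_num)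
  constructor
  · intro h1
    have : μ ^ 12 = 1 := by exact_mod_cast h1
    linarith
  · intro h1
    have : μ ^ 12 = 0 := by exact_mod_cast h1
    linarith

theorem bridge {μ : ℝ} (hμ : 1 < μ) {u : ℙ ℂ (Fin 5 → ℂ) → ℝ} (hu : IsKEPotential (zP μ) u) :
    TwoSided (fP μ) (gP μ) (fun x y => onLift u (vec 1 x y)) (fun ξ w => onLift u (vec ξ 1 w)) := by
  obtain ⟨hc1, hc0⟩ := bridge_cne hμ
  have hdf : ∀ x, HasDerivAt (fP μ)
      ((2 * x - 1) * (x ^ 3 - (μ : ℂ) ^ 12) + x * (x - 1) * (3 * x ^ 2)) x := by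
    intro x
    have h1 : HasDerivAt (fun x : ℂ => x * (x - 1)) (1 * (x - 1) + x * 1) x :=
      (hasDerivAt_id x).mul ((hasDerivAt_id x).sub_const 1)
    have h2 : HasDerivAt (fun x : ℂ => x ^ 3 - (μ : ℂ) ^ 12) (3 * x ^ 2) x := by
      simpa using (hasDerivAt_pow 3 x).sub_const ((μ : ℂ) ^ 12)
    exact (h1.fun_mul h2).congr_deriv (by ring)
  have hdg : ∀ x, HasDerivAt (gP μ)
      ((1 - 2 * x) * (1 - (μ : ℂ) ^ 12 * x ^ 3) + x * (1 - x) * (-(μ : ℂ) ^ 12 * (3 * x ^ 2))) x := by
    intro x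
    have h1 : HasDerivAt (fun x : ℂ => x * (1 - x)) (1 * (1 - x) + x * (-1)) x :=
      (hasDerivAt_id x).mul ((hasDerivAt_id x).const_sub 1)
    have h2 : HasDerivAt (fun x : ℂ => 1 - (μ : ℂ) ^ 12 * x ^ 3)
        (-((μ : ℂ) ^ 12 * (3 * x ^ 2))) x := by
      simpa using ((hasDerivAt_pow 3 x).const_mul ((μ : ℂ) ^ 12)).const_sub 1
    exact (h1.fun_mul h2).congr_deriv (by ring)
  refine
    { df := fun x => (hdf x).differentiableAt
      dg := fun x => (hdg x).differentiableAt
      sf := ?_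
      sg := ?_
      f0 := by simp [fP]
      g0 := by simp [gP]
      fg := ?_
      kef := ?_
      keg := ?_
      uu := ?_ }
  · intro x hx
    rw [(hdf x).deriv]
    simp only [fP, mul_eq_zero] at hx
    rcases hx with (hx | hx) | hx
    · subst hx; simpa using hc0
    · have hx1 : x = 1 := by linear_combination hx
      subst hx1
      intro h
      apply hc1
      linear_combination -h
    · intro h
      rw [hx] at h
      have h1 : (μ : ℂ) ^ 12 * (x - 1) = 0 := by
        linear_combination (1 / 3 : ℂ) * h - (x - 1) * hx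
      rcases mul_eq_zero.1 h1 with h2 | h2
      · exact hc0 h2
      · have hx1 : x = 1 := by linear_combination h2
        subst hx1
        apply hc1
        linear_combination -hx
  · intro x hx
    rw [(hdg x).deriv]
    simp only [gP, mul_eq_zero] at hx
    rcases hx with (hx | hx) | hx
    · subst hx; simp
    · have hx1 : x = 1 := by linear_combination -hx
      subst hx1
      intro h
      apply hc1
      linear_combination h
    · intro h
      rw [hx] at h
      have h2 : 1 - x = 0 := by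
        linear_combination (-1 / 3 : ℂ) * h + (1 - x) * hx
      have hx1 : x = 1 := by linear_combination -h2
      subst hx1
      apply hc1
      linear_combination -hx
  · intro x hx
    simp only [fP, gP]
    field_simp
  · refine ⟨fun O X Y h => ?_, fun O X Y h t ht => ?_, fun O X Y h t ht => ?_⟩
    · exact hu.smooth O _ (bridge_param_one h)
    · have := hu.pos O _ (bridge_param_one h) t ht
      rwa [bridge_density_one] at this
    · have := hu.einstein O _ (bridge_param_one h) t ht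
      rwa [bridge_density_one] at this
  · refine ⟨fun O X Y h => ?_, fun O X Y h t ht => ?_, fun O X Y h t ht => ?_⟩
    · exact hu.smooth O _ (bridge_param_two h)
    · have := hu.pos O _ (bridge_param_two h) t ht
      rwa [bridge_density_two] at this
    · have := hu.einstein O _ (bridge_param_two h) t ht
      rwa [bridge_density_two] at this
  · intro x y hx hy
    refine bridge_onLift_smul u (c := x ^ 3) (pow_ne_zero _ hx) (bridge_vec_two_ne _ _) ?_
    funext i
    fin_cases i <;> simp [vec] <;> field_simp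

end MP_32c225_ag
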