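import Pool.Agent.Lib_MP_32c225_ag.Side

open scoped ComplexConjugate Topology ContDiff
open Laplacian Metric Set

namespace MP_32c225_ag

/-- chart at a point with `y ≠ 0` -/
theorem chart_of_ne {f : ℂ → ℂ} (hf : Differentiable ℂ f) {P : ℂ × ℂ} (hP : P ∈ Crv f)
    (h0 : P.2 ≠ 0) : ∃ r X Y k, IsChart f P r X Y k := by
  obtain ⟨x0, y0⟩ := P
  simp only [Crv, mem_ofPred_eq] at hP
  simp only at h0
  set q : ℂ → ℂ := fun t => f (x0 + t) / y0 ^ 2 with hq
  have hqd : Differentiable ℂ q := by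
    intro t
    exact ((hf _).comp t ((differentiable_id.const_add x0) t)).div_const _
  have hq0 : q 0 = 1 := by
    simp only [hq, add_zero, ← hP]
    field_simp
  set s : ℂ → ℂ := fun t => q t ^ ((2 : ℕ) : ℂ)⁻¹ with hsdef
  have hs2 : ∀ t, s t ^ 2 = q t := fun t => Complex.cpow_nat_inv_pow _ two_ne_zero
  have hs0 : s 0 = 1 := by simp only [hsdef, hq0, Complex.one_cpow]
  have hpos : ∀ᶠ t in 𝓝 (0 : ℂ), 0 < (q t).re := by
    have h1 : ContinuousAt (fun t => (q t).re) 0 :=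
      (Complex.continuous_re.comp hqd.continuous).continuousAt
    refine h1.eventually (lt_mem_nhds ?_)
    show 0 < (q 0).re
    rw [hq0]; simp
  obtain ⟨r, hr, hrq⟩ := Metric.eventually_nhds_iff_ball.1 hpos
  have hslit : ∀ t ∈ ball (0 : ℂ) r, q t ∈ Complex.slitPlane := fun t ht => Or.inl (hrq t ht)
  have hsd : ∀ t ∈ ball (0 : ℂ) r, DifferentiableAt ℂ s t := by
    intro t ht
    exact (hqd t).cpow_const (hslit t ht)
  have hY2 : ∀ t, (y0 * s t) ^ 2 = f (x0 + t) := by
    intro t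
    rw [mul_pow, hs2]
    simp only [hq]
    field_simp
  have hYne : ∀ t ∈ ball (0 : ℂ) r, y0 * s t ≠ 0 := by
    intro t ht h
    have h1 : s t = 0 := (mul_eq_zero.1 h).resolve_left h0
    have h2 := hs2 t
    rw [h1, zero_pow two_ne_zero] at h2
    exact Complex.slitPlane_ne_zero (hslit t ht) h2.symm
  have hYd : ∀ t ∈ ball (0 : ℂ) r, DifferentiableAt ℂ (fun t => y0 * s t) t := fun t ht =>
    (hsd t ht).const_mul y0
  refine ⟨r, fun t => x0 + t, fun t => y0 * s t, fun t => (y0 * s t)⁻¹, ?_⟩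
  refine ⟨hr, by simp, by simp [hs0], ?_, fun t ht => (hYd t ht).differentiableWithinAt,
    fun t ht => ((hYd t ht).inv (hYne t ht)).differentiableWithinAt,
    fun t _ => hY2 t, fun t ht => inv_ne_zero (hYne t ht), ?_, ?_, fun t ht _ => hYne t ht, ?_⟩
  · exact (differentiable_id.const_add x0).differentiableOn
  · intro t ht
    rw [inv_mul_cancel₀ (hYne t ht)]
    simp
  · intro t ht
    have h1 : HasDerivAt (fun t => (y0 * s t) ^ 2) (2 * (y0 * s t) * deriv (fun t => y0 * s t) t) t := by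
      have := (hYd t ht).hasDerivAt.fun_pow 2
      simpa only [Nat.cast_ofNat, Nat.add_one_sub_one, pow_one] using this
    have h2 : HasDerivAt (fun t => f (x0 + t)) (deriv f (x0 + t)) t := by
      exact HasDerivAt.comp_const_add x0 t (hf (x0 + t)).hasDerivAt
    have h3 : (fun t => (y0 * s t) ^ 2) = fun t => f (x0 + t) := funext hY2
    rw [h3] at h1
    have h4 := h1.unique h2
    have h5 := hYne t ht
    rw [← h4, eq_inv_mul_iff_mul_eq₀ h5]
    ring
  · intro ε hε
    have hsc : ContinuousAt s 0 := (hsd 0 (mem_ball_self hr)).continuousAt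
    have h1 : ∀ᶠ t in 𝓝 (0 : ℂ), 0 < (s t).re := by
      have h1 : ContinuousAt (fun t => (s t).re) 0 :=
        Complex.continuous_re.continuousAt.comp hsc
      refine h1.eventually (lt_mem_nhds ?_)
      show 0 < (s 0).re
      rw [hs0]; simp
    obtain ⟨r1, hr1, hs1⟩ := Metric.eventually_nhds_iff_ball.1 h1
    have h2 : ∀ᶠ y in 𝓝 y0, 0 < (y / y0).re := by
      have h2 : ContinuousAt (fun y : ℂ => (y / y0).re) y0 :=
        Complex.continuous_re.continuousAt.comp (continuousAt_id.div_const y0)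
      refine h2.eventually (lt_mem_nhds ?_)
      show 0 < (y0 / y0).re
      rw [div_self h0]; simp
    obtain ⟨r2, hr2, hy2⟩ := Metric.eventually_nhds_iff_ball.1 h2
    refine ⟨min (min ε r) (min r1 r2), by positivity, ?_⟩
    intro x y hxy hx hy
    simp only at hx hy
    have hx1 : ‖x - x0‖ < ε := lt_of_lt_of_le hx ((min_le_left _ _).trans (min_le_left _ _))
    have hx2 : ‖x - x0‖ < r := lt_of_lt_of_le hx ((min_le_left _ _).trans (min_le_right _ _))
    have hx3 : ‖x - x0‖ < r1 := lt_of_lt_of_le hx ((min_le_right _ _).trans (min_le_left _ _))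
    have hy1 : ‖y - y0‖ < r2 := lt_of_lt_of_le hy ((min_le_right _ _).trans (min_le_right _ _))
    refine ⟨x - x0, by simpa using hx2, hx1, by simp, ?_⟩
    have h3 := hs1 (x - x0) (by simpa using hx3)
    have h4 := hy2 y (by simpa [dist_eq_norm] using hy1)
    have h5 : (y / y0) ^ 2 = s (x - x0) ^ 2 := by
      rw [hs2, div_pow, hxy]
      simp only [hq, add_sub_cancel]
    rcases sq_eq_sq_iff_eq_or_eq_neg.1 h5 with h6 | h6
    · rw [← h6]
      field_simp
    · exfalso
      rw [h6, Complex.neg_re] at h4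
      linarith

/-- chart at a point with `y = 0` -/
theorem chart_of_eq {f : ℂ → ℂ} (hf : Differentiable ℂ f) (hs : ∀ x, f x = 0 → deriv f x ≠ 0)
    {P : ℂ × ℂ} (hP : P ∈ Crv f) (h0 : P.2 = 0) : ∃ r X Y k, IsChart f P r X Y k := by
  obtain ⟨x0, y0⟩ := P
  simp only at h0
  subst h0
  simp only [Crv, mem_ofPred_eq, zero_pow two_ne_zero] at hP
  have hd0 : deriv f x0 ≠ 0 := hs x0 hP.symm
  have hdd : Differentiable ℂ (deriv f) := by
    have := (hf.contDiff (n := 2)).differentiable_deriv_two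
    exact this
  have hcd : ContDiffAt ℂ 1 f x0 := (hf.contDiff (n := 1)).contDiffAt
  have hfd : HasFDerivAt f ((ContinuousLinearEquiv.unitsEquivAut ℂ (Units.mk0 _ hd0) :
      ℂ ≃L[ℂ] ℂ) : ℂ →L[ℂ] ℂ) x0 :=
    (hf x0).hasDerivAt.hasFDerivAt_equiv hd0
  set e := hcd.toOpenPartialHomeomorph f hfd one_ne_zero with he
  have hecoe : ∀ x, e x = f x := fun x => rfl
  have hx0s : x0 ∈ e.source := hcd.mem_toOpenPartialHomeomorph_source hfd one_ne_zero
  have h0t : (0 : ℂ) ∈ e.target := by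
    have := e.map_source hx0s
    rwa [hecoe, ← hP] at this
  have hG0 : e.symm 0 = x0 := by
    have := e.left_inv hx0s
    rwa [hecoe, ← hP] at this
  have hcG : ContinuousAt e.symm 0 := e.continuousAt_symm h0t
  have h1 : ∀ᶠ w in 𝓝 (0 : ℂ), w ∈ e.target ∧ deriv f (e.symm w) ≠ 0 := by
    refine (e.open_target.eventually_mem h0t).and ?_
    have h2 : ContinuousAt (fun w => deriv f (e.symm w)) 0 :=
      ContinuousAt.comp (hdd.continuous.continuousAt) hcG
    exact h2.eventually_ne (by rwa [hG0])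
  obtain ⟨ρ, hρ, hρ2⟩ := Metric.eventually_nhds_iff_ball.1 h1
  set r := min 1 ρ with hr
  have hrpos : 0 < r := lt_min one_pos hρ
  have hsq : ∀ t ∈ ball (0 : ℂ) r, t ^ 2 ∈ ball (0 : ℂ) ρ := by
    intro t ht
    rw [mem_ball_zero_iff] at ht ⊢
    rw [norm_pow]
    have h2 : ‖t‖ < 1 := lt_of_lt_of_le ht (min_le_left _ _)
    have h3 : ‖t‖ < ρ := lt_of_lt_of_le ht (min_le_right _ _)
    nlinarith [norm_nonneg t]
  have hGd : ∀ w ∈ ball (0 : ℂ) ρ, HasDerivAt e.symm (deriv f (e.symm w))⁻¹ w := fun w hw =>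
    e.hasDerivAt_symm (hρ2 w hw).1 (hρ2 w hw).2 ((hf _).hasDerivAt)
  have hXd : ∀ t ∈ ball (0 : ℂ) r,
      HasDerivAt (fun t => e.symm (t ^ 2)) ((deriv f (e.symm (t ^ 2)))⁻¹ * (2 * t)) t := by
    intro t ht
    have h2 : HasDerivAt (fun t : ℂ => t ^ 2) (2 * t) t := by simpa using hasDerivAt_pow 2 t
    exact (hGd _ (hsq t ht)).comp t h2
  refine ⟨r, fun t => e.symm (t ^ 2), fun t => t, fun t => 2 * (deriv f (e.symm (t ^ 2)))⁻¹, ?_⟩
  refine ⟨hrpos, ?_, rfl, fun t ht => (hXd t ht).differentiableAt.differentiableWithinAt,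
    differentiableOn_id, ?_, ?_, ?_, ?_, ?_, fun t _ h => h, ?_⟩
  · simpa using hG0
  · intro t ht
    have h2 : DifferentiableAt ℂ (fun t => deriv f (e.symm (t ^ 2))) t :=
      (hdd _).comp t (hXd t ht).differentiableAt
    exact ((h2.inv (hρ2 _ (hsq t ht)).2).const_mul 2).differentiableWithinAt
  · intro t ht
    have := e.right_inv (hρ2 _ (hsq t ht)).1
    rw [hecoe] at this
    exact this.symm
  · intro t ht
    exact mul_ne_zero two_ne_zero (inv_ne_zero (hρ2 _ (hsq t ht)).2)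
  · intro t ht
    rw [(hXd t ht).deriv]
    ring
  · intro t ht
    have h2 := (hρ2 _ (hsq t ht)).2
    rw [deriv_id'']
    field_simp
  · intro ε hε
    obtain ⟨δ, hδ, hδ2⟩ := Metric.isOpen_iff.1 e.open_source x0 hx0s
    refine ⟨min δ (min ε r), by positivity, ?_⟩
    intro x y hxy hx hy
    simp only [sub_zero] at hx hy
    have hx1 : x ∈ e.source := hδ2 (by
      rw [mem_ball_iff_norm]
      exact lt_of_lt_of_le hx (min_le_left _ _))
    have hy1 : ‖y‖ < ε := lt_of_lt_of_le hy ((min_le_right _ _).trans (min_le_left _ _))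
    have hy2 : ‖y‖ < r := lt_of_lt_of_le hy ((min_le_right _ _).trans (min_le_right _ _))
    refine ⟨y, by simpa using hy2, hy1, ?_, rfl⟩
    simp only [hxy]
    have := e.left_inv hx1
    rwa [hecoe] at this

/-- every point of a smooth affine curve `y² = f(x)` is the centre of a chart -/
theorem exists_chart {f : ℂ → ℂ} (hf : Differentiable ℂ f) (hs : ∀ x, f x = 0 → deriv f x ≠ 0)
    {P : ℂ × ℂ} (hP : P ∈ Crv f) : ∃ r X Y k, IsChart f P r X Y k := by
  by_cases h0 : P.2 = 0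
  · exact chart_of_eq hf hs hP h0
  · exact chart_of_ne hf hP h0

/-- a function on the curve which is continuous in all charts is continuous -/
theorem cont_of_charts {f : ℂ → ℂ} (hf : Differentiable ℂ f) (hs : ∀ x, f x = 0 → deriv f x ≠ 0)
    {H : ℂ → ℂ → ℝ} (hH : ∀ P r X Y k, IsChart f P r X Y k → ContinuousAt (fun t => H (X t) (Y t)) 0) :
    ContinuousOn (fun P : ℂ × ℂ => H P.1 P.2) (Crv f) := by
  intro P hP
  obtain ⟨r, X, Y, k, hc⟩ := exists_chart hf hs hP
  rw [Metric.continuousWithinAt_iff]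
  intro η hη
  have h1 := hH P r X Y k hc
  rw [Metric.continuousAt_iff] at h1
  obtain ⟨ε, hε, h2⟩ := h1 η hη
  obtain ⟨δ, hδ, h3⟩ := hc.cover ε hε
  refine ⟨δ, hδ, fun Q hQ hd => ?_⟩
  have h4 : dist Q.1 P.1 < δ := lt_of_le_of_lt (le_max_left _ _) hd
  have h5 : dist Q.2 P.2 < δ := lt_of_le_of_lt (le_max_right _ _) hd
  obtain ⟨t, _, ht2, ht3, ht4⟩ := h3 Q.1 Q.2 hQ (by rwa [← dist_eq_norm]) (by rwa [← dist_eq_norm])
  have h6 := h2 (x := t) (by simpa using ht2)
  rw [ht3, ht4, hc.X0, hc.Y0] at h6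
  exact h6

/-- charts are immersed curves -/
theorem IsChart.isCurve {f : ℂ → ℂ} (hs : ∀ x, f x = 0 → deriv f x ≠ 0) {P : ℂ × ℂ} {r : ℝ}
    {X Y k : ℂ → ℂ} (h : IsChart f P r X Y k) : IsCurve f (ball 0 r) X Y := by
  refine ⟨isOpen_ball, h.hX, h.hY, h.eqn, fun t ht => ?_⟩
  by_contra hcon
  push Not at hcon
  obtain ⟨h1, h2⟩ := hcon
  rw [h.dX t ht] at h1
  rw [h.dY t ht] at h2
  have h3 : Y t = 0 := (mul_eq_zero.1 h1).resolve_left (h.k_ne t ht)
  have h4 : deriv f (X t) = 0 := by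
    have := (mul_eq_zero.1 h2).resolve_left (h.k_ne t ht)
    simpa using this
  have h5 := h.eqn t ht
  rw [h3, zero_pow two_ne_zero] at h5
  exact hs _ h5.symm h4

end MP_32c225_ag
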