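import Pool.Agent.Lib_MP_32c225_ag.Side

open scoped ComplexConjugate Topology ContDiff
open Laplacian Metric Set

namespace MP_32c225_ag

variable {f g : ℂ → ℂ} {Uf Ug : ℂ → ℂ → ℝ} {h h' : ℂ → ℂ → ℝ}

theorem glob_isCompact (hf : Continuous f) :
    IsCompact {P : ℂ × ℂ | P ∈ Crv f ∧ ‖P.1‖ ≤ 1} := by
  obtain ⟨C, hC⟩ := (isCompact_closedBall (0 : ℂ) 1).exists_bound_of_continuousOn
    hf.continuousOn
  have hK : IsCompact (closedBall (0 : ℂ) 1 ×ˢ closedBall (0 : ℂ) (C + 1)) :=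
    (isCompact_closedBall _ _).prod (isCompact_closedBall _ _)
  refine hK.of_isClosed_subset ?_ ?_
  · have h1 : IsClosed {P : ℂ × ℂ | P.2 ^ 2 = f P.1} :=
      isClosed_eq (by fun_prop) (hf.comp continuous_fst)
    have h2 : IsClosed {P : ℂ × ℂ | ‖P.1‖ ≤ 1} :=
      isClosed_le (by fun_prop) continuous_const
    exact h1.inter h2
  · rintro ⟨x, y⟩ ⟨h1, h2⟩
    have hx : x ∈ closedBall (0 : ℂ) 1 := by simpa using h2
    refine ⟨hx, ?_⟩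
    have h3 : ‖y‖ ^ 2 ≤ C := by
      have h4 : y ^ 2 = f x := h1
      rw [← norm_pow, h4]
      exact hC x hx
    have h5 : ‖y‖ ≤ C + 1 := by nlinarith [norm_nonneg y, sq_nonneg (‖y‖ - 1)]
    simpa using h5

theorem glob_to_g (H : TwoSided f g Uf Ug) (hh : Glued f g h h') {x y : ℂ} (hx : x ≠ 0)
    (hy : y ^ 2 = f x) :
    (x⁻¹, y / x ^ 3) ∈ Crv g ∧ h x y = h' x⁻¹ (y / x ^ 3) := by
  refine ⟨?_, hh.eq x y hx hy⟩
  show (y / x ^ 3) ^ 2 = g x⁻¹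
  rw [div_pow, hy, H.fg x hx]
  field_simp

theorem glob_to_f (H : TwoSided f g Uf Ug) (hh : Glued f g h h') {x y : ℂ} (hx : x ≠ 0)
    (hy : y ^ 2 = g x) :
    (x⁻¹, y * x⁻¹ ^ 3) ∈ Crv f ∧ h x⁻¹ (y * x⁻¹ ^ 3) = h' x y := by
  have hx' : x⁻¹ ≠ 0 := inv_ne_zero hx
  have h1 : (y * x⁻¹ ^ 3) ^ 2 = f x⁻¹ := by
    rw [mul_pow, hy, H.fg x⁻¹ hx', inv_inv]
    ring
  refine ⟨h1, ?_⟩
  rw [hh.eq _ _ hx' h1, inv_inv, mul_div_assoc, div_self (pow_ne_zero 3 hx'), mul_one]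

/-- a continuous function on the compact curve attains its minimum -/
theorem exists_min (H : TwoSided f g Uf Ug) (hh : Glued f g h h') :
    (∃ P ∈ Crv f, (∀ Q ∈ Crv f, h P.1 P.2 ≤ h Q.1 Q.2) ∧ ∀ Q ∈ Crv g, h P.1 P.2 ≤ h' Q.1 Q.2) ∨
      ((∀ Q ∈ Crv f, h' 0 0 ≤ h Q.1 Q.2) ∧ ∀ Q ∈ Crv g, h' 0 0 ≤ h' Q.1 Q.2) := by
  obtain ⟨P, hP, hPm⟩ := (glob_isCompact H.df.continuous).exists_isMinOn
    ⟨(0, 0), by show (0 : ℂ) ^ 2 = f 0; rw [H.f0]; simp, by simp⟩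
    (hh.cf.mono fun Q hQ => hQ.1)
  obtain ⟨R, hR, hRm⟩ := (glob_isCompact H.dg.continuous).exists_isMinOn
    ⟨(0, 0), by show (0 : ℂ) ^ 2 = g 0; rw [H.g0]; simp, by simp⟩
    (hh.cg.mono fun Q hQ => hQ.1)
  have hP1 : ∀ Q ∈ Crv f, ‖Q.1‖ ≤ 1 → h P.1 P.2 ≤ h Q.1 Q.2 := fun Q hQ hQ1 =>
    hPm (show Q ∈ {P : ℂ × ℂ | P ∈ Crv f ∧ ‖P.1‖ ≤ 1} from ⟨hQ, hQ1⟩)
  have hR1 : ∀ Q ∈ Crv g, ‖Q.1‖ ≤ 1 → h' R.1 R.2 ≤ h' Q.1 Q.2 := fun Q hQ hQ1 =>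
    hRm (show Q ∈ {P : ℂ × ℂ | P ∈ Crv g ∧ ‖P.1‖ ≤ 1} from ⟨hQ, hQ1⟩)
  -- the global lower bounds
  have key : ∀ m : ℝ, m ≤ h P.1 P.2 → m ≤ h' R.1 R.2 →
      (∀ Q ∈ Crv f, m ≤ h Q.1 Q.2) ∧ ∀ Q ∈ Crv g, m ≤ h' Q.1 Q.2 := by
    intro m hm1 hm2
    constructor
    · rintro ⟨x, y⟩ hQ
      by_cases hx : ‖x‖ ≤ 1
      · exact hm1.trans (hP1 _ hQ hx)
      · push Not at hx
        have hx0 : x ≠ 0 := by
          rintro rfl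
          simp at hx
          linarith
        obtain ⟨h1, h2⟩ := glob_to_g H hh hx0 hQ
        show m ≤ h x y
        rw [h2]
        refine hm2.trans (hR1 _ h1 ?_)
        show ‖x⁻¹‖ ≤ 1
        rw [norm_inv]
        exact inv_le_one_of_one_le₀ hx.le
    · rintro ⟨x, y⟩ hQ
      by_cases hx : ‖x‖ ≤ 1
      · exact hm2.trans (hR1 _ hQ hx)
      · push Not at hx
        have hx0 : x ≠ 0 := by
          rintro rfl
          simp at hx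
          linarith
        obtain ⟨h1, h2⟩ := glob_to_f H hh hx0 hQ
        show m ≤ h' x y
        rw [← h2]
        refine hm1.trans (hP1 _ h1 ?_)
        show ‖x⁻¹‖ ≤ 1
        rw [norm_inv]
        exact inv_le_one_of_one_le₀ hx.le
  rcases le_total (h P.1 P.2) (h' R.1 R.2) with hle | hle
  · left
    exact ⟨P, hP.1, key _ le_rfl hle⟩
  · have hk := key _ hle le_rfl
    by_cases hR0 : R.1 = 0
    · right
      have hR2 : R.2 = 0 := by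
        have h1 : R.2 ^ 2 = g R.1 := hR.1
        rw [hR0, H.g0] at h1
        exact pow_eq_zero_iff (two_ne_zero) |>.1 h1
      rw [hR0, hR2] at hk
      exact hk
    · left
      obtain ⟨h1, h2⟩ := glob_to_f H hh hR0 (show R.2 ^ 2 = g R.1 from hR.1)
      refine ⟨_, h1, ?_⟩
      show (∀ Q ∈ Crv f, h R.1⁻¹ (R.2 * R.1⁻¹ ^ 3) ≤ h Q.1 Q.2) ∧
        ∀ Q ∈ Crv g, h R.1⁻¹ (R.2 * R.1⁻¹ ^ 3) ≤ h' Q.1 Q.2
      rw [h2]
      exact hk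

end MP_32c225_ag
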