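import Pool.Agent.Lib_MP_32c225_ag.Lap
import Pool.Agent.Lib_MP_32c225_ag.Chart

open scoped ComplexConjugate Topology ContDiff
open Laplacian Metric Set

namespace MP_32c225_ag

variable {f g : ℂ → ℂ} {Uf Ug : ℂ → ℂ → ℝ} {v v' : ℂ → ℂ → ℝ}

/-- the derivative of `f` in terms of `g` -/
theorem trans_deriv (h : TwoSided f g Uf Ug) {x : ℂ} (hx : x ≠ 0) :
    deriv f x = 6 * x ^ 5 * g x⁻¹ - x ^ 4 * deriv g x⁻¹ := by
  have h1 : f =ᶠ[𝓝 x] fun s => s ^ 6 * g s⁻¹ := by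
    filter_upwards [isOpen_ne.mem_nhds hx] with s hs
    exact h.fg s hs
  rw [h1.deriv_eq]
  have h2 : HasDerivAt (fun s : ℂ => s ^ 6) (6 * x ^ 5) x := by
    simpa using hasDerivAt_pow 6 x
  have h3 : HasDerivAt (fun s : ℂ => g s⁻¹) (deriv g x⁻¹ * (-(x ^ 2)⁻¹)) x :=
    (h.dg x⁻¹).hasDerivAt.comp x (hasDerivAt_inv hx)
  rw [(h2.fun_mul h3).deriv]
  field_simp
  ring

/-- the chart on the other side -/
theorem trans_chart (h : TwoSided f g Uf Ug) {x y : ℂ} {r r' : ℝ} {X Y k : ℂ → ℂ}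
    (hx : x ≠ 0) (hc : IsChart f (x, y) r X Y k) (hr0 : 0 < r') (hr : r' ≤ r)
    (hX0 : ∀ t ∈ ball (0 : ℂ) r', X t ≠ 0) :
    IsChart g (x⁻¹, y / x ^ 3) r' (fun t => (X t)⁻¹) (fun t => Y t / X t ^ 3)
      (fun t => -(k t * X t)) := by
  have hsub : ball (0 : ℂ) r' ⊆ ball 0 r := ball_subset_ball hr
  have hX := hc.hX.mono hsub
  have hY := hc.hY.mono hsub
  have hk := hc.hk.mono hsub
  have dX : ∀ t ∈ ball (0 : ℂ) r', HasDerivAt X (k t * Y t) t := fun t ht => by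
    rw [← hc.dX t (hsub ht)]
    exact (hX.differentiableAt (isOpen_ball.mem_nhds ht)).hasDerivAt
  have dY : ∀ t ∈ ball (0 : ℂ) r', HasDerivAt Y (k t * (deriv f (X t) / 2)) t := fun t ht => by
    rw [← hc.dY t (hsub ht)]
    exact (hY.differentiableAt (isOpen_ball.mem_nhds ht)).hasDerivAt
  refine ⟨hr0, by simp [hc.X0], by simp [hc.X0, hc.Y0], hX.fun_inv hX0, ?_, ?_, ?_, ?_, ?_, ?_, ?_,
    ?_⟩
  · exact hY.fun_div (hX.fun_pow 3) fun t ht => pow_ne_zero 3 (hX0 t ht)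
  · exact (hk.fun_mul hX).fun_neg
  · intro t ht
    have h1 := hc.eqn t (hsub ht)
    rw [h.fg _ (hX0 t ht)] at h1
    have h2 := hX0 t ht
    rw [div_pow, h1]
    field_simp
  · intro t ht
    exact neg_ne_zero.2 (mul_ne_zero (hc.k_ne t (hsub ht)) (hX0 t ht))
  · intro t ht
    have h2 := hX0 t ht
    rw [((dX t ht).fun_inv h2).deriv]
    field_simp
  · intro t ht
    have h2 := hX0 t ht
    have h1 := hc.eqn t (hsub ht)
    rw [h.fg _ h2] at h1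
    rw [((dY t ht).fun_div ((dX t ht).fun_pow 3) (pow_ne_zero 3 h2)).deriv, trans_deriv h h2]
    have h3 : Y t * (3 * X t ^ 2 * (k t * Y t)) = 3 * X t ^ 2 * k t * (X t ^ 6 * g (X t)⁻¹) := by
      rw [← h1]; ring
    simp only [Nat.cast_ofNat, Nat.add_one_sub_one]
    rw [h3]
    field_simp
    ring
  · intro t ht ht0
    exact div_ne_zero (hc.Y_ne t (hsub ht) ht0) (pow_ne_zero 3 (hX0 t ht))
  · intro ε hε
    obtain ⟨δ₁, hδ₁, hcov⟩ := hc.cover (min ε r') (lt_min hε hr0)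
    have hxi : x⁻¹ ≠ 0 := inv_ne_zero hx
    have c1 : ContinuousAt (fun p : ℂ × ℂ => p.1⁻¹) (x⁻¹, y / x ^ 3) :=
      continuousAt_fst.inv₀ hxi
    have c2 : ContinuousAt (fun p : ℂ × ℂ => p.2 / p.1 ^ 3) (x⁻¹, y / x ^ 3) :=
      continuousAt_snd.div (continuousAt_fst.pow 3) (pow_ne_zero 3 hxi)
    have e1 : ∀ᶠ p : ℂ × ℂ in 𝓝 (x⁻¹, y / x ^ 3), ‖p.1⁻¹ - x‖ < δ₁ := by
      have := c1.eventually (Metric.ball_mem_nhds ((x⁻¹)⁻¹) hδ₁)
      simpa [dist_eq_norm] using this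
    have e2 : ∀ᶠ p : ℂ × ℂ in 𝓝 (x⁻¹, y / x ^ 3), ‖p.2 / p.1 ^ 3 - y‖ < δ₁ := by
      have := c2.eventually (Metric.ball_mem_nhds ((y / x ^ 3) / (x⁻¹) ^ 3) hδ₁)
      have hy : (y / x ^ 3) / (x⁻¹) ^ 3 = y := by field_simp
      rw [hy] at this
      simpa [dist_eq_norm] using this
    have e3 : ∀ᶠ p : ℂ × ℂ in 𝓝 (x⁻¹, y / x ^ 3), p.1 ≠ 0 :=
      continuousAt_fst.eventually_ne hxi
    obtain ⟨δ, hδ, hball⟩ := Metric.eventually_nhds_iff.1 (e1.and (e2.and e3))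
    refine ⟨δ, hδ, fun ξ w hw h1 h2 => ?_⟩
    have hd : dist (ξ, w) (x⁻¹, y / x ^ 3) < δ := by
      rw [Prod.dist_eq, max_lt_iff]
      exact ⟨by simpa [dist_eq_norm] using h1, by simpa [dist_eq_norm] using h2⟩
    obtain ⟨q1, q2, q3⟩ := hball hd
    simp only at q1 q2 q3
    obtain ⟨t, -, ht2, ht3, ht4⟩ := hcov ξ⁻¹ (w / ξ ^ 3) (by
      rw [h.fg _ (inv_ne_zero q3), inv_inv, ← hw]; field_simp) q1 q2
    refine ⟨t, by simpa using lt_of_lt_of_le ht2 (min_le_right _ _),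
      lt_of_lt_of_le ht2 (min_le_left _ _), ?_, ?_⟩
    · simp [ht3]
    · rw [ht3, ht4]; field_simp

theorem trans_phi_pos (x y : ℂ) : 0 < phi x y := by
  unfold phi
  positivity

theorem trans_phi {x y : ℂ} (hx : x ≠ 0) : phi x y = ‖x‖ ^ 6 * phi x⁻¹ (y / x ^ 3) := by
  unfold phi
  have hx' : ‖x‖ ≠ 0 := norm_ne_zero_iff.2 hx
  simp only [norm_inv, norm_div, norm_pow]
  field_simp
  ring

theorem trans_cd_phi {X Y : ℂ → ℂ} {t : ℂ} (hX : AnalyticAt ℂ X t) (hY : AnalyticAt ℂ Y t) :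
    ContDiffAt ℝ 2 (fun s => (1 / 3) * Real.log (phi (X s) (Y s))) t := by
  have h1 : ContDiffAt ℝ 2 X t := (hX.contDiffAt (n := 2)).restrict_scalars ℝ
  have h2 : ContDiffAt ℝ 2 Y t := (hY.contDiffAt (n := 2)).restrict_scalars ℝ
  have h3 : ContDiffAt ℝ 2 (fun s => phi (X s) (Y s)) t := by
    unfold phi
    have e : ∀ s, (1 : ℝ) + ‖X s‖ ^ 2 + ‖X s‖ ^ 4 + ‖X s‖ ^ 6 + ‖Y s‖ ^ 2 =
        1 + ‖X s‖ ^ 2 + (‖X s‖ ^ 2) ^ 2 + (‖X s‖ ^ 2) ^ 3 + ‖Y s‖ ^ 2 := fun s => by ring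
    simp only [e]
    have a1 := h1.norm_sq (𝕜 := ℂ)
    have a2 := h2.norm_sq (𝕜 := ℂ)
    exact (((contDiffAt_const.add a1).add (a1.pow 2)).add (a1.pow 3)).add a2
  exact contDiffAt_const.mul (h3.log (trans_phi_pos _ _).ne')

/-- comparison of the densities on the two sides -/
theorem trans_V (h : TwoSided f g Uf Ug) (hv : IsV f Uf v) (hv' : IsV g Ug v') {x y : ℂ}
    (hx : x ≠ 0) (hy : y ^ 2 = f x) : v x y = v' x⁻¹ (y / x ^ 3) + 2 * Real.log ‖x‖ := by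
  obtain ⟨r, X, Y, k, hc⟩ := exists_chart h.df h.sf (P := (x, y)) hy
  have hcX : ContinuousAt X 0 :=
    (hc.hX.differentiableAt (isOpen_ball.mem_nhds (mem_ball_self hc.r_pos))).continuousAt
  have hX00 : X 0 ≠ 0 := by rw [hc.X0]; exact hx
  obtain ⟨r₁, hr₁, hX1⟩ := Metric.eventually_nhds_iff.1
    (hcX.eventually (isOpen_ne.mem_nhds hX00))
  have hr0 : 0 < min r r₁ := lt_min hc.r_pos hr₁
  have hX0 : ∀ t ∈ ball (0 : ℂ) (min r r₁), X t ≠ 0 := fun t ht =>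
    hX1 (lt_of_lt_of_le (mem_ball.1 ht) (min_le_right _ _))
  have hc' := trans_chart h hx hc hr0 (min_le_left _ _) hX0
  have m0 : (0 : ℂ) ∈ ball (0 : ℂ) r := mem_ball_self hc.r_pos
  have m0' : (0 : ℂ) ∈ ball (0 : ℂ) (min r r₁) := mem_ball_self hr0
  have v1 := hv.chart _ _ _ _ _ hc 0 m0
  have v2 := hv'.chart _ _ _ _ _ hc' 0 m0'
  have hXan : AnalyticAt ℂ X 0 := hc.hX.analyticAt (isOpen_ball.mem_nhds m0)
  have hX'an : AnalyticAt ℂ (fun t => (X t)⁻¹) 0 := hc'.hX.analyticAt (isOpen_ball.mem_nhds m0')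
  have hY'an : AnalyticAt ℂ (fun t => Y t / X t ^ 3) 0 :=
    hc'.hY.analyticAt (isOpen_ball.mem_nhds m0')
  have hcurve := hc'.isCurve h.sg
  have hrho : rhoC Uf X Y 0 = rhoC Ug (fun t => (X t)⁻¹) (fun t => Y t / X t ^ 3) 0 := by
    unfold rhoC
    congr 1
    obtain ⟨l1, l2⟩ := lap_log_norm hXan hX00
    have l1' : ContDiffAt ℝ 2 (fun s => Real.log ‖X s‖) 0 := l1.of_le (WithTop.coe_le_coe.2 le_top)
    have l3 : Δ (fun s => 2 * Real.log ‖X s‖) (0 : ℂ) = 0 := by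
      have := InnerProductSpace.laplacian_smul (2 : ℝ) l1'
      have e : ((2 : ℝ) • fun s => Real.log ‖X s‖) = fun s => 2 * Real.log ‖X s‖ := by
        ext s; simp
      rw [e] at this
      rw [this, l2]; simp
    have s1 : ContDiffAt ℝ 2 (fun s => (1 / 3) * Real.log (phi (X s)⁻¹ (Y s / X s ^ 3)) +
        Ug (X s)⁻¹ (Y s / X s ^ 3)) 0 := by
      refine (trans_cd_phi hX'an hY'an).add ?_
      have := (h.keg.smooth _ _ _ hcurve).contDiffAt (isOpen_ball.mem_nhds m0')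
      exact this.of_le (WithTop.coe_le_coe.2 le_top)
    have e1 : (fun s => (1 / 3) * Real.log (phi (X s) (Y s)) + Uf (X s) (Y s)) =ᶠ[𝓝 0]
        ((fun s => 2 * Real.log ‖X s‖) + fun s => ((1 / 3) * Real.log (phi (X s)⁻¹
          (Y s / X s ^ 3)) + Ug (X s)⁻¹ (Y s / X s ^ 3))) := by
      filter_upwards [isOpen_ball.mem_nhds m0'] with s hs
      have hXs := hX0 s hs
      have hXs' : ‖X s‖ ≠ 0 := norm_ne_zero_iff.2 hXs
      simp only [Pi.add_apply]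
      rw [trans_phi hXs, Real.log_mul (pow_ne_zero 6 hXs') (trans_phi_pos _ _).ne', Real.log_pow,
        h.uu _ _ hXs (hc.eqn s (ball_subset_ball (min_le_left _ _) hs))]
      push_cast
      ring
    rw [(InnerProductSpace.laplacian_congr_nhds e1).eq_of_nhds]
    rw [ContDiffAt.laplacian_add (contDiffAt_const.mul l1') s1, l3, zero_add]
  rw [hc.X0, hc.Y0] at v1
  simp only [hc.X0, hc.Y0] at v2
  rw [v1, v2, hrho]
  have k0 : ‖k 0‖ ≠ 0 := norm_ne_zero_iff.2 (hc.k_ne 0 m0)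
  rw [norm_neg, norm_mul, Real.log_mul k0 (norm_ne_zero_iff.2 hx)]
  ring

end MP_32c225_ag
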