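import Pool.Agent.Lib_MP_32c225_ag.VFacts
import Pool.Agent.Lib_MP_32c225_ag.Trans
import Pool.Agent.Lib_MP_32c225_ag.Glob

open scoped ComplexConjugate Topology ContDiff
open Laplacian Metric Set

namespace MP_32c225_ag

variable {f g : ℂ → ℂ} {Uf Ug : ℂ → ℂ → ℝ} {v v' ψ ψ' : ℂ → ℂ → ℝ}

/-- comparison at a minimum point, on one side -/
theorem compare_aux {U : ℂ → ℂ → ℝ} (hs : ∀ x, f x = 0 → deriv f x ≠ 0) (hU : KESide f U)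
    (hv : IsV f U v) {P : ℂ × ℂ} {r : ℝ} {X Y k : ℂ → ℂ} (hc : IsChart f P r X Y k)
    (hmin : ∀ Q ∈ Crv f, v P.1 P.2 - ψ P.1 P.2 ≤ v Q.1 Q.2 - ψ Q.1 Q.2)
    (cψ : ContDiffAt ℝ 2 (fun s => ψ (X s) (Y s)) 0)
    (lψ : Real.exp (ψ P.1 P.2) * ‖k 0‖ ^ 2 ≤ (1 / 2) * Δ (fun s => ψ (X s) (Y s)) 0) :
    ψ P.1 P.2 ≤ v P.1 P.2 := by
  have h0 : (0 : ℂ) ∈ ball (0 : ℂ) r := mem_ball_self hc.r_pos
  have hm : IsLocalMin (fun s => v (X s) (Y s) - ψ (X s) (Y s)) 0 := by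
    filter_upwards [ball_mem_nhds (0 : ℂ) hc.r_pos] with t ht
    have := hmin (X t, Y t) (hc.eqn t ht)
    simpa [hc.X0, hc.Y0] using this
  obtain ⟨cv, lv⟩ := lap_V hs hU hv hc h0
  have hΔ := lap_nonneg_of_isLocalMin (cv.sub cψ) hm
  have hsub : Δ (fun s => v (X s) (Y s) - ψ (X s) (Y s)) 0 =
      Δ (fun s => v (X s) (Y s)) 0 - Δ (fun s => ψ (X s) (Y s)) 0 := by
    have := cv.laplacian_sub cψ
    exact this
  rw [hsub] at hΔ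
  rw [hc.X0, hc.Y0] at lv
  have hk : 0 < ‖k 0‖ ^ 2 := by
    have := norm_pos_iff.mpr (hc.k_ne 0 h0)
    positivity
  have h3 : Real.exp (ψ P.1 P.2) * ‖k 0‖ ^ 2 ≤ Real.exp (v P.1 P.2) * ‖k 0‖ ^ 2 := by
    linarith
  exact Real.exp_le_exp.mp (le_of_mul_le_mul_right h3 hk)

/-- comparison with a subsolution -/
theorem compare (H : TwoSided f g Uf Ug) (hv : IsV f Uf v) (hv' : IsV g Ug v')
    (cf : ContinuousOn (fun P : ℂ × ℂ => ψ P.1 P.2) (Crv f))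
    (cg : ContinuousOn (fun P : ℂ × ℂ => ψ' P.1 P.2) (Crv g))
    (hψ : ∀ x y, x ≠ 0 → y ^ 2 = f x → ψ x y = ψ' x⁻¹ (y / x ^ 3) + 2 * Real.log ‖x‖)
    (Hf : ∀ P r X Y k, IsChart f P r X Y k → ContDiffAt ℝ 2 (fun s => ψ (X s) (Y s)) 0 ∧
      Real.exp (ψ P.1 P.2) * ‖k 0‖ ^ 2 ≤ (1 / 2) * Δ (fun s => ψ (X s) (Y s)) 0)
    (Hg : ∀ r X Y k, IsChart g (0, 0) r X Y k → ContDiffAt ℝ 2 (fun s => ψ' (X s) (Y s)) 0 ∧
      Real.exp (ψ' 0 0) * ‖k 0‖ ^ 2 ≤ (1 / 2) * Δ (fun s => ψ' (X s) (Y s)) 0) :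
    ∀ Q ∈ Crv f, ψ Q.1 Q.2 ≤ v Q.1 Q.2 := by
  have G : Glued f g (fun x y => v x y - ψ x y) (fun x y => v' x y - ψ' x y) := by
    refine ⟨(cont_V H.df H.sf H.kef hv).sub cf, (cont_V H.dg H.sg H.keg hv').sub cg, ?_⟩
    intro x y hx hy
    show v x y - ψ x y = v' x⁻¹ (y / x ^ 3) - ψ' x⁻¹ (y / x ^ 3)
    rw [trans_V H hv hv' hx hy, hψ x y hx hy]
    ring
  rcases exists_min H G with ⟨P, hP, h1, h2⟩ | ⟨h1, h2⟩
  · obtain ⟨r, X, Y, k, hc⟩ := exists_chart H.df H.sf hP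
    obtain ⟨cψ, lψ⟩ := Hf P r X Y k hc
    have h4 := compare_aux H.sf H.kef hv hc h1 cψ lψ
    intro Q hQ
    have h5 := h1 Q hQ
    linarith
  · have hP : ((0, 0) : ℂ × ℂ) ∈ Crv g := by
      show (0 : ℂ) ^ 2 = g 0
      rw [H.g0]; simp
    obtain ⟨r, X, Y, k, hc⟩ := exists_chart H.dg H.sg hP
    obtain ⟨cψ, lψ⟩ := Hg r X Y k hc
    have h4 := compare_aux (ψ := ψ') H.sg H.keg hv' hc h2 cψ lψ
    intro Q hQ
    have h5 := h1 Q hQ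
    simp only at h4
    linarith

end MP_32c225_ag
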