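import Pool.Agent.Lib_MP_32c225_ag.Lap

open scoped ComplexConjugate Topology ContDiff
open Laplacian Metric Set

namespace MP_32c225_ag

/-- the vector `(1, x, x², x³, y)` -/
noncomputable def curvVec (x y : ℂ) : Fin 5 → ℂ := ![1, x, x ^ 2, x ^ 3, y]

/-- its derivative along the field `k (y ∂x + (d/2) ∂y)` -/
noncomputable def curvVec' (x y d k : ℂ) : Fin 5 → ℂ :=
  ![0, k * y, 2 * x * (k * y), 3 * x ^ 2 * (k * y), k * (d / 2)]

/-- the weights -/
noncomputable def curvWt (m β : ℝ) : Fin 5 → ℝ := ![m ^ 3, 3 * m ^ 2, 3 * m, 1, β]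

theorem curv_norm_sq_cast (z : ℂ) : ((‖z‖ : ℂ)) ^ 2 = z * conj z := by
  rw [Complex.mul_conj, Complex.normSq_eq_norm_sq]
  push_cast
  rfl

theorem curv_sum1 (m β : ℝ) (x y : ℂ) :
    ∑ i, curvWt m β i * ‖curvVec x y i‖ ^ 2 = (m + ‖x‖ ^ 2) ^ 3 + β * ‖y‖ ^ 2 := by
  simp only [curvWt, curvVec, Fin.sum_univ_five, Matrix.cons_val, norm_pow, norm_one]
  ring

theorem curv_key (m β : ℝ) (x y d k : ℂ) :
    (∑ i, curvWt m β i * ‖curvVec x y i‖ ^ 2) * (∑ i, curvWt m β i * ‖curvVec' x y d k i‖ ^ 2) -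
      ‖∑ i, (curvWt m β i : ℂ) * (conj (curvVec x y i) * curvVec' x y d k i)‖ ^ 2 =
    ‖k‖ ^ 2 * curvN m β x y d := by
  have h : (((∑ i, curvWt m β i * ‖curvVec x y i‖ ^ 2) *
      (∑ i, curvWt m β i * ‖curvVec' x y d k i‖ ^ 2) -
      ‖∑ i, (curvWt m β i : ℂ) * (conj (curvVec x y i) * curvVec' x y d k i)‖ ^ 2 : ℝ) : ℂ) =
    ((‖k‖ ^ 2 * curvN m β x y d : ℝ) : ℂ) := by
    simp only [curvWt, curvVec, curvVec', curvN, Fin.sum_univ_five, Matrix.cons_val]
    push_cast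
    simp only [curv_norm_sq_cast, map_add, map_mul, map_sub, map_pow, map_one, map_zero, map_div₀,
      Complex.conj_conj, Complex.conj_ofReal, map_ofNat,
      show ∀ z : ℂ, ((‖z‖ : ℂ)) ^ 4 = (z * conj z) ^ 2 from fun z => by
        rw [← curv_norm_sq_cast]; ring]
    ring
  exact_mod_cast h

theorem lap_Lg {f : ℂ → ℂ} {P : ℂ × ℂ} {r : ℝ} {X Y k : ℂ → ℂ} (hc : IsChart f P r X Y k)
    {m β : ℝ} (hm : 0 < m) (hβ : 0 < β) :
    ContDiffAt ℝ 2 (fun s => Lg m β (X s) (Y s)) 0 ∧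
      (1 / 2) * Δ (fun s => Lg m β (X s) (Y s)) 0 =
        ‖k 0‖ ^ 2 * curv m β P.1 P.2 (deriv f P.1) := by
  have h0 : (0 : ℂ) ∈ ball (0 : ℂ) r := mem_ball_self hc.r_pos
  have hb : ball (0 : ℂ) r ∈ 𝓝 (0 : ℂ) := isOpen_ball.mem_nhds h0
  have hXa : AnalyticAt ℂ X 0 := hc.hX.analyticAt hb
  have hYa : AnalyticAt ℂ Y 0 := hc.hY.analyticAt hb
  have hX' : HasDerivAt X (k 0 * Y 0) 0 := by
    have := hXa.differentiableAt.hasDerivAt
    rwa [hc.dX 0 h0] at this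
  have hY' : HasDerivAt Y (k 0 * (deriv f (X 0) / 2)) 0 := by
    have := hYa.differentiableAt.hasDerivAt
    rwa [hc.dY 0 h0] at this
  set γ : ℂ → Fin 5 → ℂ := fun s => curvVec (X s) (Y s) with hγdef
  have hγa : AnalyticAt ℂ γ 0 := by
    rw [analyticAt_pi_iff]
    intro i
    fin_cases i
    · simpa [hγdef, curvVec] using analyticAt_const
    · simpa [hγdef, curvVec] using hXa
    · exact hXa.fun_pow 2
    · exact hXa.fun_pow 3
    · simpa [hγdef, curvVec] using hYa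
  have hγ0 : γ 0 ≠ 0 := by
    intro h
    have := congrFun h 0
    simp [hγdef, curvVec] at this
  have hγ' : deriv γ 0 = curvVec' (X 0) (Y 0) (deriv f (X 0)) (k 0) := by
    apply HasDerivAt.deriv
    rw [hasDerivAt_pi]
    intro i
    fin_cases i
    · simpa [hγdef, curvVec, curvVec'] using hasDerivAt_const (0 : ℂ) (1 : ℂ)
    · simpa [hγdef, curvVec, curvVec'] using hX'
    · have := hX'.fun_pow 2
      simpa [hγdef, curvVec, curvVec'] using this
    · have := hX'.fun_pow 3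
      simpa [hγdef, curvVec, curvVec'] using this
    · simpa [hγdef, curvVec, curvVec'] using hY'
  have hw : ∀ i, 0 < curvWt m β i := by
    intro i
    fin_cases i
    · simp [curvWt]; positivity
    · simp [curvWt]; positivity
    · simp [curvWt]; positivity
    · simp [curvWt]
    · simpa [curvWt] using hβ
  obtain ⟨h1, h2⟩ := lap_log_sq (curvWt m β) hw hγa hγ0
  have hfun : (fun s => Real.log (∑ i, curvWt m β i * ‖γ s i‖ ^ 2)) =
      fun s => Lg m β (X s) (Y s) := by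
    funext s
    rw [Lg, ← curv_sum1]
  rw [hfun] at h1 h2
  refine ⟨h1.of_le (by norm_cast), ?_⟩
  rw [h2, hγ']
  have e1 : γ 0 = curvVec P.1 P.2 := by simp [hγdef, hc.X0, hc.Y0]
  rw [e1, hc.X0, hc.Y0, curv_key, curv_sum1, curv]
  ring

end MP_32c225_ag
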