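import Mathlib

/-!
# MP_32c225_ag: definitions

The family of genus two curves `y² = x (x - 1) (x - a) (x - b) (x - c)`, its tricanonical embedding
in `ℙ⁴`, Kähler-Einstein potentials and the Fubini-Study area.
-/

open scoped ComplexConjugate Topology ContDiff LinearAlgebra.Projectivization ENNReal
open Laplacian MeasureTheory

noncomputable section

namespace MP_32c225_ag

/-- The base of the family: triples of pairwise distinct points of `ℂ ∖ {0, 1}`.  It is the moduli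
space of curves of genus two with an ordering of the six Weierstrass points (which are moved to
`0, 1, a, b, c, ∞`), a finite cover of the moduli space of curves of genus two. -/
def Base : Set (ℂ × ℂ × ℂ) :=
  {z | z.1 ≠ 0 ∧ z.1 ≠ 1 ∧ z.2.1 ≠ 0 ∧ z.2.1 ≠ 1 ∧ z.2.2 ≠ 0 ∧ z.2.2 ≠ 1 ∧
    z.1 ≠ z.2.1 ∧ z.1 ≠ z.2.2 ∧ z.2.1 ≠ z.2.2}

/-- The binary sextic `p q (q - p) (q - a p) (q - b p) (q - c p)`; its value at `(1, x)` is
`x (x - 1) (x - a) (x - b) (x - c)`. -/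
def sextic (z : ℂ × ℂ × ℂ) (p q : ℂ) : ℂ :=
  p * q * (q - p) * (q - z.1 * p) * (q - z.2.1 * p) * (q - z.2.2 * p)

/-- The vector `(p³, p² q, p q², q³, w)` of `ℂ⁵`. -/
def vec (p q w : ℂ) : Fin 5 → ℂ := ![p ^ 3, p ^ 2 * q, p * q ^ 2, q ^ 3, w]

/-- The curve `Y_z` of genus two, tricanonically embedded in `ℙ⁴`: the set of all points
`[p³ : p² q : p q² : q³ : w]` with `w² = p q (q - p) (q - a p) (q - b p) (q - c p)`.  In the affine
coordinates `x = q / p`, `y = w / p³` this is the curve `y² = x (x - 1) (x - a) (x - b) (x - c)`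
embedded by `[1 : x : x² : x³ : y]`, that is, by the basis `x^i (dx/y)³` (`i = 0, 1, 2, 3`),
`y (dx/y)³` of `H⁰(Y_z, 3K)`; there is one more point, `[0 : 0 : 0 : 1 : 0]`. -/
def Curve (z : ℂ × ℂ × ℂ) : Set (ℙ ℂ (Fin 5 → ℂ)) :=
  {P | ∃ (p q w : ℂ) (h : vec p q w ≠ 0), w ^ 2 = sextic z p q ∧ P = .mk ℂ (vec p q w) h}

/-- `γ` is (the lift to `ℂ⁵ ∖ 0` of) a holomorphic immersion of the open set `U ⊆ ℂ` into `ℙ⁴` with
values in the curve `Y_z`, that is, a holomorphic local parametrisation of `Y_z`. -/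
structure IsParam (z : ℂ × ℂ × ℂ) (U : Set ℂ) (γ : ℂ → Fin 5 → ℂ) : Prop where
  isOpen : IsOpen U
  holo : DifferentiableOn ℂ γ U
  mem : ∀ t ∈ U, ∃ h : γ t ≠ 0, Projectivization.mk ℂ (γ t) h ∈ Curve z
  immersive : ∀ t ∈ U, LinearIndependent ℂ ![γ t, deriv γ t]

open Classical in
/-- The function on `ℂ⁵ ∖ 0` induced by a function on `ℙ⁴` (with value `0` at `0`). -/
def onLift (u : ℙ ℂ (Fin 5 → ℂ) → ℝ) (v : Fin 5 → ℂ) : ℝ :=
  if h : v = 0 then 0 else u (.mk ℂ v h)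

/-- The squared hermitian norm on `ℂ⁵`. -/
def sqNorm (v : Fin 5 → ℂ) : ℝ := ∑ i, ‖v i‖ ^ 2

/-- The density `ρ` of `(1/3) ω_FS + i ∂∂̄ u = ρ · (i/2) dt ∧ dt̄` in the local parametrisation `γ`
with parameter `t`.  Here `ω_FS = i ∂∂̄ log |v|²` is the Fubini-Study form of `ℙ⁴` and
`i ∂∂̄ h = (1/2) Δh · (i/2) dt ∧ dt̄`. -/
def density (u : ℙ ℂ (Fin 5 → ℂ) → ℝ) (γ : ℂ → Fin 5 → ℂ) (t : ℂ) : ℝ :=
  (1 / 2) * Δ (fun s => (1 / 3) * Real.log (sqNorm (γ s)) + onLift u (γ s)) t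

/-- `u` is a Kähler-Einstein potential of `Y_z`: it is smooth on `Y_z`,
`ω = (1/3) ω_FS + i ∂∂̄ u` is a Kähler form on `Y_z` and `Ric ω = - ω`.  (For
`ω = ρ (i/2) dt ∧ dt̄` one has `Ric ω = - i ∂∂̄ log ρ = - (1/2) Δ (log ρ) (i/2) dt ∧ dt̄`.) -/
structure IsKEPotential (z : ℂ × ℂ × ℂ) (u : ℙ ℂ (Fin 5 → ℂ) → ℝ) : Prop where
  smooth : ∀ U γ, IsParam z U γ → ContDiffOn ℝ ∞ (fun t => onLift u (γ t)) U
  pos : ∀ U γ, IsParam z U γ → ∀ t ∈ U, 0 < density u γ t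
  einstein : ∀ U γ, IsParam z U γ → ∀ t ∈ U,
    (1 / 2) * Δ (fun s => Real.log (density u γ s)) t = density u γ t

/-- The density of the pull back of `ω_FS = i ∂∂̄ log |v|²` to a holomorphic curve through the
point `v` of `ℂ⁵ ∖ 0` with velocity `v'`: it is
`2 (|v|² |v'|² - |⟨v, v'⟩|²) / |v|⁴` (with respect to `(i/2) dt ∧ dt̄`). -/
def fsDensity (v v' : Fin 5 → ℂ) : ℝ :=
  2 * (sqNorm v * sqNorm v' - ‖∑ i, conj (v i) * v' i‖ ^ 2) / sqNorm v ^ 2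

theorem vec_one_ne (x y : ℂ) : vec 1 x y ≠ 0 := by
  intro h
  have := congrFun h 0
  simp [vec] at this

/-- The point `[1 : x : x² : x³ : y]` of `ℙ⁴`. -/
def pt (x y : ℂ) : ℙ ℂ (Fin 5 → ℂ) := .mk ℂ (vec 1 x y) (vec_one_ne x y)

/-- The Fubini-Study area `∫_E ω_FS` of a subset `E` of `Y_z`.  All points of `Y_z` but one are of
the form `[1 : x : x² : x³ : y]` with `y² = f(x) = x (x - 1) (x - a) (x - b) (x - c)`, and `x` is a
local coordinate at all of them with `y ≠ 0`; in this coordinate the velocity of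
`(1, x, x², x³, y)` is `(0, 1, 2x, 3x², f'(x) / (2y))`. -/
def vol (z : ℂ × ℂ × ℂ) (E : Set (ℙ ℂ (Fin 5 → ℂ))) : ℝ≥0∞ :=
  ∫⁻ x : ℂ, ∑' y : {y : ℂ // y ^ 2 = sextic z 1 x},
    E.indicator (fun _ => ENNReal.ofReal (fsDensity (vec 1 x y)
      ![0, 1, 2 * x, 3 * x ^ 2, deriv (sextic z 1) x / (2 * y)])) (pt x y)

/-- The negative answer: for all `C, α > 0` there are a point `z` of the base and `s > 0` such
that the Kähler-Einstein potential `u` of `Y_z` with `sup u = 0` satisfies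
`Vol {u < -s} > C e^{-α s}`. -/
def Answer : Prop :=
  ∀ C > 0, ∀ α > 0, ∃ z ∈ Base, ∃ s > 0, ∀ u : ℙ ℂ (Fin 5 → ℂ) → ℝ,
    IsKEPotential z u → IsLUB (u '' Curve z) 0 →
      ENNReal.ofReal (C * Real.exp (-(α * s))) < vol z {P | P ∈ Curve z ∧ u P < -s}

end MP_32c225_ag
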