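import Pool.Agent.Lib_MP_32c225_ag.Lap
import Pool.Agent.Lib_MP_32c225_ag.Chart
import Pool.Agent.Lib_MP_32c225_ag.Glob

open scoped ComplexConjugate Topology ContDiff
open Laplacian Metric Set

namespace MP_32c225_ag

variable {f g : ℂ → ℂ} {Uf Ug : ℂ → ℂ → ℝ} {h h' : ℂ → ℂ → ℝ}

/-- the first coordinate of a chart is an open map at the centre -/
theorem harm_open {P : ℂ × ℂ} {r : ℝ} {X Y k : ℂ → ℂ} (hc : IsChart f P r X Y k) :
    𝓝 (X 0) ≤ Filter.map X (𝓝 0) := by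
  have hb : ball (0 : ℂ) r ∈ 𝓝 (0 : ℂ) := ball_mem_nhds _ hc.r_pos
  have hX : AnalyticAt ℂ X 0 := hc.hX.analyticAt hb
  rcases hX.eventually_constant_or_nhds_le_map_nhds with h1 | h1
  · exfalso
    have h2 : ∀ᶠ t in 𝓝 (0 : ℂ), deriv X t = 0 := by
      have h3 := h1.eventually_nhds
      filter_upwards [h3] with t ht
      have h4 : X =ᶠ[𝓝 t] fun _ => X 0 := ht
      rw [h4.deriv_eq]
      simp
    have h5 : ∀ᶠ t in 𝓝[≠] (0 : ℂ), False := by
      have h6 : ∀ᶠ t in 𝓝[≠] (0 : ℂ), t ≠ 0 := eventually_mem_nhdsWithin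
      have h7 : ∀ᶠ t in 𝓝[≠] (0 : ℂ), t ∈ ball (0 : ℂ) r :=
        nhdsWithin_le_nhds hb
      have h8 : ∀ᶠ t in 𝓝[≠] (0 : ℂ), deriv X t = 0 := nhdsWithin_le_nhds h2
      filter_upwards [h6, h7, h8] with t ht1 ht2 ht3
      rw [hc.dX t ht2] at ht3
      rcases mul_eq_zero.1 ht3 with h9 | h9
      · exact hc.k_ne t ht2 h9
      · exact hc.Y_ne t ht2 ht1 h9
    exact (h5.exists).elim fun _ h => h
  · exact h1

/-- if the minimum is attained at the centre of a chart, then it is attained over a neighbourhood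
of the centre in the base -/
theorem harm_nhds {m : ℝ} {P : ℂ × ℂ} {r : ℝ} {X Y k : ℂ → ℂ} (hc : IsChart f P r X Y k)
    (hL : ∀ t ∈ ball (0 : ℂ) r,
      ContDiffAt ℝ 2 (fun s => h (X s) (Y s)) t ∧ Δ (fun s => h (X s) (Y s)) t = 0)
    (hP : h P.1 P.2 = m) (hm : ∀ Q ∈ Crv f, m ≤ h Q.1 Q.2) :
    {x : ℂ | ∃ y, y ^ 2 = f x ∧ h x y = m} ∈ 𝓝 P.1 := by
  have hb : ball (0 : ℂ) r ∈ 𝓝 (0 : ℂ) := ball_mem_nhds _ hc.r_pos
  have h0 : h (X 0) (Y 0) = m := by rw [hc.X0, hc.Y0, hP]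
  have hmin : IsLocalMin (fun s => h (X s) (Y s)) 0 := by
    filter_upwards [hb] with t ht
    have := hm (X t, Y t) (hc.eqn t ht)
    simp only [h0]
    exact this
  have hev : ∀ᶠ s in 𝓝 (0 : ℂ), ContDiffAt ℝ 2 (fun s => h (X s) (Y s)) s ∧
      Δ (fun s => h (X s) (Y s)) s = 0 := by
    filter_upwards [hb] with t ht
    exact hL t ht
  have hconst := eventually_const_of_min hev hmin
  have hset : {t : ℂ | t ∈ ball (0 : ℂ) r ∧ h (X t) (Y t) = m} ∈ 𝓝 (0 : ℂ) := by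
    filter_upwards [hb, hconst] with t ht1 ht2
    refine ⟨ht1, ?_⟩
    rw [← h0]
    exact ht2
  have himg := Filter.image_mem_map (m := X) hset
  have h1 := harm_open hc himg
  rw [hc.X0] at h1
  refine Filter.mem_of_superset h1 ?_
  rintro _ ⟨t, ⟨ht1, ht2⟩, rfl⟩
  exact ⟨Y t, hc.eqn t ht1, ht2⟩

/-- a harmonic function on the compact curve attains its minimum at the branch point `(0, 0)` -/
theorem harm_min (H : TwoSided f g Uf Ug) (hh : Glued f g h h')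
    (Hf : ∀ P r X Y k, IsChart f P r X Y k → ∀ t ∈ ball (0 : ℂ) r,
      ContDiffAt ℝ 2 (fun s => h (X s) (Y s)) t ∧ Δ (fun s => h (X s) (Y s)) t = 0)
    (Hg : ∀ P r X Y k, IsChart g P r X Y k → ∀ t ∈ ball (0 : ℂ) r,
      ContDiffAt ℝ 2 (fun s => h' (X s) (Y s)) t ∧ Δ (fun s => h' (X s) (Y s)) t = 0) :
    ∀ Q ∈ Crv f, h 0 0 ≤ h Q.1 Q.2 := by
  -- the minimum `m`
  obtain ⟨m, hmf, hne⟩ : ∃ m : ℝ, (∀ Q ∈ Crv f, m ≤ h Q.1 Q.2) ∧
      ({x : ℂ | ∃ y, y ^ 2 = f x ∧ h x y = m}).Nonempty := by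
    rcases exists_min H hh with ⟨P, hP, h1, h2⟩ | ⟨h1, h2⟩
    · exact ⟨h P.1 P.2, h1, P.1, P.2, hP, rfl⟩
    · refine ⟨h' 0 0, h1, ?_⟩
      have h0 : ((0 : ℂ), (0 : ℂ)) ∈ Crv g := by
        show (0 : ℂ) ^ 2 = g 0
        rw [H.g0]; norm_num
      obtain ⟨r, X, Y, k, hc⟩ := exists_chart H.dg H.sg h0
      have h3 := harm_nhds (m := h' 0 0) hc (Hg _ _ _ _ _ hc) rfl h2
      -- a point different from zero
      have h4 : ∀ᶠ x in 𝓝[≠] (0 : ℂ), x ≠ 0 := eventually_mem_nhdsWithin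
      have h5 : ∀ᶠ x in 𝓝[≠] (0 : ℂ), x ∈ {x : ℂ | ∃ y, y ^ 2 = g x ∧ h' x y = h' 0 0} :=
        nhdsWithin_le_nhds h3
      obtain ⟨x, hx0, y, hy, hxy⟩ := (h4.and h5).exists
      have hfx : (y / x ^ 3) ^ 2 = f x⁻¹ := by
        rw [H.fg x⁻¹ (inv_ne_zero hx0), inv_inv, ← hy]
        field_simp
      refine ⟨x⁻¹, y / x ^ 3, hfx, ?_⟩
      rw [hh.eq x⁻¹ (y / x ^ 3) (inv_ne_zero hx0) hfx, inv_inv]
      have : y / x ^ 3 / x⁻¹ ^ 3 = y := by field_simp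
      rw [this, hxy]
  set S : Set ℂ := {x : ℂ | ∃ y, y ^ 2 = f x ∧ h x y = m} with hS
  have hopen : IsOpen S := by
    rw [isOpen_iff_mem_nhds]
    rintro x ⟨y, hy, hxy⟩
    have hP : ((x, y) : ℂ × ℂ) ∈ Crv f := hy
    obtain ⟨r, X, Y, k, hc⟩ := exists_chart H.df H.sf hP
    exact harm_nhds hc (Hf _ _ _ _ _ hc) hxy hmf
  have hclosed : IsClosed S := by
    rw [← isSeqClosed_iff_isClosed]
    intro u x hu hx
    choose y hy1 hy2 using hu
    have hfc : Continuous f := H.df.continuous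
    have hfu : Filter.Tendsto (fun n => f (u n)) Filter.atTop (𝓝 (f x)) :=
      (hfc.tendsto x).comp hx
    obtain ⟨C, hC⟩ := (Metric.isBounded_range_of_tendsto _ hfu).exists_norm_le
    have hyb : ∀ n, y n ∈ closedBall (0 : ℂ) (1 + C) := by
      intro n
      rw [mem_closedBall_zero_iff]
      have h1 : ‖y n‖ ^ 2 ≤ C := by
        rw [← norm_pow, hy1]
        exact hC _ (mem_range_self n)
      nlinarith [norm_nonneg (y n), sq_nonneg (‖y n‖ - 1)]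
    obtain ⟨y0, -, φ, hφ, hlim⟩ := (isCompact_closedBall (0 : ℂ) (1 + C)).tendsto_subseq hyb
    have hx' : Filter.Tendsto (fun n => u (φ n)) Filter.atTop (𝓝 x) := hx.comp hφ.tendsto_atTop
    have hy0 : y0 ^ 2 = f x := by
      have h1 : Filter.Tendsto (fun n => y (φ n) ^ 2) Filter.atTop (𝓝 (y0 ^ 2)) := hlim.pow 2
      have h2 : Filter.Tendsto (fun n => y (φ n) ^ 2) Filter.atTop (𝓝 (f x)) := by
        have h3 : (fun n => y (φ n) ^ 2) = fun n => f (u (φ n)) := by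
          funext n; exact hy1 _
        rw [h3]
        exact hfu.comp hφ.tendsto_atTop
      exact tendsto_nhds_unique h1 h2
    refine ⟨y0, hy0, ?_⟩
    have hcw := hh.cf (x, y0) hy0
    have h4 : Filter.Tendsto (fun n => ((u (φ n), y (φ n)) : ℂ × ℂ)) Filter.atTop
        (𝓝[Crv f] (x, y0)) := by
      refine tendsto_nhdsWithin_iff.2 ⟨hx'.prodMk_nhds hlim, Filter.Eventually.of_forall ?_⟩
      intro n
      exact hy1 _
    have h5 := hcw.tendsto.comp h4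
    have h6 : (fun n => m) = (fun P : ℂ × ℂ => h P.1 P.2) ∘ fun n => ((u (φ n), y (φ n)) : ℂ × ℂ) := by
      funext n
      exact (hy2 _).symm
    rw [← h6] at h5
    exact tendsto_nhds_unique h5 tendsto_const_nhds
  have huniv : S = univ := IsClopen.eq_univ ⟨hclosed, hopen⟩ hne
  have h0 : (0 : ℂ) ∈ S := by rw [huniv]; trivial
  obtain ⟨y, hy, hm⟩ := h0
  rw [H.f0] at hy
  have hy0 : y = 0 := by
    exact pow_eq_zero_iff (two_ne_zero) |>.1 hy
  rw [hy0] at hm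
  intro Q hQ
  rw [hm]
  exact hmf Q hQ

end MP_32c225_ag
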