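import Pool.Agent.Lib_MP_32c225_ag.IneqLow

open Metric Set

namespace MP_32c225_ag

namespace IneqAux

theorem norm_sq_le {μ : ℝ} (hμ : 0 ≤ μ) {x y : ℂ} (h : y ^ 2 = fP μ x) :
    ‖y‖ ^ 2 ≤ ‖x‖ * (‖x‖ + 1) * (‖x‖ ^ 3 + μ ^ 12) := by
  have h1 : ‖y‖ ^ 2 = ‖x‖ * ‖x - 1‖ * ‖x ^ 3 - (μ : ℂ) ^ 12‖ := by
    rw [← norm_pow, h, fP, norm_mul, norm_mul]
  rw [h1]
  have h2 : ‖x - 1‖ ≤ ‖x‖ + 1 := by
    calc ‖x - 1‖ ≤ ‖x‖ + ‖(1 : ℂ)‖ := norm_sub_le _ _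
      _ = ‖x‖ + 1 := by rw [norm_one]
  have h3 : ‖x ^ 3 - (μ : ℂ) ^ 12‖ ≤ ‖x‖ ^ 3 + μ ^ 12 := by
    calc ‖x ^ 3 - (μ : ℂ) ^ 12‖ ≤ ‖x ^ 3‖ + ‖(μ : ℂ) ^ 12‖ := norm_sub_le _ _
      _ = ‖x‖ ^ 3 + μ ^ 12 := by
        rw [norm_pow, norm_pow, Complex.norm_real, Real.norm_of_nonneg hμ]
  gcongr

theorem exp_le_of_le_log {p q : ℝ} (hq : 0 < q) (h : p ≤ Real.log q) : Real.exp p ≤ q :=
  (Real.le_log_iff_exp_le hq).1 h

end IneqAux

open IneqAux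

theorem ineqF : ∃ c₀ μ₀ : ℝ, 1 ≤ μ₀ ∧ ∀ μ ≥ μ₀, ∀ x y : ℂ, y ^ 2 = fP μ x →
    Real.exp (psiF c₀ μ x y) ≤ (1 / 12) * curv 1 (μ ^ 12)⁻¹ x y (deriv (fP μ) x) +
      (1 / 4) * curv (μ ^ 8) (μ ^ 4) x y (deriv (fP μ) x) := by
  obtain ⟨c₁, hc₁, μ₁, hμ₁, H⟩ := ineq_low
  refine ⟨Real.log (c₁ / 2400), max μ₁ 2, le_max_of_le_left hμ₁, fun μ hμ x y hxy => ?_⟩
  have hμa : μ₁ ≤ μ := (le_max_left _ _).trans hμ
  have hμ2 : 2 ≤ μ := (le_max_right _ _).trans hμ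
  have hμpos : 0 < μ := by linarith
  have hμ1 : 1 ≤ μ := by linarith
  obtain ⟨h1, h2, h3⟩ := H μ hμa x y hxy
  have hC1 : 0 ≤ curv 1 (μ ^ 12)⁻¹ x y (deriv (fP μ) x) :=
    curv_nonneg zero_le_one (by positivity) x y _
  have hC2 : 0 ≤ curv (μ ^ 8) (μ ^ 4) x y (deriv (fP μ) x) :=
    curv_nonneg (by positivity) (by positivity) x y _
  have hy := norm_sq_le hμpos.le hxy
  set r := ‖x‖ with hr
  have hr0 : 0 ≤ r := norm_nonneg x
  set L := Real.log μ with hL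
  have hL0 : 0 ≤ L := Real.log_nonneg hμ1
  have hlog : Real.log (c₁ / 2400) + Real.log 200 = Real.log (c₁ / 12) := by
    rw [← Real.log_mul (by positivity) (by norm_num)]
    congr 1
    ring
  have h200 : 0 ≤ Real.log 200 := Real.log_nonneg (by norm_num)
  have hpow : ∀ n : ℕ, Real.log (μ ^ n) = n * L := fun n => by rw [Real.log_pow]
  -- positivity of the two arguments
  have hp1 : 0 < (1 + r ^ 2) ^ 3 + (μ ^ 12)⁻¹ * ‖y‖ ^ 2 := by positivity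
  have hp2 : 0 < (μ ^ 8 + r ^ 2) ^ 3 + μ ^ 4 * ‖y‖ ^ 2 := by positivity
  have hpsi : psiF (Real.log (c₁ / 2400)) μ x y = Real.log (c₁ / 2400) + 7 * L +
      (1 / 12) * Real.log ((1 + r ^ 2) ^ 3 + (μ ^ 12)⁻¹ * ‖y‖ ^ 2) +
      (1 / 4) * (Real.log ((μ ^ 8 + r ^ 2) ^ 3 + μ ^ 4 * ‖y‖ ^ 2) - 24 * L) := rfl
  rw [hpsi]
  have hinv : (μ ^ 12)⁻¹ ≤ 1 := inv_le_one_of_one_le₀ (one_le_pow₀ hμ1)
  have hinv0 : 0 ≤ (μ ^ 12)⁻¹ := by positivity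
  have hinvm : (μ ^ 12)⁻¹ * μ ^ 12 = 1 := inv_mul_cancel₀ (by positivity)
  have hmu8 : 1 ≤ μ ^ 8 := one_le_pow₀ hμ1
  have hmu4 : 1 ≤ μ ^ 4 := one_le_pow₀ hμ1
  have hmu12 : 1 ≤ μ ^ 12 := one_le_pow₀ hμ1
  rcases le_or_gt r 2 with hr2 | hr2
  · -- region one
    have hy' : ‖y‖ ^ 2 ≤ 54 * μ ^ 12 := by
      refine hy.trans ?_
      calc r * (r + 1) * (r ^ 3 + μ ^ 12) ≤ 2 * (2 + 1) * (2 ^ 3 + μ ^ 12) := by gcongr
        _ ≤ 54 * μ ^ 12 := by nlinarith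
    have b1 : (1 + r ^ 2) ^ 3 + (μ ^ 12)⁻¹ * ‖y‖ ^ 2 ≤ 200 := by
      have e1 : (1 + r ^ 2) ^ 3 ≤ (1 + 2 ^ 2) ^ 3 := by gcongr
      have e2 : (μ ^ 12)⁻¹ * ‖y‖ ^ 2 ≤ (μ ^ 12)⁻¹ * (54 * μ ^ 12) := by gcongr
      have e3 : (μ ^ 12)⁻¹ * (54 * μ ^ 12) = 54 := by
        rw [mul_left_comm, hinvm, mul_one]
      linarith
    have b2 : (μ ^ 8 + r ^ 2) ^ 3 + μ ^ 4 * ‖y‖ ^ 2 ≤ 200 * μ ^ 24 := by
      have e1 : (μ ^ 8 + r ^ 2) ^ 3 ≤ (5 * μ ^ 8) ^ 3 := by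
        have : μ ^ 8 + r ^ 2 ≤ 5 * μ ^ 8 := by nlinarith
        gcongr
      have e2 : μ ^ 4 * ‖y‖ ^ 2 ≤ μ ^ 4 * (54 * μ ^ 12) := by gcongr
      have e3 : μ ^ 4 * (54 * μ ^ 12) ≤ 54 * μ ^ 24 := by
        have : μ ^ 16 ≤ μ ^ 24 := pow_le_pow_right₀ hμ1 (by norm_num)
        nlinarith
      have e4 : (5 * μ ^ 8) ^ 3 = 125 * μ ^ 24 := by ring
      have e5 : 0 ≤ μ ^ 24 := by positivity
      linarith
    have l1 := Real.log_le_log hp1 b1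
    have l2 := Real.log_le_log hp2 b2
    rw [Real.log_mul (by norm_num) (by positivity), hpow 24] at l2
    push_cast at l2
    have key : Real.log (c₁ / 2400) + 7 * L +
      (1 / 12) * Real.log ((1 + r ^ 2) ^ 3 + (μ ^ 12)⁻¹ * ‖y‖ ^ 2) +
      (1 / 4) * (Real.log ((μ ^ 8 + r ^ 2) ^ 3 + μ ^ 4 * ‖y‖ ^ 2) - 24 * L) ≤
      Real.log (c₁ / 12 * μ ^ 12) := by
      rw [Real.log_mul (by positivity) (by positivity), hpow 12]
      push_cast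
      linarith
    have key2 := exp_le_of_le_log (by positivity) key
    have := h1 hr2
    linarith
  · have hrpos : 0 < r := by linarith
    set s := Real.log r with hs
    have hs0 : 0 ≤ s := Real.log_nonneg (by linarith)
    have hpowr : ∀ n : ℕ, Real.log (r ^ n) = n * s := fun n => by rw [Real.log_pow]
    have hr16 : 16 ≤ r ^ 4 := by
      calc (16 : ℝ) = 2 ^ 4 := by norm_num
        _ ≤ r ^ 4 := by gcongr
    have e1 : (1 + r ^ 2) ^ 3 ≤ 2 * r ^ 6 := by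
      have h4 : 1 + r ^ 2 ≤ 5 / 4 * r ^ 2 := by nlinarith
      calc (1 + r ^ 2) ^ 3 ≤ (5 / 4 * r ^ 2) ^ 3 := by gcongr
        _ = 125 / 64 * r ^ 6 := by ring
        _ ≤ 2 * r ^ 6 := by
          have : 0 ≤ r ^ 6 := by positivity
          linarith
    have hrr : r + 1 ≤ 3 / 2 * r := by linarith
    rcases le_or_gt r (μ ^ 4 / 2) with hr4 | hr4
    · -- region two
      have hr3 : r ^ 3 ≤ μ ^ 12 / 8 := by
        calc r ^ 3 ≤ (μ ^ 4 / 2) ^ 3 := by gcongr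
          _ = μ ^ 12 / 8 := by ring
      have hy' : ‖y‖ ^ 2 ≤ 2 * r ^ 2 * μ ^ 12 := by
        refine hy.trans ?_
        calc r * (r + 1) * (r ^ 3 + μ ^ 12) ≤ r * (3 / 2 * r) * (μ ^ 12 / 8 + μ ^ 12) := by gcongr
          _ = 27 / 16 * (r ^ 2 * μ ^ 12) := by ring
          _ ≤ 2 * (r ^ 2 * μ ^ 12) := by
            have : 0 ≤ r ^ 2 * μ ^ 12 := by positivity
            linarith
          _ = 2 * r ^ 2 * μ ^ 12 := by ring
      have b1 : (1 + r ^ 2) ^ 3 + (μ ^ 12)⁻¹ * ‖y‖ ^ 2 ≤ 200 * r ^ 6 := by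
        have e2 : (μ ^ 12)⁻¹ * ‖y‖ ^ 2 ≤ (μ ^ 12)⁻¹ * (2 * r ^ 2 * μ ^ 12) := by gcongr
        have e3 : (μ ^ 12)⁻¹ * (2 * r ^ 2 * μ ^ 12) = 2 * r ^ 2 := by
          rw [mul_left_comm, hinvm, mul_one]
        have e4 : r ^ 6 = r ^ 2 * r ^ 4 := by ring
        have e5 : 0 ≤ r ^ 2 := by positivity
        nlinarith
      have b2 : (μ ^ 8 + r ^ 2) ^ 3 + μ ^ 4 * ‖y‖ ^ 2 ≤ 200 * μ ^ 24 := by
        have e0 : r ^ 2 ≤ μ ^ 8 := by
          calc r ^ 2 ≤ (μ ^ 4 / 2) ^ 2 := by gcongr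
            _ = μ ^ 8 / 4 := by ring
            _ ≤ μ ^ 8 := by linarith
        have e1 : (μ ^ 8 + r ^ 2) ^ 3 ≤ (μ ^ 8 + μ ^ 8) ^ 3 := by gcongr
        have e2 : μ ^ 4 * ‖y‖ ^ 2 ≤ μ ^ 4 * (2 * μ ^ 8 * μ ^ 12) := by
          have : ‖y‖ ^ 2 ≤ 2 * μ ^ 8 * μ ^ 12 := hy'.trans (by gcongr)
          gcongr
        have e3 : μ ^ 4 * (2 * μ ^ 8 * μ ^ 12) = 2 * μ ^ 24 := by ring
        have e4 : (μ ^ 8 + μ ^ 8) ^ 3 = 8 * μ ^ 24 := by ring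
        have e5 : 0 ≤ μ ^ 24 := by positivity
        linarith
      have l1 := Real.log_le_log hp1 b1
      have l2 := Real.log_le_log hp2 b2
      rw [Real.log_mul (by norm_num) (by positivity), hpow 24] at l2
      rw [Real.log_mul (by norm_num) (by positivity), hpowr 6] at l1
      push_cast at l1 l2
      rcases le_total s (2 * L) with hsL | hsL
      · have key : Real.log (c₁ / 2400) + 7 * L +
          (1 / 12) * Real.log ((1 + r ^ 2) ^ 3 + (μ ^ 12)⁻¹ * ‖y‖ ^ 2) +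
          (1 / 4) * (Real.log ((μ ^ 8 + r ^ 2) ^ 3 + μ ^ 4 * ‖y‖ ^ 2) - 24 * L) ≤
          Real.log (c₁ / 12 * (μ ^ 12 / r ^ 2)) := by
          have hdv : Real.log (μ ^ 12 / r ^ 2) = Real.log (μ ^ 12) - Real.log (r ^ 2) :=
            Real.log_div (by positivity) (by positivity)
          rw [Real.log_mul (by positivity) (by positivity), hdv, hpow 12, hpowr 2]
          push_cast
          linarith
        have key2 := exp_le_of_le_log (by positivity) key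
        have := h2 hr2.le hr4
        linarith
      · have key : Real.log (c₁ / 2400) + 7 * L +
          (1 / 12) * Real.log ((1 + r ^ 2) ^ 3 + (μ ^ 12)⁻¹ * ‖y‖ ^ 2) +
          (1 / 4) * (Real.log ((μ ^ 8 + r ^ 2) ^ 3 + μ ^ 4 * ‖y‖ ^ 2) - 24 * L) ≤
          Real.log (c₁ / 12 * (μ ^ 4 * r ^ 2)) := by
          rw [Real.log_mul (by positivity) (by positivity), Real.log_mul (by positivity)
            (by positivity), hpow 4, hpowr 2]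
          push_cast
          linarith
        have key2 := exp_le_of_le_log (by positivity) key
        have := h3 hr2.le
        have h0 : 0 ≤ c₁ * (μ ^ 4 * r ^ 2) := by positivity
        linarith
    · -- region three
      have hm4 : μ ^ 4 ≤ 2 * r := by linarith
      have hm12 : μ ^ 12 ≤ 8 * r ^ 3 := by
        calc μ ^ 12 = (μ ^ 4) ^ 3 := by ring
          _ ≤ (2 * r) ^ 3 := by gcongr
          _ = 8 * r ^ 3 := by ring
      have hm8 : μ ^ 8 ≤ 4 * r ^ 2 := by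
        calc μ ^ 8 = (μ ^ 4) ^ 2 := by ring
          _ ≤ (2 * r) ^ 2 := by gcongr
          _ = 4 * r ^ 2 := by ring
      have hy' : ‖y‖ ^ 2 ≤ 14 * r ^ 5 := by
        refine hy.trans ?_
        calc r * (r + 1) * (r ^ 3 + μ ^ 12) ≤ r * (3 / 2 * r) * (r ^ 3 + 8 * r ^ 3) := by gcongr
          _ = 27 / 2 * r ^ 5 := by ring
          _ ≤ 14 * r ^ 5 := by
            have : 0 ≤ r ^ 5 := by positivity
            linarith
      have e6 : r ^ 6 = r * r ^ 5 := by ring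
      have e5 : 0 ≤ r ^ 5 := by positivity
      have b1 : (1 + r ^ 2) ^ 3 + (μ ^ 12)⁻¹ * ‖y‖ ^ 2 ≤ 200 * r ^ 6 := by
        have e2 : (μ ^ 12)⁻¹ * ‖y‖ ^ 2 ≤ 1 * (14 * r ^ 5) := by gcongr
        nlinarith
      have b2 : (μ ^ 8 + r ^ 2) ^ 3 + μ ^ 4 * ‖y‖ ^ 2 ≤ 200 * r ^ 6 := by
        have e1 : (μ ^ 8 + r ^ 2) ^ 3 ≤ (4 * r ^ 2 + r ^ 2) ^ 3 := by gcongr
        have e2 : μ ^ 4 * ‖y‖ ^ 2 ≤ (2 * r) * (14 * r ^ 5) := by gcongr
        have e3 : (2 * r) * (14 * r ^ 5) = 28 * r ^ 6 := by ring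
        have e4 : (4 * r ^ 2 + r ^ 2) ^ 3 = 125 * r ^ 6 := by ring
        have e5 : 0 ≤ r ^ 6 := by positivity
        linarith
      have l1 := Real.log_le_log hp1 b1
      have l2 := Real.log_le_log hp2 b2
      rw [Real.log_mul (by norm_num) (by positivity), hpowr 6] at l1 l2
      push_cast at l1 l2
      have key : Real.log (c₁ / 2400) + 7 * L +
        (1 / 12) * Real.log ((1 + r ^ 2) ^ 3 + (μ ^ 12)⁻¹ * ‖y‖ ^ 2) +
        (1 / 4) * (Real.log ((μ ^ 8 + r ^ 2) ^ 3 + μ ^ 4 * ‖y‖ ^ 2) - 24 * L) ≤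
        Real.log (c₁ / 12 * (μ ^ 4 * r ^ 2)) := by
        rw [Real.log_mul (by positivity) (by positivity), Real.log_mul (by positivity)
          (by positivity), hpow 4, hpowr 2]
        push_cast
        linarith
      have key2 := exp_le_of_le_log (by positivity) key
      have := h3 hr2.le
      have h0 : 0 ≤ c₁ * (μ ^ 4 * r ^ 2) := by positivity
      linarith

theorem deriv_gP_zero (μ : ℝ) : deriv (gP μ) 0 = 1 := by
  have h1 : HasDerivAt (fun x : ℂ => x) 1 0 := hasDerivAt_id 0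
  have h2 : HasDerivAt (fun x : ℂ => 1 - x) (-1) 0 := by
    simpa using (hasDerivAt_id (0 : ℂ)).const_sub 1
  have h3 : HasDerivAt (fun x : ℂ => 1 - (μ : ℂ) ^ 12 * x ^ 3) (-((μ : ℂ) ^ 12 * (3 * 0 ^ 2 * 1))) 0 := by
    have := ((hasDerivAt_id (0 : ℂ)).pow 3).const_mul ((μ : ℂ) ^ 12)
    simpa using this.const_sub 1
  have h4 := (h1.mul h2).mul h3
  have h5 : deriv (gP μ) 0 = _ := h4.deriv
  rw [h5]
  simp

theorem ineqG {c μ : ℝ} (hc : c ≤ -3) (hμ : 1 ≤ μ) :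
    Real.exp (psiG c μ 0 0) ≤ (1 / 12) * curv 1 (μ ^ 12)⁻¹ 0 0 (deriv (gP μ) 0) +
      (1 / 4) * curv (μ ^ 8)⁻¹ (μ ^ 20)⁻¹ 0 0 (deriv (gP μ) 0) := by
  have hμ0 : 0 < μ := by linarith
  have hC1 : 0 ≤ curv 1 (μ ^ 12)⁻¹ 0 0 (deriv (gP μ) 0) :=
    curv_nonneg zero_le_one (by positivity) _ _ _
  have hC2 : curv (μ ^ 8)⁻¹ (μ ^ 20)⁻¹ 0 0 (deriv (gP μ) 0) = μ ^ 4 / 2 := by
    rw [deriv_gP_zero]
    unfold curv curvN
    simp only [norm_zero, norm_div, norm_one, Complex.norm_ofNat]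
    norm_num
    field_simp
    norm_num
  have hpsi : psiG c μ 0 0 = c + Real.log μ := by
    unfold psiG Lg
    simp only [norm_zero]
    norm_num
    ring
  rw [hpsi, hC2, Real.exp_add, Real.exp_log hμ0]
  have h1 : Real.exp c ≤ 1 / 8 := by
    have h2 : Real.exp c ≤ Real.exp (-3) := Real.exp_le_exp.2 hc
    have h3 : Real.exp (-3) ≤ 1 / 8 := by
      rw [Real.exp_neg, inv_le_comm₀ (Real.exp_pos _) (by norm_num)]
      have h4 : (2 : ℝ) ≤ Real.exp 1 := by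
        have := Real.add_one_le_exp (1 : ℝ)
        linarith
      have h5 : Real.exp 3 = Real.exp 1 ^ 3 := by
        rw [← Real.exp_nat_mul]; norm_num
      rw [h5]
      calc ((1 : ℝ) / 8)⁻¹ = 2 ^ 3 := by norm_num
        _ ≤ Real.exp 1 ^ 3 := by gcongr
    exact h2.trans h3
  have h4 : μ ≤ μ ^ 4 := by
    calc μ = μ ^ 1 := (pow_one μ).symm
      _ ≤ μ ^ 4 := pow_le_pow_right₀ hμ (by norm_num)
  nlinarith [Real.exp_pos c]

end MP_32c225_ag
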