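import Pool.Agent.Lib_MP_32c225_ag.Ahlfors

open scoped ComplexConjugate Topology ContDiff
open Laplacian Metric Set

namespace MP_32c225_ag

theorem upper_contDiffAt_lap {h : ℂ → ℝ} {t : ℂ} (hh : ContDiffAt ℝ ∞ h t) :
    ContDiffAt ℝ 2 (Δ h) t := by
  rw [InnerProductSpace.laplacian_eq_iteratedFDeriv_complexPlane]
  have h1 : ContDiffAt ℝ 2 (iteratedFDeriv ℝ 2 h) t := by
    apply hh.iteratedFDeriv_right
    exact WithTop.coe_le_coe.2 le_top
  have h2 : ∀ m : Fin 2 → ℂ, ContDiffAt ℝ 2 (fun x => iteratedFDeriv ℝ 2 h x m) t := by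
    intro m
    exact ((ContinuousMultilinearMap.apply ℝ (fun _ : Fin 2 => ℂ) ℝ m).contDiff.contDiffAt).comp t
      h1
  exact (h2 _).add (h2 _)

theorem upper_phi_pos (x y : ℂ) : 0 < phi x y := by
  unfold phi
  positivity

theorem upper_contDiffOn_norm_sq {O : Set ℂ} (hO : IsOpen O) {X : ℂ → ℂ}
    (hX : DifferentiableOn ℂ X O) : ContDiffOn ℝ ∞ (fun t => ‖X t‖ ^ 2) O := by
  have h1 : ContDiffOn ℝ ∞ X O := (hX.contDiffOn hO).restrict_scalars ℝ
  exact h1.norm_sq ℝ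

theorem upper_rho {f : ℂ → ℂ} {U : ℂ → ℂ → ℝ} {O : Set ℂ} {X Y : ℂ → ℂ} (hU : KESide f U)
    (hc : IsCurve f O X Y) : ContDiffOn ℝ 2 (rhoC U X Y) O := by
  intro t ht
  have hO := hc.isOpen
  have hX2 := upper_contDiffOn_norm_sq hO hc.hX
  have hY2 := upper_contDiffOn_norm_sq hO hc.hY
  have hphi : ContDiffOn ℝ ∞ (fun t => phi (X t) (Y t)) O := by
    have : (fun t => phi (X t) (Y t)) = fun t => 1 + ‖X t‖ ^ 2 + (‖X t‖ ^ 2) ^ 2 +
        (‖X t‖ ^ 2) ^ 3 + ‖Y t‖ ^ 2 := by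
      funext t
      unfold phi
      ring
    rw [this]
    exact (((contDiffOn_const.add hX2).add (hX2.pow 2)).add (hX2.pow 3)).add hY2
  have hlog : ContDiffOn ℝ ∞ (fun t => Real.log (phi (X t) (Y t))) O :=
    hphi.log fun t _ => (upper_phi_pos _ _).ne'
  have hh : ContDiffOn ℝ ∞ (fun s => (1 / 3) * Real.log (phi (X s) (Y s)) + U (X s) (Y s)) O :=
    (contDiffOn_const.mul hlog).add (hU.smooth O X Y hc)
  have h2 := upper_contDiffAt_lap (hh.contDiffAt (hO.mem_nhds ht))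
  exact (contDiffAt_const.mul h2).contDiffWithinAt

theorem upper_exp_half {a b c : ℂ} (ha : a ≠ 0) (hb : b ≠ 0) (hc : c ≠ 0) (y : ℂ) :
    (y * Complex.exp ((Complex.log a + Complex.log b + Complex.log c) / 2)) ^ 2 =
      y ^ 2 * (a * b * c) := by
  rw [mul_pow, ← Complex.exp_nat_mul]
  congr 1
  have : ((2 : ℕ) : ℂ) * ((Complex.log a + Complex.log b + Complex.log c) / 2) =
      Complex.log a + Complex.log b + Complex.log c := by
    push_cast
    ring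
  rw [this, Complex.exp_add, Complex.exp_add, Complex.exp_log ha, Complex.exp_log hb,
    Complex.exp_log hc]

theorem upper_slit {z : ℂ} (h : ‖z - 1‖ < 1) : z ∈ Complex.slitPlane := by
  have := Complex.mem_slitPlane_of_norm_lt_one h
  simpa using this

theorem upper_curve {μ : ℝ} (hμ : 4 ≤ μ) {x y : ℂ} (hxy : y ^ 2 = fP μ x) (h1 : μ ^ 3 ≤ ‖x‖)
    (h2 : ‖x‖ ≤ 2 * μ ^ 3) :
    y ≠ 0 ∧ ∃ X Y : ℂ → ℂ, IsCurve (fP μ) (ball 0 (‖x‖ / 2)) X Y ∧ X 0 = x ∧ Y 0 = y ∧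
      deriv X 0 = 1 := by
  have hμ3 : 64 ≤ μ ^ 3 := by nlinarith [pow_le_pow_left₀ (by norm_num : (0 : ℝ) ≤ 4) hμ 3]
  have hx64 : 64 ≤ ‖x‖ := hμ3.trans h1
  have hx0 : x ≠ 0 := by
    rintro rfl
    simp at hx64
    linarith
  have hx1n : ‖x‖ - 1 ≤ ‖x - 1‖ := by
    have := norm_sub_norm_le x 1
    simpa using this
  have hx1 : x - 1 ≠ 0 := by
    intro h
    rw [h, norm_zero] at hx1n
    linarith
  set L : ℂ := (μ : ℂ) ^ 12 with hL
  have hLn : ‖L‖ = μ ^ 12 := by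
    rw [hL, norm_pow, Complex.norm_real, Real.norm_of_nonneg (by linarith)]
  have hxn3 : ‖x ^ 3‖ ≤ 8 * μ ^ 9 := by
    rw [norm_pow]
    calc ‖x‖ ^ 3 ≤ (2 * μ ^ 3) ^ 3 := pow_le_pow_left₀ (norm_nonneg _) h2 3
      _ = 8 * μ ^ 9 := by ring
  have hμ9 : 0 < μ ^ 9 := by positivity
  have hx3n : μ ^ 12 - 8 * μ ^ 9 ≤ ‖x ^ 3 - L‖ := by
    have := norm_sub_norm_le L (x ^ 3)
    rw [hLn, norm_sub_rev] at this
    linarith
  have h12 : 64 * μ ^ 9 ≤ μ ^ 12 := by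
    have : μ ^ 12 = μ ^ 3 * μ ^ 9 := by ring
    rw [this]
    exact mul_le_mul_of_nonneg_right hμ3 hμ9.le
  have hx3 : x ^ 3 - L ≠ 0 := by
    intro h
    rw [h, norm_zero] at hx3n
    linarith
  have hf : fP μ x ≠ 0 := by
    unfold fP
    exact mul_ne_zero (mul_ne_zero hx0 hx1) hx3
  have hy : y ≠ 0 := by
    rintro rfl
    apply hf
    rw [← hxy]
    ring
  refine ⟨hy, ?_⟩
  let a : ℂ → ℂ := fun t => (x + t) / x
  let b : ℂ → ℂ := fun t => (x + t - 1) / (x - 1)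
  let c : ℂ → ℂ := fun t => ((x + t) ^ 3 - L) / (x ^ 3 - L)
  have ha : ∀ t ∈ ball (0 : ℂ) (‖x‖ / 2), a t ∈ Complex.slitPlane := by
    intro t ht
    rw [mem_ball_zero_iff] at ht
    apply upper_slit
    have : a t - 1 = t / x := by
      simp only [a]
      field_simp
      ring
    rw [this, norm_div, div_lt_one (by linarith)]
    linarith
  have hb : ∀ t ∈ ball (0 : ℂ) (‖x‖ / 2), b t ∈ Complex.slitPlane := by
    intro t ht
    rw [mem_ball_zero_iff] at ht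
    apply upper_slit
    have : b t - 1 = t / (x - 1) := by
      simp only [b]
      field_simp
      ring
    rw [this, norm_div, div_lt_one (by linarith)]
    linarith
  have hc : ∀ t ∈ ball (0 : ℂ) (‖x‖ / 2), c t ∈ Complex.slitPlane := by
    intro t ht
    rw [mem_ball_zero_iff] at ht
    apply upper_slit
    have : c t - 1 = (t * ((x + t) ^ 2 + (x + t) * x + x ^ 2)) / (x ^ 3 - L) := by
      simp only [c]
      field_simp
      ring
    rw [this, norm_div, div_lt_one (by linarith), norm_mul]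
    have e1 : ‖x + t‖ ≤ 3 / 2 * ‖x‖ := (norm_add_le _ _).trans (by linarith)
    have e2 : ‖(x + t) ^ 2 + (x + t) * x + x ^ 2‖ ≤ 19 / 4 * ‖x‖ ^ 2 := by
      refine (norm_add₃_le).trans ?_
      rw [norm_pow, norm_mul, norm_pow]
      have e3 : ‖x + t‖ ^ 2 ≤ (3 / 2 * ‖x‖) ^ 2 := pow_le_pow_left₀ (norm_nonneg _) e1 2
      have e4 : ‖x + t‖ * ‖x‖ ≤ 3 / 2 * ‖x‖ * ‖x‖ :=
        mul_le_mul_of_nonneg_right e1 (norm_nonneg _)
      nlinarith
    have e5 : ‖t‖ * ‖(x + t) ^ 2 + (x + t) * x + x ^ 2‖ ≤ ‖x‖ / 2 * (19 / 4 * ‖x‖ ^ 2) :=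
      mul_le_mul ht.le e2 (norm_nonneg _) (by positivity)
    have e6 : ‖x‖ / 2 * (19 / 4 * ‖x‖ ^ 2) = 19 / 8 * ‖x ^ 3‖ := by
      rw [norm_pow]
      ring
    rw [e6] at e5
    linarith
  have hdX : Differentiable ℂ (fun t : ℂ => x + t) := by fun_prop
  have hdXd : ∀ t : ℂ, deriv (fun t : ℂ => x + t) t = 1 := by
    intro t
    simp
  refine ⟨fun t => x + t, fun t => y * Complex.exp ((Complex.log (a t) + Complex.log (b t) +
    Complex.log (c t)) / 2), ⟨isOpen_ball, hdX.differentiableOn, ?_, ?_, ?_⟩, by simp, ?_,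
    hdXd 0⟩
  · intro t ht
    have da : DifferentiableAt ℂ (fun t => Complex.log (a t)) t :=
      DifferentiableAt.clog (by simp only [a]; fun_prop) (ha t ht)
    have db : DifferentiableAt ℂ (fun t => Complex.log (b t)) t :=
      DifferentiableAt.clog (by simp only [b]; fun_prop) (hb t ht)
    have dc : DifferentiableAt ℂ (fun t => Complex.log (c t)) t :=
      DifferentiableAt.clog (by simp only [c]; fun_prop) (hc t ht)
    exact (((((da.add db).add dc).div_const 2).cexp).const_mul y).differentiableWithinAt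
  · intro t ht
    rw [upper_exp_half (Complex.slitPlane_ne_zero (ha t ht)) (Complex.slitPlane_ne_zero (hb t ht))
      (Complex.slitPlane_ne_zero (hc t ht)), hxy]
    simp only [fP, a, b, c]
    rw [← hL]
    field_simp
  · intro t _
    left
    rw [hdXd t]
    exact one_ne_zero
  · simp only [a, b, c, add_zero, div_self hx0, div_self hx1, div_self hx3, Complex.log_one]
    simp

theorem upper_V : ∃ μ₀ : ℝ, 1 ≤ μ₀ ∧ ∀ μ ≥ μ₀, ∀ U v, KESide (fP μ) U → IsV (fP μ) U v →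
    ∀ x y, y ^ 2 = fP μ x → μ ^ 3 ≤ ‖x‖ → ‖x‖ ≤ 2 * μ ^ 3 →
      v x y ≤ Real.log (16 / ‖x‖ ^ 2) + Real.log ‖fP μ x‖ := by
  refine ⟨4, by norm_num, fun μ hμ U v hU hv x y hxy h1 h2 => ?_⟩
  have hμ4 : (4 : ℝ) ≤ μ := hμ
  obtain ⟨hy, X, Y, hc, hX0, hY0, hd⟩ := upper_curve hμ4 hxy h1 h2
  have hxpos : 0 < ‖x‖ := lt_of_lt_of_le (by positivity) h1
  have hr : 0 < ‖x‖ / 2 := by linarith
  have h0 : (0 : ℂ) ∈ ball (0 : ℂ) (‖x‖ / 2) := mem_ball_self hr
  have hA := ahlfors hr (ρ := rhoC U X Y) (hU.pos _ _ _ hc) (upper_rho hU hc) (hU.ke _ _ _ hc)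
  have hp := hU.pos _ _ _ hc 0 h0
  have hv0 := hv.curve _ _ _ hc 0 h0 (by rw [hY0]; exact hy) (by rw [hd]; exact one_ne_zero)
  rw [hX0, hY0, hd, norm_div, norm_one, one_div, Real.log_inv] at hv0
  have hyf : ‖fP μ x‖ = ‖y‖ ^ 2 := by
    rw [← hxy, norm_pow]
  rw [hyf, Real.log_pow, hv0]
  have hlog : Real.log (rhoC U X Y 0) ≤ Real.log (16 / ‖x‖ ^ 2) := by
    apply Real.log_le_log hp
    refine hA.trans (le_of_eq ?_)
    field_simp
    norm_num
  push_cast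
  linarith

end MP_32c225_ag
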