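import Pool.Agent.Lib_MP_32c225_ag.Lap
import Pool.Agent.Lib_MP_32c225_ag.Chart

open scoped ComplexConjugate Topology ContDiff
open Laplacian Metric Set

namespace MP_32c225_ag

/-- the local potential along a curve -/
noncomputable def vfunH (U : ℂ → ℂ → ℝ) (X Y : ℂ → ℂ) (s : ℂ) : ℝ :=
  (1 / 3) * Real.log (phi (X s) (Y s)) + U (X s) (Y s)

lemma vfun_rhoC (U : ℂ → ℂ → ℝ) (X Y : ℂ → ℂ) (t : ℂ) :
    rhoC U X Y t = (1 / 2) * Δ (vfunH U X Y) t := rfl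

lemma vfun_phi_pos (x y : ℂ) : 0 < phi x y := by
  unfold phi
  positivity

lemma vfun_analyticAt {O : Set ℂ} {X : ℂ → ℂ} (hO : IsOpen O) (hX : DifferentiableOn ℂ X O) {t : ℂ}
    (ht : t ∈ O) : AnalyticAt ℂ X t :=
  hX.analyticAt (hO.mem_nhds ht)

lemma vfun_smooth_real {X : ℂ → ℂ} {t : ℂ} (h : AnalyticAt ℂ X t) : ContDiffAt ℝ ∞ X t :=
  (h.contDiffAt (n := ∞)).restrict_scalars ℝ

lemma vfun_H_smooth {f : ℂ → ℂ} {U : ℂ → ℂ → ℝ} (hU : KESide f U) {O : Set ℂ} {X Y : ℂ → ℂ}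
    (h : IsCurve f O X Y) {t : ℂ} (ht : t ∈ O) : ContDiffAt ℝ ∞ (vfunH U X Y) t := by
  have hX := vfun_smooth_real (vfun_analyticAt h.isOpen h.hX ht)
  have hY := vfun_smooth_real (vfun_analyticAt h.isOpen h.hY ht)
  have hX2 : ContDiffAt ℝ ∞ (fun s => ‖X s‖ ^ 2) t := hX.norm_sq ℝ
  have hY2 : ContDiffAt ℝ ∞ (fun s => ‖Y s‖ ^ 2) t := hY.norm_sq ℝ
  have hphi : ContDiffAt ℝ ∞ (fun s => phi (X s) (Y s)) t := by
    have : (fun s => phi (X s) (Y s)) =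
        fun s => 1 + ‖X s‖ ^ 2 + (‖X s‖ ^ 2) ^ 2 + (‖X s‖ ^ 2) ^ 3 + ‖Y s‖ ^ 2 := by
      funext s
      simp only [phi]
      ring
    rw [this]
    exact (((contDiffAt_const.add hX2).add (hX2.pow 2)).add (hX2.pow 3)).add hY2
  have hlog : ContDiffAt ℝ ∞ (fun s => Real.log (phi (X s) (Y s))) t :=
    hphi.log (vfun_phi_pos _ _).ne'
  have hUU : ContDiffAt ℝ ∞ (fun s => U (X s) (Y s)) t :=
    (hU.smooth O X Y h).contDiffAt (h.isOpen.mem_nhds ht)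
  exact (contDiffAt_const.mul hlog).add hUU

lemma vfun_lap_cont {h : ℂ → ℝ} {t : ℂ} (hh : ContDiffAt ℝ ∞ h t) : ContinuousAt (Δ h) t := by
  rw [InnerProductSpace.laplacian_eq_iteratedFDeriv_complexPlane]
  have h2 : ContinuousAt (iteratedFDeriv ℝ 2 h) t :=
    (hh.iteratedFDeriv_right (i := 2) (m := 0) (by
      rw [zero_add]
      exact ENat.LEInfty.out)).continuousAt
  exact (h2.eval_const _).add (h2.eval_const _)

lemma vfun_rhoC_cont {f : ℂ → ℂ} {U : ℂ → ℂ → ℝ} (hU : KESide f U) {O : Set ℂ} {X Y : ℂ → ℂ}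
    (h : IsCurve f O X Y) {t : ℂ} (ht : t ∈ O) : ContinuousAt (rhoC U X Y) t :=
  continuousAt_const.mul (vfun_lap_cont (vfun_H_smooth hU h ht))

lemma vfun_transport {f : ℂ → ℂ} {U : ℂ → ℂ → ℝ} (hU : KESide f U) {O : Set ℂ} {X₂ Y₂ : ℂ → ℂ}
    (h₂ : IsCurve f O X₂ Y₂) {X₁ Y₁ T : ℂ → ℂ} {t : ℂ} (hT : AnalyticAt ℂ T t) (hTt : T t ∈ O)
    (hX : ∀ᶠ s in 𝓝 t, X₁ s = X₂ (T s)) (hY : ∀ᶠ s in 𝓝 t, Y₁ s = Y₂ (T s)) :
    rhoC U X₁ Y₁ t = ‖deriv T t‖ ^ 2 * rhoC U X₂ Y₂ (T t) := by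
  have hc : vfunH U X₁ Y₁ =ᶠ[𝓝 t] fun s => vfunH U X₂ Y₂ (T s) := by
    filter_upwards [hX, hY] with s h1 h2
    simp only [vfunH, h1, h2]
  have h2 : ContDiffAt ℝ 2 (vfunH U X₂ Y₂) (T t) :=
    (vfun_H_smooth hU h₂ hTt).of_le ENat.LEInfty.out
  rw [vfun_rhoC, vfun_rhoC, (InnerProductSpace.laplacian_congr_nhds hc).eq_of_nhds,
    lap_comp_holo h2 hT]
  ring

/-- the branch of `√f` with the value `y` -/
noncomputable def vfunBr (f : ℂ → ℂ) (y s : ℂ) : ℂ := y * (f s / y ^ 2) ^ (2⁻¹ : ℂ)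

/-- the domain of the branch -/
def vfunO (f : ℂ → ℂ) (y : ℂ) : Set ℂ := {s | f s / y ^ 2 ∈ Complex.slitPlane}

lemma vfun_br_curve {f : ℂ → ℂ} (hf : Differentiable ℂ f) {y : ℂ} (hy : y ≠ 0) :
    IsCurve f (vfunO f y) id (vfunBr f y) := by
  refine ⟨?_, differentiableOn_id, ?_, ?_, ?_⟩
  · exact Complex.isOpen_slitPlane.preimage (hf.continuous.div_const _)
  · intro s hs
    apply DifferentiableAt.differentiableWithinAt
    have h1 : DifferentiableAt ℂ (fun s => f s / y ^ 2) s := (hf s).div_const _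
    exact (h1.cpow (differentiableAt_const _) hs).const_mul y
  · intro s _
    have := Complex.cpow_nat_inv_pow (f s / y ^ 2) two_ne_zero
    simp only [Nat.cast_ofNat] at this
    unfold vfunBr
    rw [mul_pow, this]
    field_simp
    rfl
  · intro s _
    left
    simp

/-- the density of the metric with respect to `dx` at the point `(x, y)`, `y ≠ 0` -/
noncomputable def vfunQ (f : ℂ → ℂ) (U : ℂ → ℂ → ℝ) (x y : ℂ) : ℝ := rhoC U id (vfunBr f y) x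

lemma vfun_mem_O {f : ℂ → ℂ} {x y : ℂ} (hy : y ≠ 0) (h : y ^ 2 = f x) : x ∈ vfunO f y := by
  unfold vfunO
  rw [mem_ofPred_eq, ← h, div_self (pow_ne_zero 2 hy)]
  exact Complex.one_mem_slitPlane

lemma vfun_Q_pos {f : ℂ → ℂ} {U : ℂ → ℂ → ℝ} (hf : Differentiable ℂ f) (hU : KESide f U) {x y : ℂ}
    (hy : y ≠ 0) (h : y ^ 2 = f x) : 0 < vfunQ f U x y :=
  hU.pos _ _ _ (vfun_br_curve hf hy) x (vfun_mem_O hy h)

lemma vfun_K {f : ℂ → ℂ} {U : ℂ → ℂ → ℝ} (hf : Differentiable ℂ f) (hU : KESide f U) {O : Set ℂ}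
    {X Y : ℂ → ℂ} (h : IsCurve f O X Y) {t : ℂ} (ht : t ∈ O) (hY : Y t ≠ 0) :
    rhoC U X Y t = ‖deriv X t‖ ^ 2 * vfunQ f U (X t) (Y t) := by
  refine vfun_transport hU (vfun_br_curve hf hY) (vfun_analyticAt h.isOpen h.hX ht)
    (vfun_mem_O hY (h.eqn t ht)) (Filter.Eventually.of_forall fun _ => rfl) ?_
  have hcont : ContinuousAt (fun s => (Y s / Y t).re) t :=
    Complex.continuous_re.continuousAt.comp
      ((vfun_analyticAt h.isOpen h.hY ht).continuousAt.div_const _)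
  have h1 : ∀ᶠ s in 𝓝 t, 0 < (Y s / Y t).re := by
    refine Filter.Tendsto.eventually_const_lt ?_ hcont
    simp [div_self hY]
  filter_upwards [h1, h.isOpen.mem_nhds ht] with s hs hsO
  unfold vfunBr
  rw [← h.eqn s hsO, ← div_pow, Complex.sq_cpow_two_inv hs]
  field_simp

open Classical in
/-- the logarithm of the density with respect to `dx / y` -/
noncomputable def vfunV (f : ℂ → ℂ) (U : ℂ → ℂ → ℝ) (x y : ℂ) : ℝ :=
  if y ≠ 0 then Real.log (vfunQ f U x y) + 2 * Real.log ‖y‖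
  else if h : ∃ a : ℝ, ∃ r X Y k, IsChart f (x, y) r X Y k ∧
      a = Real.log (rhoC U X Y 0) - 2 * Real.log ‖k 0‖ then h.choose
  else 0

lemma vfun_chart_ne {f : ℂ → ℂ} {U : ℂ → ℂ → ℝ} (hf : Differentiable ℂ f)
    (hs : ∀ x, f x = 0 → deriv f x ≠ 0) (hU : KESide f U) {P : ℂ × ℂ} {r : ℝ} {X Y k : ℂ → ℂ}
    (h : IsChart f P r X Y k) {t : ℂ} (ht : t ∈ ball (0 : ℂ) r) (hY : Y t ≠ 0) :
    vfunV f U (X t) (Y t) = Real.log (rhoC U X Y t) - 2 * Real.log ‖k t‖ := by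
  have hc := IsChart.isCurve hs h
  rw [vfunV, if_pos hY, vfun_K hf hU hc ht hY, h.dX t ht]
  have hk : ‖k t‖ ≠ 0 := norm_ne_zero_iff.2 (h.k_ne t ht)
  have hy : ‖Y t‖ ≠ 0 := norm_ne_zero_iff.2 hY
  have hQ := (vfun_Q_pos hf hU hY (h.eqn t ht)).ne'
  rw [norm_mul, mul_pow, Real.log_mul (mul_ne_zero (pow_ne_zero 2 hk) (pow_ne_zero 2 hy)) hQ,
    Real.log_mul (pow_ne_zero 2 hk) (pow_ne_zero 2 hy), Real.log_pow, Real.log_pow]
  push_cast
  ring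

lemma vfun_unique {f : ℂ → ℂ} {U : ℂ → ℂ → ℝ} (hf : Differentiable ℂ f)
    (hs : ∀ x, f x = 0 → deriv f x ≠ 0) (hU : KESide f U) {P : ℂ × ℂ} {r₁ r₂ : ℝ}
    {X₁ Y₁ k₁ X₂ Y₂ k₂ : ℂ → ℂ} (h₁ : IsChart f P r₁ X₁ Y₁ k₁) (h₂ : IsChart f P r₂ X₂ Y₂ k₂) :
    Real.log (rhoC U X₁ Y₁ 0) - 2 * Real.log ‖k₁ 0‖ =
      Real.log (rhoC U X₂ Y₂ 0) - 2 * Real.log ‖k₂ 0‖ := by
  have cont : ∀ {r : ℝ} {X Y k : ℂ → ℂ}, IsChart f P r X Y k →
      ContinuousAt (fun t => Real.log (rhoC U X Y t) - 2 * Real.log ‖k t‖) 0 := by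
    intro r X Y k h
    have h0 : (0 : ℂ) ∈ ball (0 : ℂ) r := mem_ball_self h.r_pos
    have hc := IsChart.isCurve hs h
    have hk : ContinuousAt k 0 := (vfun_analyticAt isOpen_ball h.hk h0).continuousAt
    exact ((vfun_rhoC_cont hU hc h0).log (hU.pos _ _ _ hc 0 h0).ne').sub
      (continuousAt_const.mul (hk.norm.log (norm_ne_zero_iff.2 (h.k_ne 0 h0))))
  have c1 := Metric.continuousAt_iff.1 (cont h₁)
  have c2 := Metric.continuousAt_iff.1 (cont h₂)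
  apply eq_of_forall_dist_le
  intro ε hε
  obtain ⟨δ₁, hδ₁, H1⟩ := c1 (ε / 2) (by linarith)
  obtain ⟨δ₂, hδ₂, H2⟩ := c2 (ε / 2) (by linarith)
  obtain ⟨δ, hδ, H3⟩ := h₂.cover δ₂ hδ₂
  have h0 : (0 : ℂ) ∈ ball (0 : ℂ) r₁ := mem_ball_self h₁.r_pos
  obtain ⟨δ₃, hδ₃, H4⟩ := Metric.continuousAt_iff.1
    (vfun_analyticAt isOpen_ball h₁.hX h0).continuousAt δ hδ
  obtain ⟨δ₄, hδ₄, H5⟩ := Metric.continuousAt_iff.1
    (vfun_analyticAt isOpen_ball h₁.hY h0).continuousAt δ hδ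
  set m : ℝ := min (min δ₁ δ₃) (min δ₄ r₁) / 2 with hm
  have hm0 : 0 < min (min δ₁ δ₃) (min δ₄ r₁) :=
    lt_min (lt_min hδ₁ hδ₃) (lt_min hδ₄ h₁.r_pos)
  have hmp : 0 < m := by positivity
  have hml : m < min (min δ₁ δ₃) (min δ₄ r₁) := by
    rw [hm]
    linarith
  have e1 : m < δ₁ := hml.trans_le ((min_le_left _ _).trans (min_le_left _ _))
  have e2 : m < δ₃ := hml.trans_le ((min_le_left _ _).trans (min_le_right _ _))
  have e3 : m < δ₄ := hml.trans_le ((min_le_right _ _).trans (min_le_left _ _))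
  have e4 : m < r₁ := hml.trans_le ((min_le_right _ _).trans (min_le_right _ _))
  have hn : ‖(m : ℂ)‖ = m := by
    rw [Complex.norm_real, Real.norm_of_nonneg hmp.le]
  have hd : dist (m : ℂ) 0 = m := by
    rw [dist_zero_right, hn]
  have htb : (m : ℂ) ∈ ball (0 : ℂ) r₁ := by
    rw [mem_ball, hd]
    exact e4
  have ht0 : (m : ℂ) ≠ 0 := by
    exact_mod_cast hmp.ne'
  have hY1 := h₁.Y_ne _ htb ht0
  obtain ⟨s, hsb, hs2, hsX, hsY⟩ := H3 (X₁ m) (Y₁ m) (h₁.eqn _ htb)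
    (by
      have := H4 (x := (m : ℂ)) (by rw [hd]; exact e2)
      rwa [dist_eq_norm, h₁.X0] at this)
    (by
      have := H5 (x := (m : ℂ)) (by rw [hd]; exact e3)
      rwa [dist_eq_norm, h₁.Y0] at this)
  have v1 := vfun_chart_ne hf hs hU h₁ htb hY1
  have v2 := vfun_chart_ne hf hs hU h₂ hsb (by rw [hsY]; exact hY1)
  rw [hsX, hsY, v1] at v2
  have d1 := H1 (x := (m : ℂ)) (by rw [hd]; exact e1)
  have d2 := H2 (x := s) (by rw [dist_zero_right]; exact hs2)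
  rw [v2] at d1
  rw [dist_comm] at d1
  exact (dist_triangle _ _ _).trans (by linarith)

/-- the density of the Kähler-Einstein metric with respect to `dx / y` is a function on the
curve -/
theorem exists_V {f : ℂ → ℂ} {U : ℂ → ℂ → ℝ} (hf : Differentiable ℂ f)
    (hs : ∀ x, f x = 0 → deriv f x ≠ 0) (hU : KESide f U) : ∃ v, IsV f U v := by
  refine ⟨vfunV f U, ?_, ?_⟩
  · intro P r X Y k h t ht
    by_cases hY : Y t ≠ 0
    · exact vfun_chart_ne hf hs hU h ht hY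
    · have ht0 : t = 0 := by
        by_contra hne
        exact hY (h.Y_ne t ht hne)
      subst ht0
      have hP : ((X 0, Y 0) : ℂ × ℂ) = P := by
        rw [h.X0, h.Y0]
      have hex : ∃ a : ℝ, ∃ r' X' Y' k', IsChart f (X 0, Y 0) r' X' Y' k' ∧
          a = Real.log (rhoC U X' Y' 0) - 2 * Real.log ‖k' 0‖ :=
        ⟨_, r, X, Y, k, by rw [hP]; exact h, rfl⟩
      rw [vfunV, if_neg hY, dif_pos hex]
      obtain ⟨r', X', Y', k', h', ha⟩ := hex.choose_spec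
      rw [ha]
      rw [hP] at h'
      exact vfun_unique hf hs hU h' h
  · intro O X Y h t ht hY hX
    rw [vfunV, if_pos hY, vfun_K hf hU h ht hY]
    have hk : ‖deriv X t‖ ≠ 0 := norm_ne_zero_iff.2 hX
    have hy : ‖Y t‖ ≠ 0 := norm_ne_zero_iff.2 hY
    have hQ := (vfun_Q_pos hf hU hY (h.eqn t ht)).ne'
    rw [norm_div, Real.log_mul (pow_ne_zero 2 hk) hQ, Real.log_pow, Real.log_div hk hy]
    push_cast
    ring

end MP_32c225_ag
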