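import Pool.Agent.Lib_MP_32c225_ag.Bridge

open scoped ComplexConjugate Topology ContDiff LinearAlgebra.Projectivization ENNReal
open Laplacian Metric Set MeasureTheory

namespace MP_32c225_ag

theorem vol_lagrange (a b c d e a' b' c' d' e' : ℂ) :
    ‖d * e' - e * d'‖ ^ 2 ≤ sqNorm ![a, b, c, d, e] * sqNorm ![a', b', c', d', e'] -
      ‖∑ i, conj (![a, b, c, d, e] i) * ![a', b', c', d', e'] i‖ ^ 2 := by
  have key : sqNorm ![a, b, c, d, e] * sqNorm ![a', b', c', d', e'] -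
      ‖∑ i, conj (![a, b, c, d, e] i) * ![a', b', c', d', e'] i‖ ^ 2 =
      ‖d * e' - e * d'‖ ^ 2 + (‖a * b' - b * a'‖ ^ 2 + ‖a * c' - c * a'‖ ^ 2 +
        ‖a * d' - d * a'‖ ^ 2 + ‖a * e' - e * a'‖ ^ 2 + ‖b * c' - c * b'‖ ^ 2 +
        ‖b * d' - d * b'‖ ^ 2 + ‖b * e' - e * b'‖ ^ 2 + ‖c * d' - d * c'‖ ^ 2 +
        ‖c * e' - e * c'‖ ^ 2) := by
    simp only [sqNorm, Fin.sum_univ_five, Matrix.cons_val_zero, Matrix.cons_val_one,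
      Matrix.cons_val, Complex.sq_norm, Complex.normSq_apply, Complex.add_re, Complex.add_im,
      Complex.sub_re, Complex.sub_im, Complex.mul_re, Complex.mul_im, Complex.conj_re,
      Complex.conj_im]
    ring
  rw [key]
  have : 0 ≤ (‖a * b' - b * a'‖ ^ 2 + ‖a * c' - c * a'‖ ^ 2 +
        ‖a * d' - d * a'‖ ^ 2 + ‖a * e' - e * a'‖ ^ 2 + ‖b * c' - c * b'‖ ^ 2 +
        ‖b * d' - d * b'‖ ^ 2 + ‖b * e' - e * b'‖ ^ 2 + ‖c * d' - d * c'‖ ^ 2 +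
        ‖c * e' - e * c'‖ ^ 2) := by positivity
  linarith

theorem vol_deriv_fP (μ : ℝ) (x : ℂ) :
    deriv (fP μ) x = (2 * x - 1) * (x ^ 3 - (μ : ℂ) ^ 12) + x * (x - 1) * (3 * x ^ 2) := by
  have h : HasDerivAt (fP μ)
      ((1 * (x - 1) + x * 1) * (x ^ 3 - (μ : ℂ) ^ 12) + x * (x - 1) * (3 * x ^ 2)) x := by
    have h1 : HasDerivAt (fun x : ℂ => x) 1 x := hasDerivAt_id x
    have h2 : HasDerivAt (fun x : ℂ => x - 1) 1 x := h1.sub_const 1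
    have h3 : HasDerivAt (fun x : ℂ => x ^ 3 - (μ : ℂ) ^ 12) (3 * x ^ 2) x := by
      simpa using (hasDerivAt_pow 3 x).sub_const ((μ : ℂ) ^ 12)
    exact (h1.mul h2).mul h3
  rw [h.deriv]
  ring

theorem vol_density {μ : ℝ} (hμ : 4 ≤ μ) {x y : ℂ} (h1 : μ ^ 3 ≤ ‖x‖) (h2 : ‖x‖ ≤ 2 * μ ^ 3)
    (hy : y ^ 2 = fP μ x) :
    (960000 * μ ^ 6)⁻¹ ≤ fsDensity (vec 1 x y)
      ![0, 1, 2 * x, 3 * x ^ 2, deriv (fP μ) x / (2 * y)] := by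
  have hμ0 : (0 : ℝ) < μ := by linarith
  have hμ3 : (64 : ℝ) ≤ μ ^ 3 := by
    calc (64 : ℝ) = 4 ^ 3 := by norm_num
      _ ≤ μ ^ 3 := by gcongr
  obtain ⟨M, hM⟩ : ∃ M : ℝ, M = μ ^ 3 := ⟨_, rfl⟩
  have h12 : μ ^ 12 = M ^ 4 := by rw [hM]; ring
  have h6 : μ ^ 6 = M ^ 2 := by rw [hM]; ring
  rw [← hM] at h1 h2 hμ3
  have hM0 : 0 < M := by linarith
  obtain ⟨r, hr⟩ : ∃ r : ℝ, r = ‖x‖ := ⟨_, rfl⟩
  rw [← hr] at h1 h2
  have hr0 : 0 < r := by linarith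
  have nL : ‖(μ : ℂ) ^ 12‖ = M ^ 4 := by
    rw [norm_pow, Complex.norm_real, Real.norm_of_nonneg hμ0.le, h12]
  -- `|x^3 - L|`
  have c1 : ‖x ^ 3 - (μ : ℂ) ^ 12‖ ≤ 2 * M ^ 4 := by
    calc ‖x ^ 3 - (μ : ℂ) ^ 12‖ ≤ ‖x ^ 3‖ + ‖(μ : ℂ) ^ 12‖ := norm_sub_le _ _
      _ = r ^ 3 + M ^ 4 := by rw [norm_pow, nL, ← hr]
      _ ≤ (2 * M) ^ 3 + M ^ 4 := by gcongr
      _ ≤ 2 * M ^ 4 := by nlinarith [pow_pos hM0 3]
  have c2 : (7 / 8) * M ^ 4 ≤ ‖x ^ 3 - (μ : ℂ) ^ 12‖ := by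
    have : ‖(μ : ℂ) ^ 12‖ - ‖x ^ 3‖ ≤ ‖x ^ 3 - (μ : ℂ) ^ 12‖ := by
      rw [norm_sub_rev]; exact norm_sub_norm_le _ _
    rw [nL, norm_pow, ← hr] at this
    have h3 : r ^ 3 ≤ (2 * M) ^ 3 := by gcongr
    nlinarith [pow_pos hM0 3]
  have c3 : ‖x - 1‖ ≤ (65 / 64) * r := by
    have := norm_sub_le x 1
    rw [norm_one, ← hr] at this
    linarith
  have c4 : (15 / 8) * r ≤ ‖-2 * x + 5 / 2‖ := by
    have h := norm_sub_norm_le (2 * x) (5 / 2)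
    have e1 : ‖(2 : ℂ) * x‖ = 2 * r := by rw [norm_mul, ← hr]; simp
    have e2 : ‖(5 / 2 : ℂ)‖ = 5 / 2 := by norm_num
    have e3 : ‖-2 * x + 5 / 2‖ = ‖2 * x - 5 / 2‖ := by
      rw [← norm_neg]; congr 1; ring
    rw [e3]
    rw [e1, e2] at h
    linarith
  -- `|y|^2`
  have c5 : ‖y‖ ^ 2 ≤ 12 * M ^ 6 := by
    rw [← norm_pow, hy, fP, norm_mul, norm_mul, ← hr]
    have : ‖x - 1‖ ≤ 3 * M := by linarith
    calc r * ‖x - 1‖ * ‖x ^ 3 - (μ : ℂ) ^ 12‖ ≤ (2 * M) * (3 * M) * (2 * M ^ 4) := by gcongr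
      _ = 12 * M ^ 6 := by ring
  have c6 : 0 < ‖y‖ := by
    rw [norm_pos_iff]
    rintro rfl
    have h0 : fP μ x = 0 := by rw [← hy]; ring
    rw [fP] at h0
    rcases mul_eq_zero.1 h0 with h0 | h0
    · rcases mul_eq_zero.1 h0 with h0 | h0
      · rw [h0, norm_zero] at hr; linarith
      · have : x = 1 := by linear_combination h0
        rw [this, norm_one] at hr; linarith
    · rw [h0, norm_zero] at c2
      have := pow_pos hM0 4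
      linarith
  have hy0 : y ≠ 0 := norm_pos_iff.1 c6
  have c7 : sqNorm (vec 1 x y) ≤ 100 * M ^ 6 := by
    have e : sqNorm (vec 1 x y) = 1 + r ^ 2 + r ^ 4 + r ^ 6 + ‖y‖ ^ 2 := by
      simp only [sqNorm, vec, Fin.sum_univ_five, Matrix.cons_val_zero, Matrix.cons_val_one,
        Matrix.cons_val, norm_mul, norm_pow, norm_one, hr]
      ring
    rw [e]
    have a1 : r ^ 2 ≤ (2 * M) ^ 2 := by gcongr
    have a2 : r ^ 4 ≤ (2 * M) ^ 4 := by gcongr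
    have a3 : r ^ 6 ≤ (2 * M) ^ 6 := by gcongr
    have hM1 : 1 ≤ M := by linarith
    have b1 : 1 ≤ M ^ 6 := one_le_pow₀ hM1
    have b2 : M ^ 2 ≤ M ^ 6 := pow_le_pow_right₀ hM1 (by norm_num)
    have b3 : M ^ 4 ≤ M ^ 6 := pow_le_pow_right₀ hM1 (by norm_num)
    nlinarith
  have c8 : 0 < sqNorm (vec 1 x y) := by
    have e : sqNorm (vec 1 x y) = 1 + r ^ 2 + r ^ 4 + r ^ 6 + ‖y‖ ^ 2 := by
      simp only [sqNorm, vec, Fin.sum_univ_five, Matrix.cons_val_zero, Matrix.cons_val_one,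
        Matrix.cons_val, norm_mul, norm_pow, norm_one, hr]
      ring
    rw [e]; positivity
  -- the Wronskian
  obtain ⟨d, hd⟩ : ∃ d : ℂ, d = deriv (fP μ) x := ⟨_, rfl⟩
  have w0 : x ^ 3 * (d / (2 * y)) - y * (3 * x ^ 2) =
      x ^ 3 * ((x ^ 3 - (μ : ℂ) ^ 12) * (-2 * x + 5 / 2) + (3 / 2) * x ^ 3 * (x - 1)) / y := by
    rw [eq_div_iff hy0]
    have e1 : (x ^ 3 * (d / (2 * y)) - y * (3 * x ^ 2)) * y =
        x ^ 3 * d / 2 - 3 * x ^ 2 * y ^ 2 := by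
      field_simp
    rw [e1, hy, hd, vol_deriv_fP, fP]
    ring
  have w1 : M ^ 8 / 4 ≤
      ‖x ^ 3 * ((x ^ 3 - (μ : ℂ) ^ 12) * (-2 * x + 5 / 2) + (3 / 2) * x ^ 3 * (x - 1))‖ := by
    rw [norm_mul, norm_pow, ← hr]
    have t1 : (7 / 8 * M ^ 4) * (15 / 8 * r) ≤ ‖(x ^ 3 - (μ : ℂ) ^ 12) * (-2 * x + 5 / 2)‖ := by
      rw [norm_mul]
      gcongr
    have t2 : ‖(3 / 2) * x ^ 3 * (x - 1)‖ ≤ (3 / 2) * (2 * M) ^ 3 * ((65 / 64) * r) := by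
      rw [norm_mul, norm_mul, norm_pow, ← hr]
      have : ‖(3 / 2 : ℂ)‖ = 3 / 2 := by norm_num
      rw [this]
      gcongr
    have t3 : ‖(x ^ 3 - (μ : ℂ) ^ 12) * (-2 * x + 5 / 2)‖ - ‖(3 / 2) * x ^ 3 * (x - 1)‖ ≤
        ‖(x ^ 3 - (μ : ℂ) ^ 12) * (-2 * x + 5 / 2) + (3 / 2) * x ^ 3 * (x - 1)‖ := by
      have := norm_sub_norm_le ((x ^ 3 - (μ : ℂ) ^ 12) * (-2 * x + 5 / 2))
        (-((3 / 2) * x ^ 3 * (x - 1)))
      rwa [norm_neg, sub_neg_eq_add] at this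
    have t4 : (1 / 4) * (M ^ 4 * r) ≤
        ‖(x ^ 3 - (μ : ℂ) ^ 12) * (-2 * x + 5 / 2) + (3 / 2) * x ^ 3 * (x - 1)‖ := by
      have : 64 * (M ^ 3 * r) ≤ M * (M ^ 3 * r) := by gcongr
      nlinarith
    have t5 : M ^ 3 ≤ r ^ 3 := by gcongr
    calc M ^ 8 / 4 = M ^ 3 * ((1 / 4) * (M ^ 4 * M)) := by ring
      _ ≤ r ^ 3 * ((1 / 4) * (M ^ 4 * r)) := by gcongr
      _ ≤ _ := by gcongr
  have w2 : (M ^ 8 / 4) ^ 2 / (12 * M ^ 6) ≤ ‖x ^ 3 * (d / (2 * y)) - y * (3 * x ^ 2)‖ ^ 2 := by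
    have e : ‖x ^ 3 * (d / (2 * y)) - y * (3 * x ^ 2)‖ ^ 2 =
        ‖x ^ 3 * ((x ^ 3 - (μ : ℂ) ^ 12) * (-2 * x + 5 / 2) + (3 / 2) * x ^ 3 * (x - 1))‖ ^ 2 /
          ‖y‖ ^ 2 := by
      rw [w0, norm_div, div_pow]
    rw [e]
    gcongr
  have L := vol_lagrange 1 x (x ^ 2) (x ^ 3) y 0 1 (2 * x) (3 * x ^ 2) (d / (2 * y))
  have hv : vec 1 x y = ![1, x, x ^ 2, x ^ 3, y] := by
    simp [vec]
  rw [fsDensity, ← hd]
  rw [hv] at c7 c8 ⊢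
  have w3 := w2.trans L
  calc (960000 * μ ^ 6)⁻¹ = 2 * ((M ^ 8 / 4) ^ 2 / (12 * M ^ 6)) / (100 * M ^ 6) ^ 2 := by
        rw [h6]; field_simp; norm_num
    _ ≤ _ := by
        have hnn : 0 ≤ (M ^ 8 / 4) ^ 2 / (12 * M ^ 6) := by positivity
        apply div_le_div₀
        · linarith [hnn.trans w3]
        · linarith
        · positivity
        · gcongr

theorem vol_lower : ∃ V₀ > (0 : ℝ), ∃ μ₀ : ℝ, 1 ≤ μ₀ ∧ ∀ μ ≥ μ₀,
    ∀ E : Set (ℙ ℂ (Fin 5 → ℂ)), (∀ x y : ℂ, x ∈ ball (((3 / 2) * μ ^ 3 : ℝ) : ℂ) (μ ^ 3 / 2) →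
      y ^ 2 = fP μ x → pt x y ∈ E) → ENNReal.ofReal V₀ ≤ vol (zP μ) E := by
  refine ⟨Real.pi / 3840000, by positivity, 4, by norm_num, ?_⟩
  intro μ hμ E hE
  have hμ0 : (0 : ℝ) < μ := by linarith
  set B := ball (((3 / 2) * μ ^ 3 : ℝ) : ℂ) (μ ^ 3 / 2) with hB
  have hvol : volume B = ENNReal.ofReal (μ ^ 3 / 2) ^ 2 * NNReal.pi := Complex.volume_ball _ _
  have key : ∀ x ∈ B, ENNReal.ofReal ((960000 * μ ^ 6)⁻¹) ≤
      ∑' y : {y : ℂ // y ^ 2 = sextic (zP μ) 1 x},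
        E.indicator (fun _ => ENNReal.ofReal (fsDensity (vec 1 x y)
          ![0, 1, 2 * x, 3 * x ^ 2, deriv (sextic (zP μ) 1) x / (2 * y)])) (pt x y) := by
    intro x hx
    obtain ⟨y, hy⟩ := IsAlgClosed.exists_pow_nat_eq (fP μ x) (n := 2) (by norm_num)
    have hy' : y ^ 2 = sextic (zP μ) 1 x := by rw [sextic_zP_one, hy]
    refine le_trans ?_ (ENNReal.le_tsum (⟨y, hy'⟩ : {y : ℂ // y ^ 2 = sextic (zP μ) 1 x}))
    rw [Set.indicator_of_mem (hE x y hx hy)]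
    apply ENNReal.ofReal_le_ofReal
    rw [show deriv (sextic (zP μ) 1) x = deriv (fP μ) x by rw [sextic_zP_one]]
    have hx' : ‖x - (((3 / 2) * μ ^ 3 : ℝ) : ℂ)‖ < μ ^ 3 / 2 := by
      rw [hB, mem_ball, dist_eq_norm] at hx; exact hx
    have hc : ‖(((3 / 2) * μ ^ 3 : ℝ) : ℂ)‖ = (3 / 2) * μ ^ 3 := by
      rw [Complex.norm_real, Real.norm_of_nonneg (by positivity)]
    apply vol_density hμ _ _ hy
    · have := norm_sub_norm_le (((3 / 2) * μ ^ 3 : ℝ) : ℂ) x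
      rw [hc, norm_sub_rev] at this
      linarith
    · have := norm_sub_norm_le x (((3 / 2) * μ ^ 3 : ℝ) : ℂ)
      rw [hc] at this
      linarith
  rw [vol]
  calc ENNReal.ofReal (Real.pi / 3840000)
      = ENNReal.ofReal ((960000 * μ ^ 6)⁻¹) * volume B := by
        rw [hvol, ← ENNReal.ofReal_pow (by positivity)]
        have : (NNReal.pi : ENNReal) = ENNReal.ofReal Real.pi := by
          rw [ENNReal.ofReal, ← NNReal.coe_real_pi, Real.toNNReal_coe]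
        rw [this, ← ENNReal.ofReal_mul (by positivity), ← ENNReal.ofReal_mul (by positivity)]
        congr 1
        field_simp
        norm_num
    _ = ∫⁻ _ in B, ENNReal.ofReal ((960000 * μ ^ 6)⁻¹) := by
        rw [setLIntegral_const]
    _ ≤ ∫⁻ x in B, ∑' y : {y : ℂ // y ^ 2 = sextic (zP μ) 1 x},
        E.indicator (fun _ => ENNReal.ofReal (fsDensity (vec 1 x y)
          ![0, 1, 2 * x, 3 * x ^ 2, deriv (sextic (zP μ) 1) x / (2 * y)])) (pt x y) :=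
        setLIntegral_mono' measurableSet_ball key
    _ ≤ _ := setLIntegral_le_lintegral _ _

end MP_32c225_ag
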