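import Pool.Agent.Lib_MP_32c225_ag.Compare
import Pool.Agent.Lib_MP_32c225_ag.VFun
import Pool.Agent.Lib_MP_32c225_ag.Harm
import Pool.Agent.Lib_MP_32c225_ag.Curv
import Pool.Agent.Lib_MP_32c225_ag.Ineq
import Pool.Agent.Lib_MP_32c225_ag.Upper
import Pool.Agent.Lib_MP_32c225_ag.Vol

open scoped ComplexConjugate Topology ContDiff LinearAlgebra.Projectivization ENNReal
open Laplacian Metric Set

noncomputable section

namespace MP_32c225_ag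

theorem phi_pos (x y : ℂ) : 0 < phi x y := by
  unfold phi; positivity

theorem log_phi_trans {x y : ℂ} (hx : x ≠ 0) :
    Real.log (phi x y) = Real.log (phi x⁻¹ (y / x ^ 3)) + 6 * Real.log ‖x‖ := by
  have hx' : 0 < ‖x‖ := norm_pos_iff.2 hx
  have h1 : phi x y = phi x⁻¹ (y / x ^ 3) * ‖x‖ ^ 6 := by
    unfold phi
    rw [norm_inv, norm_div, norm_pow]
    field_simp
    ring
  rw [h1, Real.log_mul (phi_pos _ _).ne' (by positivity), Real.log_pow]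
  norm_num

theorem Lg_arg_pos {m β : ℝ} (hm : 0 < m) (hβ : 0 < β) (x y : ℂ) :
    0 < (m + ‖x‖ ^ 2) ^ 3 + β * ‖y‖ ^ 2 := by positivity

theorem cont_Lg {m β : ℝ} (hm : 0 < m) (hβ : 0 < β) :
    Continuous (fun P : ℂ × ℂ => Lg m β P.1 P.2) := by
  unfold Lg
  refine Continuous.log ?_ fun P => (Lg_arg_pos hm hβ _ _).ne'
  fun_prop

theorem psi_trans {c μ : ℝ} (hμ : 0 < μ) {x y : ℂ} (hx : x ≠ 0) :
    psiF c μ x y = psiG c μ x⁻¹ (y / x ^ 3) + 2 * Real.log ‖x‖ := by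
  have hx' : 0 < ‖x‖ := norm_pos_iff.2 hx
  have h1 : Lg 1 (μ ^ 12)⁻¹ x y = Lg 1 (μ ^ 12)⁻¹ x⁻¹ (y / x ^ 3) + 6 * Real.log ‖x‖ := by
    unfold Lg
    have h : (1 + ‖x‖ ^ 2) ^ 3 + (μ ^ 12)⁻¹ * ‖y‖ ^ 2 =
        ((1 + ‖x⁻¹‖ ^ 2) ^ 3 + (μ ^ 12)⁻¹ * ‖y / x ^ 3‖ ^ 2) * ‖x‖ ^ 6 := by
      rw [norm_inv, norm_div, norm_pow]
      field_simp
      ring
    rw [h, Real.log_mul (Lg_arg_pos one_pos (by positivity) _ _).ne' (by positivity), Real.log_pow]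
    norm_num
  have h2 : Lg (μ ^ 8) (μ ^ 4) x y - 24 * Real.log μ =
      Lg (μ ^ 8)⁻¹ (μ ^ 20)⁻¹ x⁻¹ (y / x ^ 3) + 6 * Real.log ‖x‖ := by
    unfold Lg
    have h : (μ ^ 8 + ‖x‖ ^ 2) ^ 3 + μ ^ 4 * ‖y‖ ^ 2 =
        (((μ ^ 8)⁻¹ + ‖x⁻¹‖ ^ 2) ^ 3 + (μ ^ 20)⁻¹ * ‖y / x ^ 3‖ ^ 2) * ‖x‖ ^ 6 * μ ^ 24 := by
      rw [norm_inv, norm_div, norm_pow]
      field_simp
      ring
    have h0 := Lg_arg_pos (m := (μ ^ 8)⁻¹) (β := (μ ^ 20)⁻¹) (by positivity) (by positivity) x⁻¹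
      (y / x ^ 3)
    rw [h, Real.log_mul (by positivity) (by positivity), Real.log_mul h0.ne' (by positivity),
      Real.log_pow, Real.log_pow]
    push_cast
    ring
  unfold psiF psiG
  rw [h1, h2]
  ring

theorem psiF_zero {c μ : ℝ} : psiF c μ 0 0 = c + 7 * Real.log μ := by
  unfold psiF Lg
  simp only [norm_zero]
  have h1 : ((1 : ℝ) + 0 ^ 2) ^ 3 + (μ ^ 12)⁻¹ * 0 ^ 2 = 1 := by norm_num
  have h2 : (μ ^ 8 + 0 ^ 2) ^ 3 + μ ^ 4 * (0 : ℝ) ^ 2 = μ ^ 24 := by ring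
  rw [h1, h2, Real.log_pow]
  simp

theorem lap_psiF {c μ : ℝ} (hμ : 0 < μ) {f : ℂ → ℂ} {P : ℂ × ℂ} {r : ℝ} {X Y k : ℂ → ℂ}
    (hc : IsChart f P r X Y k) :
    ContDiffAt ℝ 2 (fun s => psiF c μ (X s) (Y s)) 0 ∧
      (1 / 2) * Δ (fun s => psiF c μ (X s) (Y s)) 0 = ‖k 0‖ ^ 2 *
        ((1 / 12) * curv 1 (μ ^ 12)⁻¹ P.1 P.2 (deriv f P.1) +
          (1 / 4) * curv (μ ^ 8) (μ ^ 4) P.1 P.2 (deriv f P.1)) := by
  obtain ⟨a1, a2⟩ := lap_Lg hc (m := 1) (β := (μ ^ 12)⁻¹) one_pos (by positivity)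
  obtain ⟨b1, b2⟩ := lap_Lg hc (m := μ ^ 8) (β := μ ^ 4) (by positivity) (by positivity)
  have e : (fun s => psiF c μ (X s) (Y s)) =
      (fun _ => c + 7 * Real.log μ - 6 * Real.log μ) +
        ((1 / 12 : ℝ) • (fun s => Lg 1 (μ ^ 12)⁻¹ (X s) (Y s)) +
        (1 / 4 : ℝ) • (fun s => Lg (μ ^ 8) (μ ^ 4) (X s) (Y s))) := by
    funext s
    simp only [psiF, Pi.add_apply, Pi.smul_apply, smul_eq_mul]
    ring
  have a3 : ContDiffAt ℝ 2 ((1 / 12 : ℝ) • (fun s => Lg 1 (μ ^ 12)⁻¹ (X s) (Y s))) 0 :=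
    a1.const_smul (1 / 12 : ℝ)
  have b3 : ContDiffAt ℝ 2 ((1 / 4 : ℝ) • (fun s => Lg (μ ^ 8) (μ ^ 4) (X s) (Y s))) 0 :=
    b1.const_smul (1 / 4 : ℝ)
  have c3 : ContDiffAt ℝ 2 (fun _ : ℂ => c + 7 * Real.log μ - 6 * Real.log μ) 0 :=
    contDiffAt_const
  have d3 := ContDiffAt.add a3 b3
  have e3 : ContDiffAt ℝ 2 ((1 / 12 : ℝ) • (fun s => Lg 1 (μ ^ 12)⁻¹ (X s) (Y s)) +
      (1 / 4 : ℝ) • (fun s => Lg (μ ^ 8) (μ ^ 4) (X s) (Y s))) 0 := d3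
  rw [e]
  refine ⟨c3.add e3, ?_⟩
  rw [c3.laplacian_add e3, a3.laplacian_add b3, InnerProductSpace.laplacian_smul _ a1,
    InnerProductSpace.laplacian_smul _ b1, InnerProductSpace.laplacian_const]
  simp only [Pi.zero_apply, smul_eq_mul, zero_add]
  linear_combination (1 / 12) * a2 + (1 / 4) * b2

theorem lap_psiG {c μ : ℝ} (hμ : 0 < μ) {f : ℂ → ℂ} {P : ℂ × ℂ} {r : ℝ} {X Y k : ℂ → ℂ}
    (hc : IsChart f P r X Y k) :
    ContDiffAt ℝ 2 (fun s => psiG c μ (X s) (Y s)) 0 ∧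
      (1 / 2) * Δ (fun s => psiG c μ (X s) (Y s)) 0 = ‖k 0‖ ^ 2 *
        ((1 / 12) * curv 1 (μ ^ 12)⁻¹ P.1 P.2 (deriv f P.1) +
          (1 / 4) * curv (μ ^ 8)⁻¹ (μ ^ 20)⁻¹ P.1 P.2 (deriv f P.1)) := by
  obtain ⟨a1, a2⟩ := lap_Lg hc (m := 1) (β := (μ ^ 12)⁻¹) one_pos (by positivity)
  obtain ⟨b1, b2⟩ := lap_Lg hc (m := (μ ^ 8)⁻¹) (β := (μ ^ 20)⁻¹) (by positivity) (by positivity)
  have e : (fun s => psiG c μ (X s) (Y s)) =
      (fun _ => c + 7 * Real.log μ) +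
        ((1 / 12 : ℝ) • (fun s => Lg 1 (μ ^ 12)⁻¹ (X s) (Y s)) +
        (1 / 4 : ℝ) • (fun s => Lg (μ ^ 8)⁻¹ (μ ^ 20)⁻¹ (X s) (Y s))) := by
    funext s
    simp only [psiG, Pi.add_apply, Pi.smul_apply, smul_eq_mul]
    ring
  have a3 : ContDiffAt ℝ 2 ((1 / 12 : ℝ) • (fun s => Lg 1 (μ ^ 12)⁻¹ (X s) (Y s))) 0 :=
    a1.const_smul (1 / 12 : ℝ)
  have b3 : ContDiffAt ℝ 2 ((1 / 4 : ℝ) • (fun s => Lg (μ ^ 8)⁻¹ (μ ^ 20)⁻¹ (X s) (Y s))) 0 :=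
    b1.const_smul (1 / 4 : ℝ)
  have c3 : ContDiffAt ℝ 2 (fun _ : ℂ => c + 7 * Real.log μ) 0 := contDiffAt_const
  have d3 := ContDiffAt.add a3 b3
  have e3 : ContDiffAt ℝ 2 ((1 / 12 : ℝ) • (fun s => Lg 1 (μ ^ 12)⁻¹ (X s) (Y s)) +
      (1 / 4 : ℝ) • (fun s => Lg (μ ^ 8)⁻¹ (μ ^ 20)⁻¹ (X s) (Y s))) 0 := d3
  rw [e]
  refine ⟨c3.add e3, ?_⟩
  rw [c3.laplacian_add e3, a3.laplacian_add b3, InnerProductSpace.laplacian_smul _ a1,
    InnerProductSpace.laplacian_smul _ b1, InnerProductSpace.laplacian_const]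
  simp only [Pi.zero_apply, smul_eq_mul, zero_add]
  linear_combination (1 / 12) * a2 + (1 / 4) * b2

/-- lower bound of the density at the branch point `(0, 0)` -/
theorem v_lower : ∃ c μ₀ : ℝ, 1 ≤ μ₀ ∧ ∀ μ ≥ μ₀, ∀ Uf Ug v v', TwoSided (fP μ) (gP μ) Uf Ug →
    IsV (fP μ) Uf v → IsV (gP μ) Ug v' → c + 7 * Real.log μ ≤ v 0 0 := by
  obtain ⟨c₀, μ₀, h1, h2⟩ := ineqF
  refine ⟨min c₀ (-3), μ₀, h1, fun μ hμ Uf Ug v v' H hv hv' => ?_⟩
  have hμ1 : 1 ≤ μ := h1.trans hμ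
  have hμ0 : 0 < μ := by linarith
  set c := min c₀ (-3) with hcdef
  have key := compare H hv hv' (ψ := psiF c μ) (ψ' := psiG c μ) ?_ ?_
    (fun x y hx _ => psi_trans hμ0 hx) ?_ ?_ (0, 0) ?_
  · have h3 := psiF_zero (c := c) (μ := μ)
    linarith
  · unfold psiF
    have ha := (cont_Lg (m := 1) (β := (μ ^ 12)⁻¹) one_pos (by positivity))
    have hb := (cont_Lg (m := μ ^ 8) (β := μ ^ 4) (by positivity) (by positivity))
    exact ((continuous_const.add (continuous_const.mul ha)).add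
      (continuous_const.mul (hb.sub continuous_const))).continuousOn
  · unfold psiG
    have ha := (cont_Lg (m := 1) (β := (μ ^ 12)⁻¹) one_pos (by positivity))
    have hb := (cont_Lg (m := (μ ^ 8)⁻¹) (β := (μ ^ 20)⁻¹) (by positivity) (by positivity))
    exact ((continuous_const.add (continuous_const.mul ha)).add
      (continuous_const.mul hb)).continuousOn
  · intro P r X Y k hc
    obtain ⟨a1, a2⟩ := lap_psiF (c := c) hμ0 hc
    refine ⟨a1, ?_⟩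
    rw [a2, mul_comm]
    refine mul_le_mul_of_nonneg_left ?_ (by positivity)
    have hP : P.2 ^ 2 = fP μ P.1 := by
      have := hc.eqn 0 (mem_ball_self hc.r_pos)
      rwa [hc.X0, hc.Y0] at this
    refine le_trans (Real.exp_le_exp.2 ?_) (h2 μ hμ P.1 P.2 hP)
    unfold psiF
    have : c ≤ c₀ := min_le_left _ _
    linarith
  · intro r X Y k hc
    obtain ⟨a1, a2⟩ := lap_psiG (c := c) hμ0 hc
    refine ⟨a1, ?_⟩
    rw [a2, mul_comm]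
    refine mul_le_mul_of_nonneg_left ?_ (by positivity)
    exact ineqG (min_le_right _ _) hμ1
  · show (0 : ℂ) ^ 2 = fP μ 0
    simp [fP]

/-- upper bound of the potential -/
theorem u_upper : ∃ A μ₀ : ℝ, 1 ≤ μ₀ ∧ ∀ μ ≥ μ₀, ∀ Uf Ug, TwoSided (fP μ) (gP μ) Uf Ug →
    (∀ Q ∈ Crv (fP μ), Uf Q.1 Q.2 ≤ 0) → ∀ x y, y ^ 2 = fP μ x → μ ^ 3 ≤ ‖x‖ →
      ‖x‖ ≤ 2 * μ ^ 3 → Uf x y ≤ A - Real.log μ := by
  obtain ⟨c, μ₁, h1, h2⟩ := v_lower
  obtain ⟨μ₂, h3, h4⟩ := upper_V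
  refine ⟨Real.log 16 + Real.log 54 - c, max μ₁ μ₂, h1.trans (le_max_left _ _),
    fun μ hμ Uf Ug H hU x y hy hx1 hx2 => ?_⟩
  have hμ1 : μ₁ ≤ μ := (le_max_left _ _).trans hμ
  have hμ2 : μ₂ ≤ μ := (le_max_right _ _).trans hμ
  have hμ' : 1 ≤ μ := h1.trans hμ1
  have hμ0 : 0 < μ := by linarith
  obtain ⟨v, hv⟩ := exists_V H.df H.sf H.kef
  obtain ⟨v', hv'⟩ := exists_V H.dg H.sg H.keg
  have hlow := h2 μ hμ1 Uf Ug v v' H hv hv'
  have hup := h4 μ hμ2 Uf v H.kef hv x y hy hx1 hx2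
  have hlogc : Continuous (fun P : ℂ × ℂ => (1 / 3) * Real.log (phi P.1 P.2)) := by
    refine continuous_const.mul (Continuous.log ?_ fun P => (phi_pos _ _).ne')
    unfold phi
    fun_prop
  have hW : Glued (fP μ) (gP μ)
      (fun x y => v x y - (1 / 3) * Real.log (phi x y) - Uf x y)
      (fun x y => v' x y - (1 / 3) * Real.log (phi x y) - Ug x y) := by
    refine ⟨?_, ?_, ?_⟩
    · exact ((cont_V H.df H.sf H.kef hv).sub hlogc.continuousOn).sub (cont_U H.df H.sf H.kef)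
    · exact ((cont_V H.dg H.sg H.keg hv').sub hlogc.continuousOn).sub (cont_U H.dg H.sg H.keg)
    · intro x y hx hy
      show v x y - (1 / 3) * Real.log (phi x y) - Uf x y = v' x⁻¹ (y / x ^ 3) -
        (1 / 3) * Real.log (phi x⁻¹ (y / x ^ 3)) - Ug x⁻¹ (y / x ^ 3)
      rw [trans_V H hv hv' hx hy, log_phi_trans hx, H.uu x y hx hy]
      ring
  have hmin := harm_min H hW (fun P r X Y k hc t ht => lap_W H.sf H.kef hv hc ht)
    (fun P r X Y k hc t ht => lap_W H.sg H.keg hv' hc ht) (x, y) hy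
  simp only [] at hmin
  have h00 : Real.log (phi 0 0) = 0 := by simp [phi]
  have hU0 : Uf 0 0 ≤ 0 := hU (0, 0) (by show (0 : ℂ) ^ 2 = fP μ 0; simp [fP])
  have hx0 : 0 < ‖x‖ := lt_of_lt_of_le (by positivity) hx1
  have hphi : 18 * Real.log μ ≤ Real.log (phi x y) := by
    rw [show (18 : ℝ) * Real.log μ = Real.log (μ ^ 18) by rw [Real.log_pow]; norm_num]
    apply Real.log_le_log (by positivity)
    have : (μ ^ 3) ^ 6 ≤ ‖x‖ ^ 6 := by gcongr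
    unfold phi
    nlinarith [sq_nonneg ‖x‖, sq_nonneg (‖x‖ ^ 2), sq_nonneg ‖y‖]
  have hlog1 : Real.log (16 / ‖x‖ ^ 2) ≤ Real.log 16 - 6 * Real.log μ := by
    rw [Real.log_div (by norm_num) (by positivity), Real.log_pow]
    have : Real.log (μ ^ 3) ≤ Real.log ‖x‖ := Real.log_le_log (by positivity) hx1
    rw [Real.log_pow] at this
    push_cast at this ⊢
    linarith
  have hfx : ‖fP μ x‖ ≤ 54 * μ ^ 18 := by
    unfold fP
    have e1 : ‖x - 1‖ ≤ ‖x‖ + 1 := by simpa using norm_sub_le x 1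
    have e2 : ‖x ^ 3 - (μ : ℂ) ^ 12‖ ≤ ‖x‖ ^ 3 + μ ^ 12 := by
      refine (norm_sub_le _ _).trans ?_
      rw [norm_pow, norm_pow, Complex.norm_real, Real.norm_of_nonneg hμ0.le]
    rw [norm_mul, norm_mul]
    have e3 : ‖x‖ + 1 ≤ 3 * μ ^ 3 := by
      have : 1 ≤ μ ^ 3 := one_le_pow₀ hμ'
      linarith
    have e4 : ‖x‖ ^ 3 + μ ^ 12 ≤ 9 * μ ^ 12 := by
      have e5 : ‖x‖ ^ 3 ≤ (2 * μ ^ 3) ^ 3 := by gcongr
      have e6 : μ ^ 9 ≤ μ ^ 12 := pow_le_pow_right₀ hμ' (by norm_num)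
      nlinarith
    calc ‖x‖ * ‖x - 1‖ * ‖x ^ 3 - (μ : ℂ) ^ 12‖ ≤ (2 * μ ^ 3) * (3 * μ ^ 3) * (9 * μ ^ 12) := by
          gcongr
          · exact e1.trans e3
          · exact e2.trans e4
      _ = _ := by ring
  have hlog2 : Real.log ‖fP μ x‖ ≤ Real.log 54 + 18 * Real.log μ := by
    rcases (norm_nonneg (fP μ x)).eq_or_lt with h | h
    · rw [← h, Real.log_zero]
      have := Real.log_nonneg hμ'
      have := Real.log_nonneg (show (1 : ℝ) ≤ 54 by norm_num)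
      linarith
    · refine (Real.log_le_log h hfx).trans ?_
      rw [Real.log_mul (by norm_num) (by positivity), Real.log_pow]
      norm_num
  rw [h00] at hmin
  linarith

theorem answer : Answer := by
  intro C hC α hα
  obtain ⟨A, μ₁, h1, h2⟩ := u_upper
  obtain ⟨V₀, hV, μ₂, h3, h4⟩ := vol_lower
  -- choose `s` large
  have hlim : Filter.Tendsto (fun s : ℝ => C * Real.exp (-(α * s))) Filter.atTop (𝓝 (C * 0)) := by
    refine Filter.Tendsto.const_mul _ ?_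
    exact Real.tendsto_exp_neg_atTop_nhds_zero.comp (Filter.tendsto_id.const_mul_atTop hα)
  rw [mul_zero] at hlim
  obtain ⟨s, ⟨hs1, hs2⟩, hs3⟩ := ((hlim.eventually_lt_const hV).and
    ((Filter.eventually_gt_atTop 0))).and (Filter.eventually_ge_atTop
      (Real.log (max 2 (max μ₁ μ₂)) - A - 1)) |>.exists
  set μ := Real.exp (s + A + 1) with hμdef
  have hμ : max 2 (max μ₁ μ₂) ≤ μ := by
    rw [← Real.log_le_log_iff (by positivity) (Real.exp_pos _), Real.log_exp]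
    linarith
  have hμ2 : 2 ≤ μ := (le_max_left _ _).trans hμ
  have hμa : μ₁ ≤ μ := ((le_max_left _ _).trans (le_max_right _ _)).trans hμ
  have hμb : μ₂ ≤ μ := ((le_max_right _ _).trans (le_max_right _ _)).trans hμ
  have hμ1 : 1 < μ := by linarith
  refine ⟨zP μ, zP_mem hμ1, s, hs2, fun u hu hsup => ?_⟩
  have H := bridge hμ1 hu
  have hmem : ∀ x y : ℂ, y ^ 2 = fP μ x → pt x y ∈ Curve (zP μ) := by
    intro x y hy
    refine ⟨1, x, y, vec_one_ne x y, ?_, rfl⟩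
    rw [hy, ← sextic_zP_one]
  have hval : ∀ x y : ℂ, onLift u (vec 1 x y) = u (pt x y) := by
    intro x y
    unfold onLift pt
    rw [dif_neg (vec_one_ne x y)]
  have hneg : ∀ Q ∈ Crv (fP μ), onLift u (vec 1 Q.1 Q.2) ≤ 0 := by
    intro Q hQ
    rw [hval]
    exact hsup.1 ⟨_, hmem _ _ hQ, rfl⟩
  have hup := h2 μ hμa _ _ H hneg
  have hvol := h4 μ hμb {P | P ∈ Curve (zP μ) ∧ u P < -s} ?_
  · refine lt_of_lt_of_le ?_ hvol
    exact (ENNReal.ofReal_lt_ofReal_iff hV).2 hs1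
  · intro x y hx hy
    refine ⟨hmem x y hy, ?_⟩
    rw [← hval]
    have hb : ‖x - (((3 / 2) * μ ^ 3 : ℝ) : ℂ)‖ < μ ^ 3 / 2 := by
      rw [← dist_eq_norm]; exact mem_ball.1 hx
    have hn : ‖((((3 / 2) * μ ^ 3 : ℝ) : ℂ))‖ = (3 / 2) * μ ^ 3 := by
      rw [Complex.norm_real, Real.norm_of_nonneg (by positivity)]
    have h5 : μ ^ 3 ≤ ‖x‖ := by
      have := norm_sub_norm_le (((3 / 2) * μ ^ 3 : ℝ) : ℂ) x
      rw [hn, norm_sub_rev] at this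
      linarith
    have h6 : ‖x‖ ≤ 2 * μ ^ 3 := by
      have := norm_sub_norm_le x (((3 / 2) * μ ^ 3 : ℝ) : ℂ)
      rw [hn] at this
      linarith
    have h7 := hup x y hy h5 h6
    have h8 : Real.log μ = s + A + 1 := by rw [hμdef, Real.log_exp]
    rw [h8] at h7
    linarith

end MP_32c225_ag
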