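import Pool.Agent.Lib_MP_32c225_ag.Side

/-!
Lower bounds of the curvature expressions `curv 1 μ⁻¹²` and `curv μ⁸ μ⁴` along the curve
`y² = fP μ x`.
-/

open Metric Set

namespace MP_32c225_ag

theorem curvN_nonneg {m β : ℝ} (hm : 0 ≤ m) (hβ : 0 ≤ β) (x y d : ℂ) : 0 ≤ curvN m β x y d := by
  unfold curvN
  positivity

theorem curv_nonneg {m β : ℝ} (hm : 0 ≤ m) (hβ : 0 ≤ β) (x y d : ℂ) : 0 ≤ curv m β x y d := by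
  unfold curv
  have := curvN_nonneg hm hβ x y d
  positivity

namespace Low

theorem curvN_first {m β : ℝ} (hm : 0 ≤ m) (hβ : 0 ≤ β) (x y d : ℂ) :
    3 * m * ‖y‖ ^ 2 * (m + ‖x‖ ^ 2) ^ 4 ≤ curvN m β x y d := by
  unfold curvN
  have : 0 ≤ β * (m ^ 3 * ‖d / 2‖ ^ 2 + 3 * m ^ 2 * ‖x * d / 2 - y ^ 2‖ ^ 2 +
      3 * m * ‖x‖ ^ 2 * ‖x * d / 2 - 2 * y ^ 2‖ ^ 2 + ‖x‖ ^ 4 * ‖x * d / 2 - 3 * y ^ 2‖ ^ 2) := by
    positivity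
  linarith

theorem curvN_second {m β : ℝ} (hm : 0 ≤ m) (hβ : 0 ≤ β) (x y d : ℂ) :
    β * m ^ 3 * ‖d / 2‖ ^ 2 ≤ curvN m β x y d := by
  unfold curvN
  have h1 : 0 ≤ 3 * m * ‖y‖ ^ 2 * (m + ‖x‖ ^ 2) ^ 4 := by positivity
  have h2 : 0 ≤ β * (3 * m ^ 2 * ‖x * d / 2 - y ^ 2‖ ^ 2 +
      3 * m * ‖x‖ ^ 2 * ‖x * d / 2 - 2 * y ^ 2‖ ^ 2 + ‖x‖ ^ 4 * ‖x * d / 2 - 3 * y ^ 2‖ ^ 2) := by
    positivity
  nlinarith [h1, h2]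

theorem curvN_last {m β : ℝ} (hm : 0 ≤ m) (hβ : 0 ≤ β) (x y d : ℂ) :
    β * ‖x‖ ^ 4 * ‖x * d / 2 - 3 * y ^ 2‖ ^ 2 ≤ curvN m β x y d := by
  unfold curvN
  have h1 : 0 ≤ 3 * m * ‖y‖ ^ 2 * (m + ‖x‖ ^ 2) ^ 4 := by positivity
  have h2 : 0 ≤ β * (m ^ 3 * ‖d / 2‖ ^ 2 + 3 * m ^ 2 * ‖x * d / 2 - y ^ 2‖ ^ 2 +
      3 * m * ‖x‖ ^ 2 * ‖x * d / 2 - 2 * y ^ 2‖ ^ 2) := by
    positivity
  nlinarith [h1, h2]

theorem curv_lower {m β N D : ℝ} {x y d : ℂ} (hm : 0 ≤ m) (hβ : 0 ≤ β)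
    (hN0 : 0 ≤ N) (hN : N ≤ curvN m β x y d) (hpos : 0 < (m + ‖x‖ ^ 2) ^ 3 + β * ‖y‖ ^ 2)
    (hD : (m + ‖x‖ ^ 2) ^ 3 + β * ‖y‖ ^ 2 ≤ D) : 2 * N / D ^ 2 ≤ curv m β x y d := by
  unfold curv
  have h1 : ((m + ‖x‖ ^ 2) ^ 3 + β * ‖y‖ ^ 2) ^ 2 ≤ D ^ 2 := by gcongr
  have h2 : 0 < ((m + ‖x‖ ^ 2) ^ 3 + β * ‖y‖ ^ 2) ^ 2 := by positivity
  have h3 : 0 ≤ curvN m β x y d := hN0.trans hN
  gcongr

theorem deriv_fP (μ : ℝ) (x : ℂ) :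
    deriv (fP μ) x = (2 * x - 1) * (x ^ 3 - (μ : ℂ) ^ 12) + 3 * x ^ 2 * (x * (x - 1)) := by
  have h : HasDerivAt (fP μ)
      ((1 * (x - 1) + x * 1) * (x ^ 3 - (μ : ℂ) ^ 12) + x * (x - 1) * ((3 : ℕ) * x ^ (3 - 1) * 1)) x := by
    unfold fP
    exact (((hasDerivAt_id x).mul ((hasDerivAt_id x).sub_const 1)).mul
      (((hasDerivAt_id x).pow 3).sub_const _))
  rw [h.deriv]
  push_cast
  ring

/-- `2 ≤ r`, `r ≤ λ / 2`: size of `f`. -/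
theorem size_mid {L : ℝ} {x y : ℂ} (hy : y ^ 2 = x * (x - 1) * (x ^ 3 - (L : ℂ) ^ 3))
    (h2 : 2 ≤ ‖x‖) (hL : ‖x‖ ≤ L / 2) :
    (7 / 16) * (‖x‖ ^ 2 * L ^ 3) ≤ ‖y‖ ^ 2 ∧ ‖y‖ ^ 2 ≤ (27 / 16) * (‖x‖ ^ 2 * L ^ 3) := by
  have hL0 : 0 < L := by linarith
  have e : ‖y‖ ^ 2 = ‖x‖ * ‖x - 1‖ * ‖x ^ 3 - (L : ℂ) ^ 3‖ := by
    rw [← norm_pow, hy, norm_mul, norm_mul]
  have nL : ‖(L : ℂ) ^ 3‖ = L ^ 3 := by
    rw [norm_pow, Complex.norm_real, Real.norm_of_nonneg hL0.le]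
  have a1 : ‖x‖ / 2 ≤ ‖x - 1‖ := by
    have := norm_sub_norm_le x 1
    rw [norm_one] at this
    linarith
  have a2 : ‖x - 1‖ ≤ 3 * ‖x‖ / 2 := by
    have := norm_sub_le x 1
    rw [norm_one] at this
    linarith
  have c1 : ‖x‖ ^ 3 ≤ L ^ 3 / 8 := by
    calc ‖x‖ ^ 3 ≤ (L / 2) ^ 3 := by gcongr
      _ = L ^ 3 / 8 := by ring
  have b1 : (7 / 8) * L ^ 3 ≤ ‖x ^ 3 - (L : ℂ) ^ 3‖ := by
    have := norm_sub_norm_le ((L : ℂ) ^ 3) (x ^ 3)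
    rw [nL, norm_pow, norm_sub_rev] at this
    linarith
  have b2 : ‖x ^ 3 - (L : ℂ) ^ 3‖ ≤ (9 / 8) * L ^ 3 := by
    have := norm_sub_le (x ^ 3) ((L : ℂ) ^ 3)
    rw [nL, norm_pow] at this
    linarith
  rw [e]
  constructor
  · calc (7 / 16) * (‖x‖ ^ 2 * L ^ 3) = ‖x‖ * (‖x‖ / 2) * ((7 / 8) * L ^ 3) := by ring
      _ ≤ _ := by gcongr
  · calc ‖x‖ * ‖x - 1‖ * ‖x ^ 3 - (L : ℂ) ^ 3‖
        ≤ ‖x‖ * (3 * ‖x‖ / 2) * ((9 / 8) * L ^ 3) := by gcongr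
      _ = _ := by ring

/-- first claim: `r ≤ 2` -/
theorem low_small {L : ℝ} {x y : ℂ} (hL : 3 ≤ L)
    (hy : y ^ 2 = x * (x - 1) * (x ^ 3 - (L : ℂ) ^ 3)) (h2 : ‖x‖ ≤ 2) :
    (1 / 10 ^ 8) * L ^ 3 ≤ curv 1 (L ^ 3)⁻¹ x y
      ((2 * x - 1) * (x ^ 3 - (L : ℂ) ^ 3) + 3 * x ^ 2 * (x * (x - 1))) := by
  set d : ℂ := (2 * x - 1) * (x ^ 3 - (L : ℂ) ^ 3) + 3 * x ^ 2 * (x * (x - 1)) with hd
  have hL0 : 0 < L := by linarith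
  have hL3 : 27 ≤ L ^ 3 := by
    calc (27 : ℝ) = 3 ^ 3 := by norm_num
      _ ≤ L ^ 3 := by gcongr
  have hβ : 0 ≤ (L ^ 3)⁻¹ := by positivity
  have nL : ‖(L : ℂ) ^ 3‖ = L ^ 3 := by
    rw [norm_pow, Complex.norm_real, Real.norm_of_nonneg hL0.le]
  have e : ‖y‖ ^ 2 = ‖x * (x - 1)‖ * ‖x ^ 3 - (L : ℂ) ^ 3‖ := by
    rw [← norm_pow, hy, norm_mul]
  have x3 : ‖x ^ 3‖ ≤ 8 := by
    rw [norm_pow]
    calc ‖x‖ ^ 3 ≤ 2 ^ 3 := by gcongr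
      _ = 8 := by norm_num
  have b1 : L ^ 3 - 8 ≤ ‖x ^ 3 - (L : ℂ) ^ 3‖ := by
    have := norm_sub_norm_le ((L : ℂ) ^ 3) (x ^ 3)
    rw [nL, norm_sub_rev] at this
    linarith
  have b2 : ‖x ^ 3 - (L : ℂ) ^ 3‖ ≤ L ^ 3 + 8 := by
    have := norm_sub_le (x ^ 3) ((L : ℂ) ^ 3)
    rw [nL] at this
    linarith
  have a2 : ‖x * (x - 1)‖ ≤ 6 := by
    rw [norm_mul]
    have : ‖x - 1‖ ≤ 3 := by
      have := norm_sub_le x 1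
      rw [norm_one] at this
      linarith
    calc ‖x‖ * ‖x - 1‖ ≤ 2 * 3 := by gcongr
      _ = 6 := by norm_num
  have hy2 : ‖y‖ ^ 2 ≤ 12 * L ^ 3 := by
    rw [e]
    calc ‖x * (x - 1)‖ * ‖x ^ 3 - (L : ℂ) ^ 3‖ ≤ 6 * (L ^ 3 + 8) := by gcongr
      _ ≤ 12 * L ^ 3 := by linarith
  have hpos : 0 < (1 + ‖x‖ ^ 2) ^ 3 + (L ^ 3)⁻¹ * ‖y‖ ^ 2 := by positivity
  have hD : (1 + ‖x‖ ^ 2) ^ 3 + (L ^ 3)⁻¹ * ‖y‖ ^ 2 ≤ 200 := by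
    have h1 : (1 + ‖x‖ ^ 2) ^ 3 ≤ (1 + 2 ^ 2) ^ 3 := by gcongr
    have h3 : (L ^ 3)⁻¹ * ‖y‖ ^ 2 ≤ (L ^ 3)⁻¹ * (12 * L ^ 3) := by gcongr
    have h4 : (L ^ 3)⁻¹ * (12 * L ^ 3) = 12 := by field_simp
    norm_num at h1
    linarith
  by_cases ha : 1 / 8 ≤ ‖x * (x - 1)‖
  · have hy1 : L ^ 3 / 16 ≤ ‖y‖ ^ 2 := by
      rw [e]
      calc L ^ 3 / 16 ≤ (1 / 8) * (L ^ 3 - 8) := by linarith
        _ ≤ ‖x * (x - 1)‖ * ‖x ^ 3 - (L : ℂ) ^ 3‖ := by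
          apply mul_le_mul ha b1 (by linarith) (norm_nonneg _)
    have hN : L ^ 3 / 16 ≤ curvN 1 (L ^ 3)⁻¹ x y d := by
      refine le_trans ?_ (curvN_first zero_le_one hβ x y d)
      have h5 : (1 : ℝ) ≤ (1 + ‖x‖ ^ 2) ^ 4 := one_le_pow₀ (by nlinarith [sq_nonneg ‖x‖])
      have h6 : L ^ 3 / 16 * 1 ≤ ‖y‖ ^ 2 * (1 + ‖x‖ ^ 2) ^ 4 := by gcongr
      nlinarith [h6, sq_nonneg ‖y‖]
    refine le_trans ?_ (curv_lower zero_le_one hβ (by positivity) hN hpos hD)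
    rw [div_eq_mul_inv]
    norm_num
    linarith
  · push Not at ha
    have h7 : ‖2 * x - 1‖ ^ 2 = ‖1 + 4 * (x * (x - 1))‖ := by
      rw [← norm_pow]
      congr 1
      ring
    have h8 : 1 / 2 ≤ ‖2 * x - 1‖ ^ 2 := by
      rw [h7]
      have := norm_sub_norm_le (1 : ℂ) (-(4 * (x * (x - 1))))
      rw [norm_one, norm_neg, norm_mul, sub_neg_eq_add] at this
      have h9 : ‖(4 : ℂ)‖ = 4 := by norm_num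
      rw [h9] at this
      linarith
    have h10 : 7 / 10 ≤ ‖2 * x - 1‖ := by
      by_contra hc
      push Not at hc
      have : ‖2 * x - 1‖ ^ 2 < (7 / 10) ^ 2 := by
        apply pow_lt_pow_left₀ hc (norm_nonneg _) (by norm_num)
      norm_num at this
      linarith
    have h11 : L ^ 3 / 3 ≤ ‖d‖ := by
      have t1 := norm_sub_norm_le ((2 * x - 1) * (x ^ 3 - (L : ℂ) ^ 3)) (-(3 * x ^ 2 * (x * (x - 1))))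
      rw [norm_neg, sub_neg_eq_add, ← hd, norm_mul, norm_mul (3 * x ^ 2)] at t1
      have t2 : ‖3 * x ^ 2‖ ≤ 12 := by
        rw [norm_mul, norm_pow]
        have h9 : ‖(3 : ℂ)‖ = 3 := by norm_num
        rw [h9]
        calc 3 * ‖x‖ ^ 2 ≤ 3 * 2 ^ 2 := by gcongr
          _ = 12 := by norm_num
      have t3 : ‖3 * x ^ 2‖ * ‖x * (x - 1)‖ ≤ 12 * (1 / 8) := by gcongr
      have t4 : 7 / 10 * (L ^ 3 - 8) ≤ ‖2 * x - 1‖ * ‖x ^ 3 - (L : ℂ) ^ 3‖ :=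
        mul_le_mul h10 b1 (by linarith) (norm_nonneg _)
      linarith
    have h12 : ‖d / 2‖ = ‖d‖ / 2 := by
      rw [norm_div]
      norm_num
    have hN : L ^ 3 / 36 ≤ curvN 1 (L ^ 3)⁻¹ x y d := by
      refine le_trans ?_ (curvN_second zero_le_one hβ x y d)
      rw [h12]
      calc L ^ 3 / 36 = (L ^ 3)⁻¹ * 1 ^ 3 * ((L ^ 3 / 3) / 2) ^ 2 := by
            field_simp
            norm_num
        _ ≤ _ := by gcongr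
    refine le_trans ?_ (curv_lower zero_le_one hβ (by positivity) hN hpos hD)
    rw [div_eq_mul_inv]
    norm_num
    linarith

/-- second claim: `2 ≤ r ≤ λ / 2` -/
theorem low_mid {L : ℝ} {x y d : ℂ}
    (hy : y ^ 2 = x * (x - 1) * (x ^ 3 - (L : ℂ) ^ 3)) (h2 : 2 ≤ ‖x‖) (h3 : ‖x‖ ≤ L / 2) :
    (1 / 10) * (L ^ 3 / ‖x‖ ^ 2) ≤ curv 1 (L ^ 3)⁻¹ x y d := by
  have hL0 : 0 < L := by linarith
  have hx0 : 0 < ‖x‖ := by linarith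
  have hβ : 0 ≤ (L ^ 3)⁻¹ := by positivity
  obtain ⟨hy1, hy2⟩ := size_mid hy h2 h3
  have hpos : 0 < (1 + ‖x‖ ^ 2) ^ 3 + (L ^ 3)⁻¹ * ‖y‖ ^ 2 := by positivity
  have h4 : (4 : ℝ) ≤ ‖x‖ ^ 2 := by nlinarith
  have h16 : (16 : ℝ) ≤ ‖x‖ ^ 4 := by nlinarith [sq_nonneg (‖x‖ ^ 2 - 4)]
  have hD : (1 + ‖x‖ ^ 2) ^ 3 + (L ^ 3)⁻¹ * ‖y‖ ^ 2 ≤ 3 * ‖x‖ ^ 6 := by
    have h1 : (1 + ‖x‖ ^ 2) ^ 3 ≤ ((5 / 4) * ‖x‖ ^ 2) ^ 3 := by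
      gcongr
      linarith
    have h3 : (L ^ 3)⁻¹ * ‖y‖ ^ 2 ≤ (L ^ 3)⁻¹ * ((27 / 16) * (‖x‖ ^ 2 * L ^ 3)) := by gcongr
    have h5 : (L ^ 3)⁻¹ * ((27 / 16) * (‖x‖ ^ 2 * L ^ 3)) = (27 / 16) * ‖x‖ ^ 2 := by field_simp
    have h6 : ‖x‖ ^ 2 * 16 ≤ ‖x‖ ^ 2 * ‖x‖ ^ 4 := by gcongr
    have h7 : ‖x‖ ^ 2 * ‖x‖ ^ 4 = ‖x‖ ^ 6 := by ring
    have h8 : ((5 / 4) * ‖x‖ ^ 2) ^ 3 = (125 / 64) * ‖x‖ ^ 6 := by ring
    have h9 : 0 < ‖x‖ ^ 6 := by positivity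
    nlinarith
  have hN : ‖x‖ ^ 10 * L ^ 3 ≤ curvN 1 (L ^ 3)⁻¹ x y d := by
    refine le_trans ?_ (curvN_first zero_le_one hβ x y d)
    calc ‖x‖ ^ 10 * L ^ 3 ≤ 3 * 1 * ((7 / 16) * (‖x‖ ^ 2 * L ^ 3)) * (‖x‖ ^ 2) ^ 4 := by
          have : 0 ≤ ‖x‖ ^ 10 * L ^ 3 := by positivity
          nlinarith [this]
      _ ≤ 3 * 1 * ‖y‖ ^ 2 * (1 + ‖x‖ ^ 2) ^ 4 := by
          gcongr
          linarith
  refine le_trans ?_ (curv_lower zero_le_one hβ (by positivity) hN hpos hD)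
  have e1 : 2 * (‖x‖ ^ 10 * L ^ 3) / (3 * ‖x‖ ^ 6) ^ 2 = (2 / 9) * (L ^ 3 / ‖x‖ ^ 2) := by
    field_simp
    ring
  rw [e1]
  apply mul_le_mul_of_nonneg_right (by norm_num) (by positivity)

/-- third claim for `r ≤ λ / 2` -/
theorem high_mid {L : ℝ} {x y d : ℂ}
    (hy : y ^ 2 = x * (x - 1) * (x ^ 3 - (L : ℂ) ^ 3)) (h2 : 2 ≤ ‖x‖) (h3 : ‖x‖ ≤ L / 2) :
    (1 / 10) * (L * ‖x‖ ^ 2) ≤ curv (L ^ 2) L x y d := by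
  have hL0 : 0 < L := by linarith
  have hx0 : 0 < ‖x‖ := by linarith
  have hm : 0 ≤ L ^ 2 := by positivity
  obtain ⟨hy1, hy2⟩ := size_mid hy h2 h3
  have hpos : 0 < (L ^ 2 + ‖x‖ ^ 2) ^ 3 + L * ‖y‖ ^ 2 := by positivity
  have h4 : ‖x‖ ^ 2 ≤ L ^ 2 / 4 := by
    calc ‖x‖ ^ 2 ≤ (L / 2) ^ 2 := by gcongr
      _ = _ := by ring
  have hD : (L ^ 2 + ‖x‖ ^ 2) ^ 3 + L * ‖y‖ ^ 2 ≤ 3 * L ^ 6 := by
    have h1 : (L ^ 2 + ‖x‖ ^ 2) ^ 3 ≤ ((5 / 4) * L ^ 2) ^ 3 := by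
      gcongr
      linarith
    have h3 : L * ‖y‖ ^ 2 ≤ L * ((27 / 16) * ((L ^ 2 / 4) * L ^ 3)) := by
      gcongr
      exact hy2.trans (by gcongr)
    have h5 : L * ((27 / 16) * ((L ^ 2 / 4) * L ^ 3)) = (27 / 64) * L ^ 6 := by ring
    have h8 : ((5 / 4) * L ^ 2) ^ 3 = (125 / 64) * L ^ 6 := by ring
    have h9 : 0 < L ^ 6 := by positivity
    nlinarith
  have hN : ‖x‖ ^ 2 * L ^ 13 ≤ curvN (L ^ 2) L x y d := by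
    refine le_trans ?_ (curvN_first hm hL0.le x y d)
    calc ‖x‖ ^ 2 * L ^ 13 ≤ 3 * L ^ 2 * ((7 / 16) * (‖x‖ ^ 2 * L ^ 3)) * (L ^ 2) ^ 4 := by
          have : 0 ≤ ‖x‖ ^ 2 * L ^ 13 := by positivity
          nlinarith [this]
      _ ≤ 3 * L ^ 2 * ‖y‖ ^ 2 * (L ^ 2 + ‖x‖ ^ 2) ^ 4 := by
          gcongr
          nlinarith
  refine le_trans ?_ (curv_lower hm hL0.le (by positivity) hN hpos hD)
  have e1 : 2 * (‖x‖ ^ 2 * L ^ 13) / (3 * L ^ 6) ^ 2 = (2 / 9) * (L * ‖x‖ ^ 2) := by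
    field_simp
    ring
  rw [e1]
  apply mul_le_mul_of_nonneg_right (by norm_num) (by positivity)

/-- third claim for `λ / 2 ≤ r` -/
theorem high_far {L : ℝ} {x y : ℂ} (hL : 100 ≤ L)
    (hy : y ^ 2 = x * (x - 1) * (x ^ 3 - (L : ℂ) ^ 3)) (h2 : L / 2 ≤ ‖x‖) :
    (1 / 10 ^ 13) * (L * ‖x‖ ^ 2) ≤ curv (L ^ 2) L x y
      ((2 * x - 1) * (x ^ 3 - (L : ℂ) ^ 3) + 3 * x ^ 2 * (x * (x - 1))) := by
  have hL0 : 0 < L := by linarith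
  have hm : 0 ≤ L ^ 2 := by positivity
  have hLC : (L : ℂ) ≠ 0 := by exact_mod_cast hL0.ne'
  have nL : ‖(L : ℂ)‖ = L := by rw [Complex.norm_real, Real.norm_of_nonneg hL0.le]
  obtain ⟨X, rfl⟩ : ∃ X : ℂ, x = L * X := ⟨x / L, by field_simp⟩
  obtain ⟨ε, hε⟩ : ∃ ε : ℝ, ε = L⁻¹ := ⟨_, rfl⟩
  have hεL : (ε : ℂ) * L = 1 := by
    rw [hε]
    push_cast
    field_simp
  have hε0 : 0 < ε := by rw [hε]; positivity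
  have hε1 : ε ≤ 1 / 100 := by
    rw [hε, inv_le_comm₀ hL0 (by norm_num)]
    linarith
  have nε : ‖(ε : ℂ)‖ = ε := by rw [Complex.norm_real, Real.norm_of_nonneg hε0.le]
  have nx : ‖(L : ℂ) * X‖ = L * ‖X‖ := by rw [norm_mul, nL]
  have hR : 1 / 2 ≤ ‖X‖ := by
    rw [nx] at h2
    by_contra hc
    push Not at hc
    nlinarith
  obtain ⟨F, hF⟩ : ∃ F : ℂ, F = X * (X - ε) * (X ^ 3 - 1) := ⟨_, rfl⟩
  obtain ⟨F', hF'⟩ : ∃ F' : ℂ, F' = (2 * X - ε) * (X ^ 3 - 1) + 3 * X ^ 2 * (X * (X - ε)) :=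
    ⟨_, rfl⟩
  have ey : y ^ 2 = (L : ℂ) ^ 5 * F := by
    rw [hy, hF]
    linear_combination ((L : ℂ) ^ 4 * X * (X ^ 3 - 1)) * hεL
  have ed : (2 * ((L : ℂ) * X) - 1) * (((L : ℂ) * X) ^ 3 - (L : ℂ) ^ 3) +
      3 * ((L : ℂ) * X) ^ 2 * (((L : ℂ) * X) * (((L : ℂ) * X) - 1)) = (L : ℂ) ^ 4 * F' := by
    rw [hF']
    linear_combination ((L : ℂ) ^ 3 * (X ^ 3 - 1) + 3 * (L : ℂ) ^ 3 * X ^ 3) * hεL
  rw [ed]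
  have ny : ‖y‖ ^ 2 = L ^ 5 * ‖F‖ := by
    rw [← norm_pow, ey, norm_mul, norm_pow, nL]
  have hpos : 0 < (L ^ 2 + ‖(L : ℂ) * X‖ ^ 2) ^ 3 + L * ‖y‖ ^ 2 := by positivity
  have eD : (L ^ 2 + ‖(L : ℂ) * X‖ ^ 2) ^ 3 + L * ‖y‖ ^ 2
      = L ^ 6 * ((1 + ‖X‖ ^ 2) ^ 3 + ‖F‖) := by
    rw [ny, nx]
    ring
  rw [nx]
  have nF : ‖F‖ = ‖X‖ * ‖X - ε‖ * ‖X ^ 3 - 1‖ := by rw [hF, norm_mul, norm_mul]
  have n1 : ‖X - ε‖ ≤ ‖X‖ + ε := by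
    have := norm_sub_le X (ε : ℂ)
    rwa [nε] at this
  have n2 : ‖X ^ 3 - 1‖ ≤ ‖X‖ ^ 3 + 1 := by
    have := norm_sub_le (X ^ 3) 1
    rwa [norm_one, norm_pow] at this
  have nF2 : ‖F‖ ≤ ‖X‖ * (‖X‖ + ε) * (‖X‖ ^ 3 + 1) := by
    rw [nF]
    gcongr
  by_cases h4 : 4 ≤ ‖X‖
  · have q2 : 16 ≤ ‖X‖ ^ 2 := by nlinarith
    have q4 : 16 * ‖X‖ ^ 2 ≤ ‖X‖ ^ 4 := by nlinarith [sq_nonneg ‖X‖]
    have q5 : 4 * ‖X‖ ^ 4 ≤ ‖X‖ ^ 5 := by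
      have : 0 ≤ ‖X‖ ^ 4 := by positivity
      nlinarith
    have q6 : 4 * ‖X‖ ^ 5 ≤ ‖X‖ ^ 6 := by
      have : 0 ≤ ‖X‖ ^ 5 := by positivity
      nlinarith
    have q1 : ‖X‖ ≤ ‖X‖ ^ 2 / 4 := by nlinarith
    have hD : (L ^ 2 + ‖(L : ℂ) * X‖ ^ 2) ^ 3 + L * ‖y‖ ^ 2 ≤ 2 * L ^ 6 * ‖X‖ ^ 6 := by
      rw [eD]
      have g1 : (1 + ‖X‖ ^ 2) ^ 3 ≤ ((17 / 16) * ‖X‖ ^ 2) ^ 3 := by
        gcongr
        linarith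
      have g2 : ((17 / 16) * ‖X‖ ^ 2) ^ 3 = (4913 / 4096) * ‖X‖ ^ 6 := by ring
      have g3 : ‖F‖ ≤ 2 * ‖X‖ ^ 5 := by
        refine nF2.trans ?_
        calc ‖X‖ * (‖X‖ + ε) * (‖X‖ ^ 3 + 1) ≤ ‖X‖ * (‖X‖ + (1 / 100) * ‖X‖) * (‖X‖ ^ 3 + (1 / 16) * ‖X‖ ^ 3) := by
              gcongr
              · nlinarith
              · nlinarith
          _ ≤ 2 * ‖X‖ ^ 5 := by
              have : 0 ≤ ‖X‖ ^ 5 := by positivity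
              nlinarith [this]
      have g4 : (1 + ‖X‖ ^ 2) ^ 3 + ‖F‖ ≤ 2 * ‖X‖ ^ 6 := by
        have : 0 ≤ ‖X‖ ^ 6 := by positivity
        nlinarith
      calc L ^ 6 * ((1 + ‖X‖ ^ 2) ^ 3 + ‖F‖) ≤ L ^ 6 * (2 * ‖X‖ ^ 6) := by gcongr
        _ = _ := by ring
    have k1 : ‖X * F' / 2 - 3 * F‖ ≥ ‖X‖ ^ 5 / 4 := by
      have e1 : X * F' / 2 - 3 * F = -(X ^ 5 / 2) + (ε * X ^ 4 + 2 * X ^ 2 - (5 / 2) * ε * X) := by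
        rw [hF', hF]
        ring
      have e2 := norm_sub_norm_le (-(X ^ 5 / 2)) (-(ε * X ^ 4 + 2 * X ^ 2 - (5 / 2) * ε * X))
      rw [sub_neg_eq_add, ← e1, norm_neg, norm_neg, norm_div, norm_pow] at e2
      have e3 : ‖(2 : ℂ)‖ = 2 := by norm_num
      rw [e3] at e2
      have e4 : ‖(ε : ℂ) * X ^ 4 + 2 * X ^ 2 - (5 / 2) * ε * X‖
          ≤ ε * ‖X‖ ^ 4 + 2 * ‖X‖ ^ 2 + (5 / 2) * ε * ‖X‖ := by
        refine (norm_sub_le _ _).trans ?_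
        refine add_le_add ((norm_add_le _ _).trans (add_le_add ?_ ?_)) ?_
        · rw [norm_mul, nε, norm_pow]
        · rw [norm_mul, norm_pow, e3]
        · rw [norm_mul, norm_mul, nε]
          norm_num
      have e5 : ε * ‖X‖ ^ 4 ≤ (1 / 100) * ‖X‖ ^ 4 := by gcongr
      have e6 : (5 / 2) * ε * ‖X‖ ≤ (5 / 2) * (1 / 100) * ‖X‖ := by gcongr
      linarith
    have hN : L ^ 15 * ‖X‖ ^ 14 / 16 ≤ curvN (L ^ 2) L ((L : ℂ) * X) y ((L : ℂ) ^ 4 * F') := by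
      refine le_trans ?_ (curvN_last hm hL0.le _ _ _)
      have e7 : (L : ℂ) * X * ((L : ℂ) ^ 4 * F') / 2 - 3 * y ^ 2
          = (L : ℂ) ^ 5 * (X * F' / 2 - 3 * F) := by
        rw [ey]
        ring
      rw [e7, norm_mul ((L : ℂ) ^ 5), norm_pow, nx, nL]
      calc L ^ 15 * ‖X‖ ^ 14 / 16 = L * (L * ‖X‖) ^ 4 * (L ^ 5 * (‖X‖ ^ 5 / 4)) ^ 2 := by ring
        _ ≤ _ := by gcongr
    refine le_trans ?_ (curv_lower hm hL0.le (by positivity) hN hpos hD)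
    have hX0 : 0 < ‖X‖ := by linarith
    have e8 : 2 * (L ^ 15 * ‖X‖ ^ 14 / 16) / (2 * L ^ 6 * ‖X‖ ^ 6) ^ 2
        = (1 / 32) * (L * (L * ‖X‖) ^ 2) := by
      field_simp
      ring
    rw [e8]
    apply mul_le_mul_of_nonneg_right (by norm_num) (by positivity)
  · push Not at h4
    have hD : (L ^ 2 + ‖(L : ℂ) * X‖ ^ 2) ^ 3 + L * ‖y‖ ^ 2 ≤ 10 ^ 4 * L ^ 6 := by
      rw [eD]
      have g1 : (1 + ‖X‖ ^ 2) ^ 3 ≤ (1 + 4 ^ 2) ^ 3 := by gcongr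
      have g3 : ‖F‖ ≤ 4 * (4 + 1) * (4 ^ 3 + 1) := by
        refine nF2.trans ?_
        gcongr
        linarith
      have g4 : (1 + ‖X‖ ^ 2) ^ 3 + ‖F‖ ≤ 10 ^ 4 := by
        norm_num at g1 g3 ⊢
        linarith
      calc L ^ 6 * ((1 + ‖X‖ ^ 2) ^ 3 + ‖F‖) ≤ L ^ 6 * 10 ^ 4 := by gcongr
        _ = _ := by ring
    have hA : 1 / 8 ≤ ‖X * (X - ε)‖ := by
      rw [norm_mul]
      have t1 := norm_sub_norm_le X (ε : ℂ)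
      rw [nε] at t1
      calc (1 / 8 : ℝ) ≤ (1 / 2) * (1 / 2 - 1 / 100) := by norm_num
        _ ≤ ‖X‖ * ‖X - ε‖ := by
          apply mul_le_mul hR (by linarith) (by norm_num) (norm_nonneg _)
    have hN : L ^ 15 / 2000 ≤ curvN (L ^ 2) L ((L : ℂ) * X) y ((L : ℂ) ^ 4 * F') := by
      by_cases hB : 1 / 192 ≤ ‖X ^ 3 - 1‖
      · refine le_trans ?_ (curvN_first hm hL0.le _ _ _)
        rw [ny, nx]
        have g5 : 1 / 1536 ≤ ‖F‖ := by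
          rw [hF, norm_mul]
          calc (1 / 1536 : ℝ) = (1 / 8) * (1 / 192) := by norm_num
            _ ≤ ‖X * (X - ε)‖ * ‖X ^ 3 - 1‖ := by gcongr
        calc L ^ 15 / 2000 ≤ 3 * L ^ 2 * (L ^ 5 * (1 / 1536)) * (L ^ 2 + 0) ^ 4 := by
              have : 0 ≤ L ^ 15 := by positivity
              nlinarith [this]
          _ ≤ _ := by
              gcongr
              positivity
      · push Not at hB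
        refine le_trans ?_ (curvN_second hm hL0.le _ _ _)
        have g6 : 3 / 64 ≤ ‖F'‖ := by
          have t1 := norm_sub_norm_le (3 * X ^ 2 * (X * (X - ε))) (-((2 * X - ε) * (X ^ 3 - 1)))
          have t2 : 3 * X ^ 2 * (X * (X - ε)) - -((2 * X - ε) * (X ^ 3 - 1)) = F' := by
            rw [hF']
            ring
          rw [t2, norm_neg, norm_mul, norm_mul (2 * X - (ε : ℂ))] at t1
          have t3 : 3 / 4 ≤ ‖3 * X ^ 2‖ := by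
            rw [norm_mul, norm_pow]
            have h9 : ‖(3 : ℂ)‖ = 3 := by norm_num
            rw [h9]
            nlinarith
          have t4 : ‖2 * X - (ε : ℂ)‖ ≤ 9 := by
            have := norm_sub_le (2 * X) (ε : ℂ)
            rw [nε, norm_mul] at this
            have h9 : ‖(2 : ℂ)‖ = 2 := by norm_num
            rw [h9] at this
            linarith
          have t5 : 3 / 4 * (1 / 8) ≤ ‖3 * X ^ 2‖ * ‖X * (X - ε)‖ := by gcongr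
          have t6 : ‖2 * X - (ε : ℂ)‖ * ‖X ^ 3 - 1‖ ≤ 9 * (1 / 192) := by gcongr
          linarith
        have g7 : ‖(L : ℂ) ^ 4 * F' / 2‖ = L ^ 4 * ‖F'‖ / 2 := by
          rw [norm_div, norm_mul, norm_pow, nL]
          norm_num
        rw [g7]
        calc L ^ 15 / 2000 ≤ L * (L ^ 2) ^ 3 * (L ^ 4 * (3 / 64) / 2) ^ 2 := by
              have : 0 ≤ L ^ 15 := by positivity
              nlinarith [this]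
          _ ≤ _ := by gcongr
    refine le_trans ?_ (curv_lower hm hL0.le (by positivity) hN hpos hD)
    have e8 : 2 * (L ^ 15 / 2000) / (10 ^ 4 * L ^ 6) ^ 2 = (16 * L ^ 3) / (16 * 10 ^ 11) := by
      field_simp
      norm_num
    rw [e8]
    have g8 : ‖X‖ ^ 2 ≤ 16 := by nlinarith
    calc 1 / 10 ^ 13 * (L * (L * ‖X‖) ^ 2) = 1 / 10 ^ 13 * (‖X‖ ^ 2 * L ^ 3) := by ring
      _ ≤ 1 / 10 ^ 13 * (16 * L ^ 3) := by gcongr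
      _ ≤ (16 * L ^ 3) / (16 * 10 ^ 11) := by
        have : 0 ≤ L ^ 3 := by positivity
        rw [div_eq_mul_inv (16 * L ^ 3)]
        norm_num
        nlinarith [this]

end Low

open Low in
theorem ineq_low : ∃ c₁ > (0 : ℝ), ∃ μ₀ : ℝ, 1 ≤ μ₀ ∧ ∀ μ ≥ μ₀, ∀ x y : ℂ, y ^ 2 = fP μ x →
    (‖x‖ ≤ 2 → c₁ * μ ^ 12 ≤ curv 1 (μ ^ 12)⁻¹ x y (deriv (fP μ) x)) ∧
    (2 ≤ ‖x‖ → ‖x‖ ≤ μ ^ 4 / 2 →
      c₁ * (μ ^ 12 / ‖x‖ ^ 2) ≤ curv 1 (μ ^ 12)⁻¹ x y (deriv (fP μ) x)) ∧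
    (2 ≤ ‖x‖ → c₁ * (μ ^ 4 * ‖x‖ ^ 2) ≤ curv (μ ^ 8) (μ ^ 4) x y (deriv (fP μ) x)) := by
  refine ⟨1 / 10 ^ 13, by norm_num, 100, by norm_num, fun μ hμ x y hy => ?_⟩
  obtain ⟨L, hL⟩ : ∃ L : ℝ, L = μ ^ 4 := ⟨_, rfl⟩
  have hμ0 : (100 : ℝ) ≤ μ := hμ
  have hL100 : 100 ≤ L := by
    rw [hL]
    calc (100 : ℝ) ≤ μ := hμ0
      _ = μ ^ 1 := (pow_one μ).symm
      _ ≤ μ ^ 4 := pow_le_pow_right₀ (by linarith) (by norm_num)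
  have e12 : μ ^ 12 = L ^ 3 := by rw [hL]; ring
  have e8 : μ ^ 8 = L ^ 2 := by rw [hL]; ring
  have ec : (μ : ℂ) ^ 12 = (L : ℂ) ^ 3 := by exact_mod_cast congrArg (fun t : ℝ => (t : ℂ)) e12
  rw [deriv_fP, e12, e8, ec, ← hL]
  have hy' : y ^ 2 = x * (x - 1) * (x ^ 3 - (L : ℂ) ^ 3) := by
    rw [hy, fP, ec]
  refine ⟨fun h2 => ?_, fun h2 h3 => ?_, fun h2 => ?_⟩
  · refine le_trans ?_ (low_small (by linarith) hy' h2)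
    apply mul_le_mul_of_nonneg_right (by norm_num) (by positivity)
  · refine le_trans ?_ (low_mid hy' h2 h3)
    apply mul_le_mul_of_nonneg_right (by norm_num) (by positivity)
  · rcases le_total ‖x‖ (L / 2) with h3 | h3
    · refine le_trans ?_ (high_mid hy' h2 h3)
      apply mul_le_mul_of_nonneg_right (by norm_num) (by positivity)
    · exact high_far hL100 hy' h3

end MP_32c225_ag
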