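import Pool.Agent.Lib_MP_32c225_ag.Side

/-!
The Laplacian of Mathlib, part B: the second derivative test, harmonicity of `log ‖k‖` and the
strong minimum principle.
-/

open scoped ComplexConjugate Topology ContDiff
open Laplacian Metric Set

namespace MP_32c225_ag

theorem lapB_laplacian_apply (h : ℂ → ℝ) (t : ℂ) :
    Δ h t = fderiv ℝ (fderiv ℝ h) t 1 1 + fderiv ℝ (fderiv ℝ h) t Complex.I Complex.I := by
  rw [InnerProductSpace.laplacian_eq_iteratedFDeriv_complexPlane]
  simp only [iteratedFDeriv_two_apply]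
  rfl

theorem lapB_second_nonneg {h : ℂ → ℝ} {t : ℂ} (hh : ContDiffAt ℝ 2 h t)
    (hm : IsLocalMin h t) (e : ℂ) : 0 ≤ fderiv ℝ (fderiv ℝ h) t e e := by
  have hdf : DifferentiableAt ℝ (fderiv ℝ h) t :=
    (hh.fderiv_right (m := 1) (by norm_num)).differentiableAt (by norm_num)
  let γ : ℝ → ℂ := fun s => t + s * e
  have hγ : ∀ s, HasDerivAt γ e s := by
    intro s
    have h1 : HasDerivAt (fun s : ℝ => (s : ℂ)) 1 s := Complex.ofRealCLM.hasDerivAt
    have h2 : HasDerivAt (fun s : ℝ => t + (s : ℂ) * e) (1 * e) s := (h1.mul_const e).const_add t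
    rw [one_mul] at h2
    exact h2
  have hγ0 : γ 0 = t := by simp [γ]
  have hγc : ContinuousAt γ 0 := (hγ 0).continuousAt
  have hev : ∀ᶠ s in 𝓝 (0 : ℝ), ContDiffAt ℝ 2 h (γ s) := by
    have : ∀ᶠ w in 𝓝 (γ 0), ContDiffAt ℝ 2 h w := by
      rw [hγ0]; exact hh.eventually (by norm_num)
    exact hγc.eventually this
  have hd1 : deriv (fun s => h (γ s)) =ᶠ[𝓝 0] fun s => fderiv ℝ h (γ s) e := by
    filter_upwards [hev] with s hs
    exact ((hs.differentiableAt (by norm_num)).hasFDerivAt.comp_hasDerivAt s (hγ s)).deriv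
  have hdd : HasDerivAt (fun s => fderiv ℝ h (γ s) e) (fderiv ℝ (fderiv ℝ h) t e e) 0 := by
    have h1 := hdf.hasFDerivAt
    rw [← hγ0] at h1
    have h2 := h1.comp_hasDerivAt (0 : ℝ) (hγ 0)
    rw [hγ0] at h2
    have h3 := h2.clm_apply (hasDerivAt_const (0 : ℝ) e)
    simp only [map_zero, add_zero] at h3
    exact h3
  have hmin' : IsLocalMin (fun s => h (γ s)) 0 := by
    have : ∀ᶠ w in 𝓝 (γ 0), h (γ 0) ≤ h w := by rw [hγ0]; exact hm
    exact hγc.eventually this
  have hdd2 : deriv (deriv (fun s => h (γ s))) 0 = fderiv ℝ (fderiv ℝ h) t e e := by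
    rw [hd1.deriv_eq]; exact hdd.deriv
  by_contra hcon
  push Not at hcon
  rw [← hdd2] at hcon
  have hmax : IsLocalMax (fun s => h (γ s)) 0 :=
    isLocalMax_of_deriv_deriv_neg hcon hmin'.deriv_eq_zero
      (hh.continuousAt.comp_of_eq hγc hγ0)
  have hconst : (fun s => h (γ s)) =ᶠ[𝓝 0] fun _ => h (γ 0) := by
    filter_upwards [hmax, hmin'] with s h1 h2
    exact le_antisymm h1 h2
  have h4 : deriv (fun s => h (γ s)) =ᶠ[𝓝 0] fun _ => 0 := by
    filter_upwards [hconst.eventuallyEq_nhds] with s hs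
    rw [hs.deriv_eq]; simp
  rw [h4.deriv_eq] at hcon
  simp at hcon

/-- second derivative test -/
theorem lap_nonneg_of_isLocalMin {h : ℂ → ℝ} {t : ℂ} (hh : ContDiffAt ℝ 2 h t)
    (hm : IsLocalMin h t) : 0 ≤ Δ h t := by
  rw [lapB_laplacian_apply]
  exact add_nonneg (lapB_second_nonneg hh hm 1) (lapB_second_nonneg hh hm Complex.I)

/-- `log |k|` is harmonic for `k` holomorphic without zeros -/
theorem lap_log_norm {k : ℂ → ℂ} {t : ℂ} (hk : AnalyticAt ℂ k t) (h0 : k t ≠ 0) :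
    ContDiffAt ℝ ∞ (fun s => Real.log ‖k s‖) t ∧ Δ (fun s => Real.log ‖k s‖) t = 0 := by
  refine ⟨?_, (hk.harmonicAt_log_norm h0).2.self_of_nhds⟩
  have h1 : ContDiffAt ℝ ∞ k t := (hk.contDiffAt (n := ∞)).restrict_scalars ℝ
  exact (h1.norm ℝ h0).log (norm_ne_zero_iff.2 h0)

/-- the strong minimum principle for harmonic functions, local form -/
theorem eventually_const_of_min {h : ℂ → ℝ} {t : ℂ}
    (hh : ∀ᶠ s in 𝓝 t, ContDiffAt ℝ 2 h s ∧ Δ h s = 0) (hm : IsLocalMin h t) :
    ∀ᶠ s in 𝓝 t, h s = h t := by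
  obtain ⟨R, hR, hball⟩ := Metric.eventually_nhds_iff_ball.1 hh.eventually_nhds
  have hharm : InnerProductSpace.HarmonicOnNhd h (ball t R) := by
    intro s hs
    refine ⟨(hball s hs).self_of_nhds.1, ?_⟩
    filter_upwards [hball s hs] with w hw
    exact hw.2
  obtain ⟨F, hF, hFre⟩ := hharm.exists_analyticOnNhd_ball_re_eq
  have hnhds : ∀ᶠ s in 𝓝 t, s ∈ ball t R := ball_mem_nhds t hR
  have hnorm : ∀ s ∈ ball t R, ‖Complex.exp (-F s)‖ = Real.exp (-h s) := by
    intro s hs
    rw [Complex.norm_exp, Complex.neg_re]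
    have := hFre hs
    simp only at this
    rw [this]
  have hd : ∀ᶠ s in 𝓝 t, DifferentiableAt ℂ (fun s => Complex.exp (-F s)) s := by
    filter_upwards [hnhds] with s hs
    exact ((hF s hs).differentiableAt.neg).cexp
  have hmax : IsLocalMax (norm ∘ fun s => Complex.exp (-F s)) t := by
    filter_upwards [hnhds, hm] with s hs hms
    simp only [Function.comp_apply]
    rw [hnorm s hs, hnorm t (mem_ball_self hR), Real.exp_le_exp]
    linarith
  filter_upwards [Complex.eventually_eq_of_isLocalMax_norm hd hmax, hnhds] with s hs1 hs2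
  have h1 := congrArg norm hs1
  rw [hnorm s hs2, hnorm t (mem_ball_self hR)] at h1
  have h2 := Real.exp_injective h1
  linarith

end MP_32c225_ag
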