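import Pool.Agent.Lib_MP_32c225_ag.Side

/-!
Piece LAP-A of MP_32c225_ag: the Laplacian of a composition with a holomorphic function, and the
Laplacian of the logarithm of a weighted squared norm of a holomorphic vector.
-/

open scoped ComplexConjugate Topology ContDiff
open Laplacian Metric Set

namespace MP_32c225_ag

/-- the Laplacian as a sum of two second derivatives -/
theorem lapA_eq (g : ℂ → ℝ) (t : ℂ) :
    Δ g t = fderiv ℝ (fderiv ℝ g) t 1 1 + fderiv ℝ (fderiv ℝ g) t Complex.I Complex.I := by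
  rw [InnerProductSpace.laplacian_eq_iteratedFDeriv_complexPlane]
  simp only [iteratedFDeriv_two_apply]
  simp

/-- the Laplacian computed from the first derivative near `t` -/
theorem lapA_of_deriv {g : ℂ → ℝ} {t : ℂ} (hg : ContDiffAt ℝ 2 g t) {L1 LI : ℂ → ℝ}
    {A B : ℂ →L[ℝ] ℝ} (h1 : ∀ᶠ s in 𝓝 t, fderiv ℝ g s 1 = L1 s)
    (hI : ∀ᶠ s in 𝓝 t, fderiv ℝ g s Complex.I = LI s)
    (hA : HasFDerivAt L1 A t) (hB : HasFDerivAt LI B t) :
    Δ g t = A 1 + B Complex.I := by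
  rw [lapA_eq]
  have hd : DifferentiableAt ℝ (fderiv ℝ g) t :=
    (hg.fderiv_right (m := 1) (by norm_num)).differentiableAt (by norm_num)
  have key : ∀ (v : ℂ) (L : ℂ → ℝ) (C : ℂ →L[ℝ] ℝ), (∀ᶠ s in 𝓝 t, fderiv ℝ g s v = L s) →
      HasFDerivAt L C t → fderiv ℝ (fderiv ℝ g) t v v = C v := by
    intro v L C hL hC
    have e1 := hd.hasFDerivAt.clm_apply (hasFDerivAt_const v t)
    have e2 : HasFDerivAt (fun s => fderiv ℝ g s v) C t :=
      hC.congr_of_eventuallyEq hL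
    have e3 := e1.unique e2
    rw [← e3]
    simp
  rw [key 1 L1 A h1 hA, key Complex.I LI B hI hB]

/-- the Laplacian of a composition with a holomorphic function -/
theorem lap_comp_holo {h : ℂ → ℝ} {T : ℂ → ℂ} {t : ℂ} (hh : ContDiffAt ℝ 2 h (T t))
    (hT : AnalyticAt ℂ T t) :
    Δ (fun s => h (T s)) t = ‖deriv T t‖ ^ 2 * Δ h (T t) := by
  have hTc : ContDiffAt ℝ 2 T t := (hT.contDiffAt (n := 2)).restrict_scalars ℝ
  have hg : ContDiffAt ℝ 2 (fun s => h (T s)) t := hh.comp t hTc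
  have hd : HasFDerivAt (fderiv ℝ h) (fderiv ℝ (fderiv ℝ h) (T t)) (T t) :=
    ((hh.fderiv_right (m := 1) (by norm_num)).differentiableAt (by norm_num)).hasFDerivAt
  have hT1 : HasFDerivAt T (((1 : ℂ →L[ℂ] ℂ).smulRight (deriv T t)).restrictScalars ℝ) t :=
    hT.differentiableAt.hasDerivAt.hasFDerivAt.restrictScalars ℝ
  have hT2 : HasFDerivAt (deriv T)
      (((1 : ℂ →L[ℂ] ℂ).smulRight (deriv (deriv T) t)).restrictScalars ℝ) t :=
    hT.deriv.differentiableAt.hasDerivAt.hasFDerivAt.restrictScalars ℝ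
  have hev : ∀ v : ℂ, ∀ᶠ s in 𝓝 t, fderiv ℝ (fun s => h (T s)) s v =
      fderiv ℝ h (T s) (deriv T s * v) := by
    intro v
    have e1 : ∀ᶠ s in 𝓝 t, AnalyticAt ℂ T s := hT.eventually_analyticAt
    have e2 : ∀ᶠ s in 𝓝 t, DifferentiableAt ℝ h (T s) := by
      have e3 : ∀ᶠ w in 𝓝 (T t), ContDiffAt ℝ 2 h w := hh.eventually (by norm_num)
      have e4 := hT.continuousAt.eventually e3
      filter_upwards [e4] with s hs
      exact hs.differentiableAt (by norm_num)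
    filter_upwards [e1, e2] with s hs1 hs2
    have h5 : HasFDerivAt T (((1 : ℂ →L[ℂ] ℂ).smulRight (deriv T s)).restrictScalars ℝ) s :=
      hs1.differentiableAt.hasDerivAt.hasFDerivAt.restrictScalars ℝ
    have h6 : HasFDerivAt (fun s => h (T s)) _ s := hs2.hasFDerivAt.comp s h5
    rw [h6.fderiv]
    simp [mul_comm]
  have hL : ∀ v : ℂ, HasFDerivAt (fun s => fderiv ℝ h (T s) (deriv T s * v)) _ t := fun v =>
    (hd.comp t hT1).clm_apply (hT2.mul_const v)
  rw [lapA_of_deriv hg (hev 1) (hev Complex.I) (hL 1) (hL Complex.I), lapA_eq]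
  set D := fderiv ℝ (fderiv ℝ h) (T t) with hD
  set E := (fderiv ℝ h ∘ T) t with hE
  set a := deriv T t with ha
  set b := deriv (deriv T) t with hb
  simp only [add_apply, ContinuousLinearMap.comp_apply,
    ContinuousLinearMap.flip_apply, smul_apply,
    ContinuousLinearMap.coe_restrictScalars', ContinuousLinearMap.smulRight_apply,
    one_apply_eq_self, smul_eq_mul, one_mul, mul_one]
  have e1 : Complex.I * (Complex.I * b) = -b := by
    rw [← mul_assoc, Complex.I_mul_I]; ring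
  have e2 : a = a.re • (1 : ℂ) + a.im • Complex.I := by
    apply Complex.ext <;> simp
  have e3 : Complex.I * a = (-a.im) • (1 : ℂ) + a.re • Complex.I := by
    apply Complex.ext <;> simp
  have e4 : D a a = a.re ^ 2 * D 1 1 + a.re * a.im * D 1 Complex.I +
      a.re * a.im * D Complex.I 1 + a.im ^ 2 * D Complex.I Complex.I := by
    conv_lhs => rw [e2]
    simp only [map_add, map_smul, add_apply, smul_apply, smul_eq_mul]
    ring
  have e5 : D (Complex.I * a) (Complex.I * a) = a.im ^ 2 * D 1 1 - a.re * a.im * D 1 Complex.I -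
      a.re * a.im * D Complex.I 1 + a.re ^ 2 * D Complex.I Complex.I := by
    conv_lhs => rw [e3]
    simp only [map_add, map_smul, add_apply, smul_apply, smul_eq_mul]
    ring
  have e6 : ‖a‖ ^ 2 = a.re ^ 2 + a.im ^ 2 := by
    rw [← Complex.normSq_eq_norm_sq, Complex.normSq_apply]; ring
  rw [e1, map_neg, e4, mul_comm a Complex.I, e5, e6]
  ring

/-- the real derivative of `c * ‖g‖ ^ 2` for `g` holomorphic -/
theorem lapA_normSq {g : ℂ → ℂ} {s : ℂ} (hg : DifferentiableAt ℂ g s) :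
    ∃ A : ℂ →L[ℝ] ℝ, HasFDerivAt (fun w => ‖g w‖ ^ 2) A s ∧
      ∀ v : ℂ, A v = 2 * (conj (g s) * deriv g s * v).re := by
  have h5 : HasFDerivAt g (((1 : ℂ →L[ℂ] ℂ).smulRight (deriv g s)).restrictScalars ℝ) s :=
    hg.hasDerivAt.hasFDerivAt.restrictScalars ℝ
  refine ⟨_, h5.norm_sq, fun v => ?_⟩
  simp [Complex.inner]
  ring

/-- the Laplacian of the logarithm of a weighted squared norm of a holomorphic vector -/
theorem lap_log_sq {n : ℕ} (c : Fin n → ℝ) (hc : ∀ i, 0 < c i) {γ : ℂ → Fin n → ℂ} {t : ℂ}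
    (hγ : AnalyticAt ℂ γ t) (h0 : γ t ≠ 0) :
    ContDiffAt ℝ ∞ (fun s => Real.log (∑ i, c i * ‖γ s i‖ ^ 2)) t ∧
    (1 / 2) * Δ (fun s => Real.log (∑ i, c i * ‖γ s i‖ ^ 2)) t =
      2 * ((∑ i, c i * ‖γ t i‖ ^ 2) * (∑ i, c i * ‖deriv γ t i‖ ^ 2) -
        ‖∑ i, (c i : ℂ) * (conj (γ t i) * deriv γ t i)‖ ^ 2) /
          (∑ i, c i * ‖γ t i‖ ^ 2) ^ 2 := by
  have hga : ∀ i, AnalyticAt ℂ (fun s => γ s i) t := fun i => (analyticAt_pi_iff.1 hγ) i
  have hder : ∀ s, AnalyticAt ℂ γ s → ∀ i, deriv γ s i = deriv (fun w => γ w i) s := by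
    intro s hs i
    exact ((hasDerivAt_pi.1 hs.differentiableAt.hasDerivAt) i).deriv.symm
  have hpos : ∀ s, γ s ≠ 0 → 0 < ∑ i, c i * ‖γ s i‖ ^ 2 := by
    intro s hs
    obtain ⟨j, hj⟩ := Function.ne_iff.1 hs
    refine Finset.sum_pos' (fun i _ => mul_nonneg (hc i).le (by positivity)) ⟨j, Finset.mem_univ _, ?_⟩
    have : 0 < ‖γ s j‖ := norm_pos_iff.2 hj
    exact mul_pos (hc j) (by positivity)
  have hS : ContDiffAt ℝ ∞ (fun s => ∑ i, c i * ‖γ s i‖ ^ 2) t := by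
    refine ContDiffAt.sum fun i _ => contDiffAt_const.mul ?_
    exact (((hga i).contDiffAt (n := ∞)).restrict_scalars ℝ).norm_sq ℝ
  have hlog : ContDiffAt ℝ ∞ (fun s => Real.log (∑ i, c i * ‖γ s i‖ ^ 2)) t :=
    hS.log (hpos t h0).ne'
  refine ⟨hlog, ?_⟩
  set S : ℂ → ℝ := fun s => ∑ i, c i * ‖γ s i‖ ^ 2 with hSdef
  set P : ℂ → ℂ := fun s => ∑ i, (c i : ℂ) * (conj (γ s i) * deriv (fun w => γ w i) s) with hP
  have hev : ∀ᶠ s in 𝓝 t, AnalyticAt ℂ γ s ∧ γ s ≠ 0 :=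
    hγ.eventually_analyticAt.and (hγ.continuousAt.eventually_ne h0)
  have hSd : ∀ s, AnalyticAt ℂ γ s → ∃ A : ℂ →L[ℝ] ℝ, HasFDerivAt S A s ∧
      ∀ v, A v = 2 * (P s * v).re := by
    intro s hs
    have h1 : ∀ i, ∃ A : ℂ →L[ℝ] ℝ, HasFDerivAt (fun w => ‖γ w i‖ ^ 2) A s ∧
        ∀ v : ℂ, A v = 2 * (conj (γ s i) * deriv (fun w => γ w i) s * v).re := fun i =>
      lapA_normSq ((analyticAt_pi_iff.1 hs) i).differentiableAt
    choose A hA hAv using h1
    refine ⟨∑ i, c i • A i, HasFDerivAt.fun_sum fun i _ => (hA i).const_mul (c i), fun v => ?_⟩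
    simp only [sum_apply, smul_apply, smul_eq_mul, hAv, hP, Finset.sum_mul,
      Complex.re_sum, Finset.mul_sum]
    refine Finset.sum_congr rfl fun i _ => ?_
    rw [mul_assoc (c i : ℂ), Complex.re_ofReal_mul]
    ring
  have hfd : ∀ v : ℂ, ∀ᶠ s in 𝓝 t, fderiv ℝ (fun s => Real.log (S s)) s v =
      2 * (P s * v).re / S s := by
    intro v
    filter_upwards [hev] with s hs
    obtain ⟨A, hA, hAv⟩ := hSd s hs.1
    rw [(hA.log (hpos s hs.2).ne').fderiv]
    simp only [smul_apply, smul_eq_mul, hAv]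
    field_simp
  obtain ⟨A, hA, hAv⟩ := hSd t hγ
  -- the derivative of `P`
  have hPd : ∃ B : ℂ →L[ℝ] ℂ, HasFDerivAt P B t ∧ ∀ v : ℂ, B v = ∑ i, (c i : ℂ) *
      (conj (γ t i) * (deriv (deriv (fun w => γ w i)) t * v) +
        conj (deriv (fun w => γ w i) t * v) * deriv (fun w => γ w i) t) := by
    have h1 : ∀ i, ∃ B : ℂ →L[ℝ] ℂ,
        HasFDerivAt (fun s => conj (γ s i) * deriv (fun w => γ w i) s) B t ∧
        ∀ v : ℂ, B v = conj (γ t i) * (deriv (deriv (fun w => γ w i)) t * v) +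
          conj (deriv (fun w => γ w i) t * v) * deriv (fun w => γ w i) t := by
      intro i
      have h5 : HasFDerivAt (fun w => γ w i)
          (((1 : ℂ →L[ℂ] ℂ).smulRight (deriv (fun w => γ w i) t)).restrictScalars ℝ) t :=
        (hga i).differentiableAt.hasDerivAt.hasFDerivAt.restrictScalars ℝ
      have h6 : HasFDerivAt (deriv (fun w => γ w i))
          (((1 : ℂ →L[ℂ] ℂ).smulRight (deriv (deriv (fun w => γ w i)) t)).restrictScalars ℝ) t :=
        (hga i).deriv.differentiableAt.hasDerivAt.hasFDerivAt.restrictScalars ℝ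
      have h7 : HasFDerivAt (fun s => conj (γ s i)) _ t :=
        (Complex.conjCLE.toContinuousLinearMap.hasFDerivAt).comp t h5
      refine ⟨_, h7.mul h6, fun v => ?_⟩
      simp
      ring
    choose B hB hBv using h1
    refine ⟨∑ i, (c i : ℂ) • B i, HasFDerivAt.fun_sum fun i _ => (hB i).const_mul (c i : ℂ),
      fun v => ?_⟩
    simp only [sum_apply, smul_apply, smul_eq_mul, hBv]
  obtain ⟨B, hB, hBv⟩ := hPd
  have hL : ∀ v : ℂ, ∃ C : ℂ →L[ℝ] ℝ, HasFDerivAt (fun s => 2 * (P s * v).re / S s) C t ∧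
      C v = 2 * (B v * v).re / S t - (2 * (P t * v).re) ^ 2 / S t ^ 2 := by
    intro v
    have h8 : HasFDerivAt (fun s => 2 * (P s * v).re) _ t :=
      ((Complex.reCLM.hasFDerivAt).comp t (hB.mul_const v)).const_mul 2
    have h9 : HasFDerivAt (fun s => (S s)⁻¹) _ t :=
      (hasDerivAt_inv (hpos t h0).ne').comp_hasFDerivAt t hA
    refine ⟨_, h8.mul h9, ?_⟩
    have hne : S t ≠ 0 := (hpos t h0).ne'
    simp only [add_apply, ContinuousLinearMap.comp_apply, smul_apply, smul_eq_mul, hAv,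
      Complex.reCLM_apply]
    rw [mul_comm v (B v)]
    change 2 * (P t * v).re * (-(S t ^ 2)⁻¹ * (2 * (P t * v).re)) + (S t)⁻¹ * (2 * (B v * v).re) = _
    field_simp
    ring
  obtain ⟨C1, hC1, hC1v⟩ := hL 1
  obtain ⟨CI, hCI, hCIv⟩ := hL Complex.I
  rw [lapA_of_deriv (hlog.of_le (by norm_cast)) (hfd 1) (hfd Complex.I) hC1 hCI, hC1v, hCIv]
  have hPt : ∑ i, (c i : ℂ) * (conj (γ t i) * deriv γ t i) = P t := by
    simp only [hP]
    refine Finset.sum_congr rfl fun i _ => ?_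
    rw [hder t hγ i]
  have hnorm : (2 * (P t * 1).re) ^ 2 + (2 * (P t * Complex.I).re) ^ 2 = 4 * ‖P t‖ ^ 2 := by
    rw [← Complex.normSq_eq_norm_sq, Complex.normSq_apply]
    simp
    ring
  have hBB : (B 1 * 1).re + (B Complex.I * Complex.I).re =
      2 * ∑ i, c i * ‖deriv γ t i‖ ^ 2 := by
    rw [hBv, hBv, Finset.sum_mul, Finset.sum_mul, Complex.re_sum, Complex.re_sum,
      ← Finset.sum_add_distrib, Finset.mul_sum]
    refine Finset.sum_congr rfl fun i _ => ?_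
    rw [hder t hγ i, ← Complex.normSq_eq_norm_sq, Complex.normSq_apply]
    simp
    ring
  rw [hPt]
  change 1 / 2 * (2 * (B 1 * 1).re / S t - (2 * (P t * 1).re) ^ 2 / S t ^ 2 +
    (2 * (B Complex.I * Complex.I).re / S t - (2 * (P t * Complex.I).re) ^ 2 / S t ^ 2)) =
    2 * (S t * (∑ i, c i * ‖deriv γ t i‖ ^ 2) - ‖P t‖ ^ 2) / S t ^ 2
  have hne : S t ≠ 0 := (hpos t h0).ne'
  generalize (P t * Complex.I).re = p1 at hnorm ⊢
  generalize (P t * 1).re = p2 at hnorm ⊢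
  generalize (B Complex.I * Complex.I).re = p3 at hBB ⊢
  generalize (B 1 * 1).re = p4 at hBB ⊢
  field_simp
  linear_combination (S t) * hBB - (1 / 2) * hnorm

end MP_32c225_ag
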