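import Pool.Agent.Lib_MP_32c225_ag.Defs

/-!
Abstract affine curves `y² = f(x)`, local charts, Kähler-Einstein potentials on them, and the
pair of affine curves (around `x = 0` and around `x = ∞`) which make up a compact curve.
-/

open scoped ComplexConjugate Topology ContDiff
open Laplacian Metric Set

noncomputable section

namespace MP_32c225_ag

/-- `|(1, x, x², x³, y)|²` -/
def phi (x y : ℂ) : ℝ := 1 + ‖x‖ ^ 2 + ‖x‖ ^ 4 + ‖x‖ ^ 6 + ‖y‖ ^ 2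

/-- density of `(1/3) i∂∂̄ log φ + i∂∂̄ U` along the curve `(X, Y)` -/
def rhoC (U : ℂ → ℂ → ℝ) (X Y : ℂ → ℂ) (t : ℂ) : ℝ :=
  (1 / 2) * Δ (fun s => (1 / 3) * Real.log (phi (X s) (Y s)) + U (X s) (Y s)) t

/-- `(X, Y)` is a holomorphic immersed curve with values in `y² = f(x)`, defined on the open set
`O`. -/
structure IsCurve (f : ℂ → ℂ) (O : Set ℂ) (X Y : ℂ → ℂ) : Prop where
  isOpen : IsOpen O
  hX : DifferentiableOn ℂ X O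
  hY : DifferentiableOn ℂ Y O
  eqn : ∀ t ∈ O, Y t ^ 2 = f (X t)
  imm : ∀ t ∈ O, deriv X t ≠ 0 ∨ deriv Y t ≠ 0

/-- `U` is a Kähler-Einstein potential on the affine curve `y² = f(x)`. -/
structure KESide (f : ℂ → ℂ) (U : ℂ → ℂ → ℝ) : Prop where
  smooth : ∀ O X Y, IsCurve f O X Y → ContDiffOn ℝ ∞ (fun t => U (X t) (Y t)) O
  pos : ∀ O X Y, IsCurve f O X Y → ∀ t ∈ O, 0 < rhoC U X Y t
  ke : ∀ O X Y, IsCurve f O X Y → ∀ t ∈ O,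
    (1 / 2) * Δ (fun s => Real.log (rhoC U X Y s)) t = rhoC U X Y t

/-- the affine curve `y² = f(x)` as a subset of `ℂ × ℂ` -/
def Crv (f : ℂ → ℂ) : Set (ℂ × ℂ) := {P | P.2 ^ 2 = f P.1}

/-- `(X, Y)` is a holomorphic chart, defined on the disc of radius `r` around `0`, of the affine
curve `y² = f(x)` around the point `P`, with `dX = k Y dt`. -/
structure IsChart (f : ℂ → ℂ) (P : ℂ × ℂ) (r : ℝ) (X Y k : ℂ → ℂ) : Prop where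
  r_pos : 0 < r
  X0 : X 0 = P.1
  Y0 : Y 0 = P.2
  hX : DifferentiableOn ℂ X (ball 0 r)
  hY : DifferentiableOn ℂ Y (ball 0 r)
  hk : DifferentiableOn ℂ k (ball 0 r)
  eqn : ∀ t ∈ ball (0 : ℂ) r, Y t ^ 2 = f (X t)
  k_ne : ∀ t ∈ ball (0 : ℂ) r, k t ≠ 0
  dX : ∀ t ∈ ball (0 : ℂ) r, deriv X t = k t * Y t
  dY : ∀ t ∈ ball (0 : ℂ) r, deriv Y t = k t * (deriv f (X t) / 2)
  Y_ne : ∀ t ∈ ball (0 : ℂ) r, t ≠ 0 → Y t ≠ 0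
  cover : ∀ ε > 0, ∃ δ > 0, ∀ x y : ℂ, y ^ 2 = f x → ‖x - P.1‖ < δ → ‖y - P.2‖ < δ →
    ∃ t ∈ ball (0 : ℂ) r, ‖t‖ < ε ∧ X t = x ∧ Y t = y

/-- The two affine curves `y² = f(x)` and `w² = g(ξ)`, glued by `ξ = 1/x`, `w = y/x³`, and a
Kähler-Einstein potential on the resulting compact curve. -/
structure TwoSided (f g : ℂ → ℂ) (Uf Ug : ℂ → ℂ → ℝ) : Prop where
  df : Differentiable ℂ f
  dg : Differentiable ℂ g
  sf : ∀ x, f x = 0 → deriv f x ≠ 0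
  sg : ∀ x, g x = 0 → deriv g x ≠ 0
  f0 : f 0 = 0
  g0 : g 0 = 0
  fg : ∀ x, x ≠ 0 → f x = x ^ 6 * g x⁻¹
  kef : KESide f Uf
  keg : KESide g Ug
  uu : ∀ x y, x ≠ 0 → y ^ 2 = f x → Uf x y = Ug x⁻¹ (y / x ^ 3)

/-- `v` is the logarithm of the Kähler-Einstein density with respect to the holomorphic form
`dx / y`. -/
structure IsV (f : ℂ → ℂ) (U : ℂ → ℂ → ℝ) (v : ℂ → ℂ → ℝ) : Prop where
  chart : ∀ P r X Y k, IsChart f P r X Y k → ∀ t ∈ ball (0 : ℂ) r,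
    v (X t) (Y t) = Real.log (rhoC U X Y t) - 2 * Real.log ‖k t‖
  curve : ∀ O X Y, IsCurve f O X Y → ∀ t ∈ O, Y t ≠ 0 → deriv X t ≠ 0 →
    v (X t) (Y t) = Real.log (rhoC U X Y t) - 2 * Real.log ‖deriv X t / Y t‖

/-- `(h, h')` is a continuous function on the compact curve. -/
structure Glued (f g : ℂ → ℂ) (h h' : ℂ → ℂ → ℝ) : Prop where
  cf : ContinuousOn (fun P : ℂ × ℂ => h P.1 P.2) (Crv f)
  cg : ContinuousOn (fun P : ℂ × ℂ => h' P.1 P.2) (Crv g)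
  eq : ∀ x y, x ≠ 0 → y ^ 2 = f x → h x y = h' x⁻¹ (y / x ^ 3)

/-- the numerator of the curvature of `log ((m + |x|²)³ + β |y|²)`; `d` is the value of `f'` -/
def curvN (m β : ℝ) (x y d : ℂ) : ℝ :=
  3 * m * ‖y‖ ^ 2 * (m + ‖x‖ ^ 2) ^ 4 +
    β * (m ^ 3 * ‖d / 2‖ ^ 2 + 3 * m ^ 2 * ‖x * d / 2 - y ^ 2‖ ^ 2 +
      3 * m * ‖x‖ ^ 2 * ‖x * d / 2 - 2 * y ^ 2‖ ^ 2 + ‖x‖ ^ 4 * ‖x * d / 2 - 3 * y ^ 2‖ ^ 2)

/-- the curvature of `log ((m + |x|²)³ + β |y|²)` with respect to `dx / y` -/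
def curv (m β : ℝ) (x y d : ℂ) : ℝ :=
  2 * curvN m β x y d / ((m + ‖x‖ ^ 2) ^ 3 + β * ‖y‖ ^ 2) ^ 2

/-- `log ((m + |x|²)³ + β |y|²)` -/
def Lg (m β : ℝ) (x y : ℂ) : ℝ := Real.log ((m + ‖x‖ ^ 2) ^ 3 + β * ‖y‖ ^ 2)

/-- the polynomial `f` at `λ = μ⁴` -/
def fP (μ : ℝ) (x : ℂ) : ℂ := x * (x - 1) * (x ^ 3 - (μ : ℂ) ^ 12)

/-- the polynomial `g` at `λ = μ⁴` -/
def gP (μ : ℝ) (x : ℂ) : ℂ := x * (1 - x) * (1 - (μ : ℂ) ^ 12 * x ^ 3)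

/-- the comparison function on the side of `f`: `κ = e^c μ⁷`, `λ = μ⁴` -/
def psiF (c μ : ℝ) (x y : ℂ) : ℝ :=
  c + 7 * Real.log μ + (1 / 12) * Lg 1 (μ ^ 12)⁻¹ x y +
    (1 / 4) * (Lg (μ ^ 8) (μ ^ 4) x y - 24 * Real.log μ)

/-- the comparison function on the side of `g` -/
def psiG (c μ : ℝ) (x y : ℂ) : ℝ :=
  c + 7 * Real.log μ + (1 / 12) * Lg 1 (μ ^ 12)⁻¹ x y +
    (1 / 4) * Lg (μ ^ 8)⁻¹ (μ ^ 20)⁻¹ x y

end MP_32c225_ag
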