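import Pool.Agent.Lib_MP_32c225_ag.Lap
import Pool.Agent.Lib_MP_32c225_ag.Chart

open scoped ComplexConjugate Topology ContDiff
open Laplacian Metric Set

namespace MP_32c225_ag

variable {f : ℂ → ℂ} {U : ℂ → ℂ → ℝ} {v : ℂ → ℂ → ℝ} {P : ℂ × ℂ} {r : ℝ} {X Y k : ℂ → ℂ}

theorem vfacts_phi_pos (x y : ℂ) : 0 < phi x y := by
  unfold phi; positivity

/-- holomorphic functions are smooth as real functions -/
theorem vfacts_contDiffAt {O : Set ℂ} (hO : IsOpen O) (hX : DifferentiableOn ℂ X O) {t : ℂ}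
    (ht : t ∈ O) : ContDiffAt ℝ ∞ X t :=
  ((hX.contDiffOn (n := ∞) hO).contDiffAt (hO.mem_nhds ht)).restrict_scalars ℝ

theorem vfacts_log_phi {O : Set ℂ} (hc : IsCurve f O X Y) {t : ℂ} (ht : t ∈ O) :
    ContDiffAt ℝ ∞ (fun s => (1 / 3) * Real.log (phi (X s) (Y s))) t := by
  have hX := (vfacts_contDiffAt hc.isOpen hc.hX ht).norm_sq (𝕜 := ℂ)
  have hY := (vfacts_contDiffAt hc.isOpen hc.hY ht).norm_sq (𝕜 := ℂ)
  have h : ContDiffAt ℝ ∞ (fun s => phi (X s) (Y s)) t := by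
    have e : (fun s => phi (X s) (Y s)) = fun s => 1 + ‖X s‖ ^ 2 + (‖X s‖ ^ 2) ^ 2 +
        (‖X s‖ ^ 2) ^ 3 + ‖Y s‖ ^ 2 := by
      funext s; unfold phi; ring
    rw [e]
    exact (((contDiffAt_const.add hX).add (hX.pow 2)).add (hX.pow 3)).add hY
  exact contDiffAt_const.mul (h.log (vfacts_phi_pos _ _).ne')

theorem vfacts_pot (hU : KESide f U) {O : Set ℂ} (hc : IsCurve f O X Y) {t : ℂ} (ht : t ∈ O) :
    ContDiffAt ℝ ∞ (fun s => (1 / 3) * Real.log (phi (X s) (Y s)) + U (X s) (Y s)) t :=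
  (vfacts_log_phi hc ht).add ((hU.smooth O X Y hc).contDiffAt (hc.isOpen.mem_nhds ht))

/-- the Laplacian of a smooth function is smooth -/
theorem vfacts_lap_smooth {h : ℂ → ℝ} {t : ℂ} (hh : ContDiffAt ℝ ∞ h t) :
    ContDiffAt ℝ ∞ (Δ h) t := by
  rw [InnerProductSpace.laplacian_eq_iteratedFDeriv_complexPlane]
  have h2 : ContDiffAt ℝ ∞ (iteratedFDeriv ℝ 2 h) t := by
    refine hh.iteratedFDeriv_right ?_
    exact le_of_eq rfl
  have h3 : ∀ w : Fin 2 → ℂ, ContDiffAt ℝ ∞ (fun x => iteratedFDeriv ℝ 2 h x w) t := by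
    intro w
    exact (ContinuousMultilinearMap.apply ℝ (fun _ : Fin 2 => ℂ) ℝ w).contDiff.contDiffAt.comp t h2
  exact (h3 _).add (h3 _)

theorem vfacts_rho_smooth (hU : KESide f U) {O : Set ℂ} (hc : IsCurve f O X Y) {t : ℂ}
    (ht : t ∈ O) : ContDiffAt ℝ ∞ (rhoC U X Y) t :=
  contDiffAt_const.mul (vfacts_lap_smooth (vfacts_pot hU hc ht))

theorem vfacts_analytic {O : Set ℂ} (hO : IsOpen O) (hX : DifferentiableOn ℂ X O) {t : ℂ}
    (ht : t ∈ O) : AnalyticAt ℂ X t := hX.analyticAt (hO.mem_nhds ht)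

theorem rhoC_eq (hs : ∀ x, f x = 0 → deriv f x ≠ 0) (hU : KESide f U) (hv : IsV f U v)
    (hc : IsChart f P r X Y k) {t : ℂ} (ht : t ∈ ball (0 : ℂ) r) :
    rhoC U X Y t = Real.exp (v (X t) (Y t)) * ‖k t‖ ^ 2 := by
  have hk : 0 < ‖k t‖ := norm_pos_iff.2 (hc.k_ne t ht)
  have hr := hU.pos _ _ _ (hc.isCurve hs) t ht
  rw [hv.chart P r X Y k hc t ht, Real.exp_sub, Real.exp_log hr,
    show 2 * Real.log ‖k t‖ = Real.log (‖k t‖ ^ 2) by rw [Real.log_pow]; norm_num,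
    Real.exp_log (by positivity)]
  field_simp

/-- `v` is smooth in charts and `(1/2) Δ v = e^v |k|²` -/
theorem lap_V (hs : ∀ x, f x = 0 → deriv f x ≠ 0) (hU : KESide f U) (hv : IsV f U v)
    (hc : IsChart f P r X Y k) {t : ℂ} (ht : t ∈ ball (0 : ℂ) r) :
    ContDiffAt ℝ 2 (fun s => v (X s) (Y s)) t ∧
      (1 / 2) * Δ (fun s => v (X s) (Y s)) t = Real.exp (v (X t) (Y t)) * ‖k t‖ ^ 2 := by
  have hcv := hc.isCurve hs
  have hb : ball (0 : ℂ) r ∈ 𝓝 t := isOpen_ball.mem_nhds ht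
  have h1 : ContDiffAt ℝ 2 (fun s => Real.log (rhoC U X Y s)) t :=
    ((vfacts_rho_smooth hU hcv ht).log (hU.pos _ _ _ hcv t ht).ne').of_le
      (WithTop.coe_le_coe.2 le_top)
  have h2 := lap_log_norm (vfacts_analytic isOpen_ball hc.hk ht) (hc.k_ne t ht)
  have h3 : ContDiffAt ℝ 2 (fun s => Real.log ‖k s‖) t :=
    h2.1.of_le (WithTop.coe_le_coe.2 le_top)
  have e : (fun s => v (X s) (Y s)) =ᶠ[𝓝 t]
      (fun s => Real.log (rhoC U X Y s)) - (2 : ℝ) • (fun s => Real.log ‖k s‖) := by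
    filter_upwards [hb] with s hs'
    simp only [Pi.sub_apply, Pi.smul_apply, smul_eq_mul]
    exact hv.chart P r X Y k hc s hs'
  have h4 : ContDiffAt ℝ 2 ((2 : ℝ) • (fun s => Real.log ‖k s‖)) t := h3.const_smul (2 : ℝ)
  refine ⟨(h1.sub h4).congr_of_eventuallyEq e, ?_⟩
  rw [(InnerProductSpace.laplacian_congr_nhds e).self_of_nhds, h1.laplacian_sub h4,
    InnerProductSpace.laplacian_smul _ h3, h2.2, smul_zero, sub_zero,
    hU.ke _ _ _ hcv t ht, rhoC_eq hs hU hv hc ht]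

/-- `v - (1/3) log φ - U` is harmonic in charts -/
theorem lap_W (hs : ∀ x, f x = 0 → deriv f x ≠ 0) (hU : KESide f U) (hv : IsV f U v)
    (hc : IsChart f P r X Y k) {t : ℂ} (ht : t ∈ ball (0 : ℂ) r) :
    ContDiffAt ℝ 2 (fun s => v (X s) (Y s) - (1 / 3) * Real.log (phi (X s) (Y s)) -
        U (X s) (Y s)) t ∧
      Δ (fun s => v (X s) (Y s) - (1 / 3) * Real.log (phi (X s) (Y s)) - U (X s) (Y s)) t = 0 := by
  have hcv := hc.isCurve hs
  obtain ⟨h1, h1'⟩ := lap_V hs hU hv hc ht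
  have h2 : ContDiffAt ℝ 2 (fun s => (1 / 3) * Real.log (phi (X s) (Y s)) + U (X s) (Y s)) t :=
    (vfacts_pot hU hcv ht).of_le (WithTop.coe_le_coe.2 le_top)
  have e : (fun s => v (X s) (Y s) - (1 / 3) * Real.log (phi (X s) (Y s)) - U (X s) (Y s)) =
      (fun s => v (X s) (Y s)) -
        (fun s => (1 / 3) * Real.log (phi (X s) (Y s)) + U (X s) (Y s)) := by
    funext s; simp only [Pi.sub_apply]; ring
  rw [e]
  refine ⟨h1.sub h2, ?_⟩
  rw [h1.laplacian_sub h2]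
  have h3 : rhoC U X Y t =
      (1 / 2) * Δ (fun s => (1 / 3) * Real.log (phi (X s) (Y s)) + U (X s) (Y s)) t := rfl
  rw [rhoC_eq hs hU hv hc ht, ← h1'] at h3
  linarith

theorem cont_V (hf : Differentiable ℂ f) (hs : ∀ x, f x = 0 → deriv f x ≠ 0) (hU : KESide f U)
    (hv : IsV f U v) : ContinuousOn (fun P : ℂ × ℂ => v P.1 P.2) (Crv f) :=
  cont_of_charts hf hs fun _ _ _ _ _ hc =>
    (lap_V hs hU hv hc (mem_ball_self hc.r_pos)).1.continuousAt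

theorem cont_U (hf : Differentiable ℂ f) (hs : ∀ x, f x = 0 → deriv f x ≠ 0) (hU : KESide f U) :
    ContinuousOn (fun P : ℂ × ℂ => U P.1 P.2) (Crv f) :=
  cont_of_charts hf hs fun _ _ X Y _ hc =>
    ((hU.smooth _ X Y (hc.isCurve hs)).contDiffAt
      (isOpen_ball.mem_nhds (mem_ball_self hc.r_pos))).continuousAt

end MP_32c225_ag
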